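import Pool.Agent.TH313.HI.Est2

/-! Dependent sequences. -/

set_option autoImplicit false

namespace Pool.Agent.TH313.HI

open Finset

noncomputable section

/-- a dependent sequence for the special weight `p` -/
structure Dep (C : ℝ) (p : ℕ) (X : ℕ → V) (q : ℕ → ℕ) (G : ℕ → Tr × ℕ × ℕ) : Prop where
  hC : 1 ≤ C
  hp : p % 2 = 1
  lev : ∀ k, OnLv (G k).2.1 (G k).2.2 (X k)
  le : ∀ k, (G k).2.1 ≤ (G k).2.2
  suc : ∀ k k', k < k' → (G k).2.2 < (G k').2.1
  wf : ∀ k, (G k).1.Wf
  wt : ∀ k, (G k).1.wt = q k + 1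
  q0 : q 0 % 4 = 2
  q0' : thr p ≤ q 0
  qs : ∀ k, q (k + 1) = sig (List.ofFn fun i : Fin (k + 1) => G i)
  bd : ∀ k, Bd (4 * C) (X k)
  low : ∀ k (t : Tr), t.Wf → ∀ i, t.wt = i + 1 → i < q k → ∀ α β, ‖ev t (cut α β (X k))‖ ≤ 3 * C / mm i
  high : ∀ k (t : Tr), t.Wf → ∀ i, t.wt = i + 1 → ∀ α β,
    ‖ev t (cut α β (X k))‖ ≤ 3 * C * (mm (q k) / nn (q k)) + C * (mm (q k) / mm i)
  diag : ∀ k, ‖ev (G k).1 (X k)‖ ≤ 1 / nn p

namespace Dep

variable {C : ℝ} {p : ℕ} {X : ℕ → V} {q : ℕ → ℕ} {G : ℕ → Tr × ℕ × ℕ}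

theorem q_lt (h : Dep C p X q G) (k : ℕ) : q k < q (k + 1) := by
  rw [h.qs k]
  refine lt_of_le_of_lt ?_ (wsum_lt_sig _)
  unfold wsum
  have h1 : (G k).1.wt ≤ ((List.ofFn fun i : Fin (k + 1) => G i).map fun s => s.1.wt).sum := by
    apply List.single_le_sum (fun _ _ => Nat.zero_le _)
    rw [List.mem_map]
    exact ⟨G k, by rw [List.mem_ofFn]; exact ⟨⟨k, by omega⟩, rfl⟩, rfl⟩
  rw [h.wt k] at h1
  omega

theorem q_mono (h : Dep C p X q G) : StrictMono q := strictMono_nat_of_lt_succ h.q_lt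

theorem thr_le (h : Dep C p X q G) (k : ℕ) : thr p ≤ q k :=
  h.q0'.trans (h.q_mono.monotone (Nat.zero_le k))

theorem succ' (h : Dep C p X q G) : Succ X (fun k => (G k).2.1) (fun k => (G k).2.2) :=
  ⟨h.lev, h.le, h.suc⟩

end Dep

theorem sum_mm_le (i : ℕ) (hi : 1 ≤ i) : ∑ q ∈ range i, (mm q : ℝ) ≤ 2 * mm (i - 1) := by
  induction i with
  | zero => omega
  | succ i ih =>
    rw [Finset.sum_range_succ, Nat.add_sub_cancel]
    rcases Nat.eq_zero_or_pos i with h | h
    · subst h
      have := mm_pos' 0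
      simp only [Finset.range_zero, Finset.sum_empty]
      linarith
    · have h1 := ih h
      obtain ⟨i, rfl⟩ : ∃ i', i = i' + 1 := ⟨i - 1, by omega⟩
      rw [Nat.add_sub_cancel] at h1
      have h2 : (mm (i + 1) : ℝ) = (mm i : ℝ) ^ 2 := by exact_mod_cast mm_succ i
      have h3 := one_le_mm i
      nlinarith

theorem lt_mm' (i : ℕ) : (i : ℝ) < mm i := by exact_mod_cast lt_mm i

namespace Dep

variable {C : ℝ} {p : ℕ} {X : ℕ → V} {q : ℕ → ℕ} {G : ℕ → Tr × ℕ × ℕ}

/-- the general estimate -/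
theorem gen (h : Dep C p X q G) {I : Finset ℕ} (hI : I ⊆ range (nn p)) (t : Tr) (hw : t.Wf) (i : ℕ)
    (hi : t.wt = i + 1) (hi1 : 1 ≤ i) (α β : ℕ) (E : ℝ) (hE : ∀ k ∈ I, q k = i → 4 * C ≤ E) (hE0 : 0 ≤ E) :
    ‖ev t (cut α β (∑ k ∈ I, X k))‖ ≤ E + (#I : ℝ) * (3 * C / mm i) + 3 * C / nn p + 2 * C / mm (i - 1) := by
  classical
  have hC : 0 ≤ C := by linarith [h.hC]
  rw [map_sum, map_sum]
  refine (norm_sum_le _ _).trans ?_
  have h1 : ∀ k ∈ I, ‖ev t (cut α β (X k))‖ ≤
      (if q k = i then E else 0) + 3 * C / mm i + 3 * C * (1 / (nn p : ℝ) ^ 2) +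
        C / mm i * (if q k < i then (mm (q k) : ℝ) else 0) := by
    intro k hk
    have hp1 : (0 : ℝ) ≤ 3 * C / mm i := by positivity
    have hp2 : (0 : ℝ) ≤ 3 * C * (1 / (nn p : ℝ) ^ 2) := by positivity
    rcases lt_trichotomy (q k) i with h2 | h2 | h2
    · rw [if_neg (by omega), if_pos h2]
      refine (h.high k t hw i hi α β).trans ?_
      have h3 : (mm (q k) : ℝ) / nn (q k) ≤ 1 / (nn p : ℝ) ^ 2 := by
        refine (mm_div_nn_le _).trans ?_
        apply div_le_div_of_nonneg_left zero_le_one (by have := nn_pos' p; positivity)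
        have h4 := lt_mm' (q k)
        have h5 : (2 * (nn p : ℝ) ^ 2 + p + 2) ≤ q k := by
          have := h.thr_le k
          unfold thr at this
          exact_mod_cast this
        have h6 : (0 : ℝ) ≤ p := Nat.cast_nonneg _
        have h7 := nn_pos' p
        have h8 : (nn p : ℝ) ^ 2 ≤ mm (q k) := by nlinarith
        have h9 : (1 : ℝ) ≤ mm (q k) := by linarith [one_le_mm (q k)]
        calc (nn p : ℝ) ^ 2 ≤ mm (q k) := h8
          _ ≤ (mm (q k) : ℝ) ^ 3 := le_self_pow₀ h9 (by norm_num)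
      have h4 : 3 * C * ((mm (q k) : ℝ) / nn (q k)) ≤ 3 * C * (1 / (nn p : ℝ) ^ 2) :=
        mul_le_mul_of_nonneg_left h3 (by positivity)
      have h5 : C * ((mm (q k) : ℝ) / mm i) = C / mm i * mm (q k) := by ring
      rw [h5]
      linarith
    · rw [if_pos h2, if_neg (by omega)]
      have := h.bd k t hw α β
      have := hE k hk h2
      simp only [mul_zero, add_zero]
      linarith
    · rw [if_neg (by omega), if_neg (by omega)]
      have := h.low k t hw i hi h2 α β
      simp only [mul_zero, add_zero, zero_add]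
      linarith
  refine (Finset.sum_le_sum h1).trans ?_
  rw [Finset.sum_add_distrib, Finset.sum_add_distrib, Finset.sum_add_distrib, Finset.sum_const,
    Finset.sum_const, nsmul_eq_mul, nsmul_eq_mul, ← Finset.mul_sum]
  have e1 : ∑ k ∈ I, (if q k = i then E else 0) ≤ E := by
    rw [← Finset.sum_filter, Finset.sum_const, nsmul_eq_mul]
    have h5 : (I.filter fun k => q k = i).card ≤ 1 := by
      rw [Finset.card_le_one]
      intro l hl l' hl'
      have h6 := (Finset.mem_filter.1 hl).2
      have h7 := (Finset.mem_filter.1 hl').2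
      exact h.q_mono.injective (h6.trans h7.symm)
    have h9 : ((I.filter fun k => q k = i).card : ℝ) ≤ 1 := by exact_mod_cast h5
    calc ((I.filter fun k => q k = i).card : ℝ) * E ≤ 1 * E :=
          mul_le_mul_of_nonneg_right h9 hE0
      _ = E := one_mul E
  have e2 : (#I : ℝ) * (3 * C * (1 / (nn p : ℝ) ^ 2)) ≤ 3 * C / nn p := by
    have h2 : (#I : ℝ) ≤ nn p := by
      have := Finset.card_le_card hI
      rw [Finset.card_range] at this
      exact_mod_cast this
    have h3 := nn_pos' p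
    calc (#I : ℝ) * (3 * C * (1 / (nn p : ℝ) ^ 2)) ≤ nn p * (3 * C * (1 / (nn p : ℝ) ^ 2)) :=
          mul_le_mul_of_nonneg_right h2 (by positivity)
      _ = 3 * C / nn p := by field_simp
  have e3 : C / mm i * ∑ k ∈ I, (if q k < i then (mm (q k) : ℝ) else 0) ≤ 2 * C / mm (i - 1) := by
    have h2 : ∑ k ∈ I, (if q k < i then (mm (q k) : ℝ) else 0) ≤ 2 * mm (i - 1) := by
      refine le_trans ?_ (sum_mm_le i hi1)
      rw [← Finset.sum_filter, ← Finset.sum_image (f := fun n => (mm n : ℝ)) (g := q)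
        (fun x _ y _ hxy => h.q_mono.injective hxy)]
      refine Finset.sum_le_sum_of_subset_of_nonneg ?_ (fun _ _ _ => Nat.cast_nonneg _)
      intro n hn
      obtain ⟨k, hk, rfl⟩ := Finset.mem_image.1 hn
      exact Finset.mem_range.2 (Finset.mem_filter.1 hk).2
    obtain ⟨i, rfl⟩ : ∃ i', i = i' + 1 := ⟨i - 1, by omega⟩
    rw [Nat.add_sub_cancel] at h2 ⊢
    have h3 : (mm (i + 1) : ℝ) = (mm i : ℝ) ^ 2 := by exact_mod_cast mm_succ i
    have h4 := mm_pos' i
    rw [h3]
    calc C / (mm i : ℝ) ^ 2 * ∑ k ∈ I, (if q k < i + 1 then (mm (q k) : ℝ) else 0)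
        ≤ C / (mm i : ℝ) ^ 2 * (2 * mm i) := mul_le_mul_of_nonneg_left h2 (by positivity)
      _ = 2 * C / mm i := by field_simp
  linarith

theorem card_le_nn {I : Finset ℕ} (hI : I ⊆ range (nn p)) : (#I : ℝ) ≤ nn p := by
  have := Finset.card_le_card hI
  rw [Finset.card_range] at this
  exact_mod_cast this

/-- nodes of index larger than `p` -/
theorem gen_big (h : Dep C p X q G) {I : Finset ℕ} (hI : I ⊆ range (nn p)) (t : Tr) (hw : t.Wf) (i : ℕ)
    (hi : t.wt = i + 1) (hip : p < i) (α β : ℕ) :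
    ‖ev t (cut α β (∑ k ∈ I, X k))‖ ≤ 9 * C + 3 * C / (mm p) ^ 2 * (#I : ℝ) := by
  have hC : 0 ≤ C := by linarith [h.hC]
  have h1 := h.gen hI t hw i hi (by omega) α β (4 * C) (fun _ _ _ => le_rfl) (by positivity)
  refine h1.trans ?_
  have h2 : (mm p : ℝ) ^ 2 ≤ mm i := by
    have : mm (p + 1) ≤ mm i := mm_mono hip
    rw [mm_succ] at this
    exact_mod_cast this
  have h3 : 3 * C / mm i ≤ 3 * C / (mm p) ^ 2 :=
    div_le_div_of_nonneg_left (by positivity) (by have := mm_pos' p; positivity) h2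
  have h4 : 3 * C / nn p ≤ 3 * C := div_le_self (by positivity) (by exact_mod_cast nn_pos p)
  have h5 : 2 * C / mm (i - 1) ≤ 2 * C := div_le_self (by positivity) (by linarith [one_le_mm (i - 1)])
  have h6 : (#I : ℝ) * (3 * C / mm i) ≤ (#I : ℝ) * (3 * C / (mm p) ^ 2) :=
    mul_le_mul_of_nonneg_left h3 (Nat.cast_nonneg _)
  linarith [mul_comm (#I : ℝ) (3 * C / (mm p : ℝ) ^ 2)]

theorem two_sq_le {i : ℕ} (hi : thr p ≤ i) : 2 * (nn p : ℝ) ^ 2 ≤ mm (i - 1) ∧ 2 * (nn p : ℝ) ^ 2 ≤ mm i := by
  have h1 : (2 * (nn p : ℝ) ^ 2 + p + 2) ≤ i := by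
    unfold thr at hi
    exact_mod_cast hi
  have h2 := lt_mm' i
  have h3 := lt_mm' (i - 1)
  have h4 : 1 ≤ i := by unfold thr at hi; omega
  have h5 : ((i - 1 : ℕ) : ℝ) = i - 1 := by rw [Nat.cast_sub h4, Nat.cast_one]
  rw [h5] at h3
  have h6 : (0 : ℝ) ≤ p := Nat.cast_nonneg _
  constructor <;> linarith

/-- nodes of index at least `thr p` -/
theorem gen_thr (h : Dep C p X q G) {I : Finset ℕ} (hI : I ⊆ range (nn p)) (t : Tr) (hw : t.Wf) (i : ℕ)
    (hi : t.wt = i + 1) (hip : thr p ≤ i) (α β : ℕ) :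
    ‖ev t (cut α β (∑ k ∈ I, X k))‖ ≤ 12 * C := by
  have hC : 0 ≤ C := by linarith [h.hC]
  have hi1 : 1 ≤ i := by unfold thr at hip; omega
  have h1 := h.gen hI t hw i hi hi1 α β (4 * C) (fun _ _ _ => le_rfl) (by positivity)
  refine h1.trans ?_
  obtain ⟨h2, h3⟩ := two_sq_le hip
  have hN : (1 : ℝ) ≤ nn p := by exact_mod_cast nn_pos p
  have h4 : 3 * C / nn p ≤ 3 * C := div_le_self (by positivity) hN
  have h5 : 2 * C / mm (i - 1) ≤ 2 * C := div_le_self (by positivity) (by linarith [one_le_mm (i - 1)])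
  have h6 : (#I : ℝ) * (3 * C / mm i) ≤ 3 * C := by
    rw [mul_div_assoc', div_le_iff₀ (mm_pos' i)]
    have h7 := card_le_nn hI
    have h8 : (#I : ℝ) ≤ mm i := by nlinarith
    nlinarith
  linarith

/-- nodes of index at least `thr p` which does not occur among the `q k` -/
theorem gen_none (h : Dep C p X q G) {I : Finset ℕ} (hI : I ⊆ range (nn p)) (t : Tr) (hw : t.Wf) (i : ℕ)
    (hi : t.wt = i + 1) (hip : thr p ≤ i) (hne : ∀ k, q k ≠ i) (α β : ℕ) :
    ‖ev t (cut α β (∑ k ∈ I, X k))‖ ≤ 6 * C / nn p := by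
  have hC : 0 ≤ C := by linarith [h.hC]
  have hi1 : 1 ≤ i := by unfold thr at hip; omega
  have h1 := h.gen hI t hw i hi hi1 α β 0 (fun k _ hk => absurd hk (hne k)) le_rfl
  refine h1.trans ?_
  obtain ⟨h2, h3⟩ := two_sq_le hip
  have hN : (1 : ℝ) ≤ nn p := by exact_mod_cast nn_pos p
  have hN0 : (0 : ℝ) < nn p := nn_pos' p
  have h5 : 2 * C / mm (i - 1) ≤ C / nn p := by
    rw [div_le_div_iff₀ (mm_pos' _) hN0]
    have : (nn p : ℝ) ≤ (nn p : ℝ) ^ 2 := by nlinarith
    nlinarith
  have h6 : (#I : ℝ) * (3 * C / mm i) ≤ 2 * C / nn p := by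
    rw [mul_div_assoc', div_le_div_iff₀ (mm_pos' i) hN0]
    have h7 := card_le_nn hI
    have h8 : (#I : ℝ) * nn p ≤ (nn p : ℝ) ^ 2 := by nlinarith
    nlinarith
  have h9 : 0 + 2 * C / nn p + 3 * C / nn p + C / nn p = 6 * C / (nn p : ℝ) := by ring
  linarith

/-- special nodes -/
theorem special (h : Dep C p X q G) {I : Finset ℕ} (hI : I ⊆ range (nn p)) {d : ℕ} {c : Fin d → ℚ × ℚ}
    {a b : Fin d → ℕ} {t : Fin d → Tr} (hw : (Tr.node p d c a b t).Wf) (α β : ℕ) :
    ‖ev (.node p d c a b t) (cut α β (∑ k ∈ I, X k))‖ ≤ 27 * C := by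
  classical
  have hC : 0 ≤ C := by linarith [h.hC]
  have hC1 := h.hC
  obtain ⟨hd, hwt, hc, hab, hsucc, hodd⟩ := hw
  obtain ⟨-, hcode⟩ := hodd h.hp
  have hN : (1 : ℝ) ≤ nn p := by exact_mod_cast nn_pos p
  have hN0 : (0 : ℝ) < nn p := nn_pos' p
  -- weights of the children
  have hch : ∀ s : Fin d, ∃ i, (t s).wt = i + 1 ∧ thr p ≤ i := by
    intro s
    have h1 := hcode s
    split_ifs at h1 with h2
    · obtain ⟨q', -, h3, h4⟩ := h1
      exact ⟨q', h4, h3⟩
    · refine ⟨_, h1, ?_⟩
      have hd0 : 0 < d := lt_of_le_of_lt (Nat.zero_le _) s.2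
      have h3 := hcode ⟨0, hd0⟩
      rw [if_pos rfl] at h3
      obtain ⟨q', -, h4, h5⟩ := h3
      have h6 := wsum_lt_sig (hist a b t s)
      have h7 : (t ⟨0, hd0⟩).wt ≤ wsum (hist a b t s) := by
        unfold wsum
        apply List.single_le_sum (fun _ _ => Nat.zero_le _)
        rw [List.mem_map]
        refine ⟨(t ⟨0, hd0⟩, a ⟨0, hd0⟩, b ⟨0, hd0⟩), ?_, rfl⟩
        unfold hist
        rw [List.mem_take_iff_getElem]
        refine ⟨0, by rw [List.length_ofFn]; omega, ?_⟩
        rw [List.getElem_ofFn]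
      omega
  rw [ev_node, norm_mul, norm_inv, Complex.norm_natCast]
  -- indicator functions
  let P : Fin d → Prop := fun s => (t s, a s, b s) ≠ G s
  let i1 : Fin d → ℝ := fun s => if (G s).2.1 ≤ α ∧ α ≤ (G s).2.2 then 1 else 0
  let i2 : Fin d → ℝ := fun s => if (G s).2.1 ≤ β ∧ β ≤ (G s).2.2 then 1 else 0
  let i3 : Fin d → ℝ := fun s => if P s ∧ ∀ s' < s, ¬ P s' then 1 else 0
  have hi1 : ∀ s, 0 ≤ i1 s := fun s => by simp only [i1]; split_ifs <;> norm_num
  have hi2 : ∀ s, 0 ≤ i2 s := fun s => by simp only [i2]; split_ifs <;> norm_num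
  have hi3 : ∀ s, 0 ≤ i3 s := fun s => by simp only [i3]; split_ifs <;> norm_num
  have hsum1 : ∀ γ : ℕ, ∑ s : Fin d, (if (G s).2.1 ≤ γ ∧ γ ≤ (G s).2.2 then (1 : ℝ) else 0) ≤ 1 := by
    intro γ
    rw [← Finset.sum_filter, Finset.sum_const, nsmul_eq_mul, mul_one]
    have h5 : (Finset.univ.filter fun s : Fin d => (G s).2.1 ≤ γ ∧ γ ≤ (G s).2.2).card ≤ 1 := by
      rw [Finset.card_le_one]
      intro l hl l' hl'
      have h6 := (Finset.mem_filter.1 hl).2
      have h7 := (Finset.mem_filter.1 hl').2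
      by_contra hne
      rcases lt_or_gt_of_ne hne with h8 | h8
      · have := h.suc l l' h8
        omega
      · have := h.suc l' l h8
        omega
    exact_mod_cast h5
  have hsum3 : ∑ s : Fin d, i3 s ≤ 1 := by
    simp only [i3]
    rw [← Finset.sum_filter, Finset.sum_const, nsmul_eq_mul, mul_one]
    have h5 : (Finset.univ.filter fun s : Fin d => P s ∧ ∀ s' < s, ¬ P s').card ≤ 1 := by
      rw [Finset.card_le_one]
      intro l hl l' hl'
      have h6 := (Finset.mem_filter.1 hl).2
      have h7 := (Finset.mem_filter.1 hl').2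
      by_contra hne
      rcases lt_or_gt_of_ne hne with h8 | h8
      · exact h7.2 l h8 h6.1
      · exact h6.2 l' h8 h7.1
    exact_mod_cast h5
  have hterm : ∀ s : Fin d, ‖cc (c s) * ev (t s) (cut (a s) (b s) (cut α β (∑ k ∈ I, X k)))‖ ≤
      1 / nn p + 6 * C / nn p + 4 * C * i1 s + 4 * C * i2 s + 12 * C * i3 s := by
    intro s
    have q1 : (0 : ℝ) ≤ 1 / nn p := by positivity
    have q2 : 0 ≤ 6 * C / (nn p : ℝ) := by positivity
    have q3 : 0 ≤ 4 * C * i1 s := mul_nonneg (by positivity) (hi1 s)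
    have q4 : 0 ≤ 4 * C * i2 s := mul_nonneg (by positivity) (hi2 s)
    have q5 : 0 ≤ 12 * C * i3 s := mul_nonneg (by positivity) (hi3 s)
    rw [norm_mul, cut_cut]
    have hcs : ‖cc (c s)‖ * ‖ev (t s) (cut (max (a s) α) (min (b s) β) (∑ k ∈ I, X k))‖ ≤
        ‖ev (t s) (cut (max (a s) α) (min (b s) β) (∑ k ∈ I, X k))‖ :=
      mul_le_of_le_one_left (norm_nonneg _) (hc s)
    refine hcs.trans ?_
    by_cases hPs : P s
    · by_cases hmin : ∀ s' < s, ¬ P s'
      · -- the first difference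
        obtain ⟨i, hi, hthr⟩ := hch s
        have h1 := h.gen_thr hI (t s) (hwt s) i hi hthr (max (a s) α) (min (b s) β)
        have h2 : i3 s = 1 := by simp only [i3]; rw [if_pos ⟨hPs, hmin⟩]
        rw [h2, mul_one] at q5 ⊢
        linarith
      · -- after the first difference
        push Not at hmin
        obtain ⟨s', hs', hPs'⟩ := hmin
        have hs0 : (s : ℕ) ≠ 0 := by
          have : (s' : ℕ) < s := hs'
          omega
        have hwt' := hcode s
        rw [if_neg hs0] at hwt'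
        obtain ⟨i, hi, hthr⟩ := hch s
        have hi' : i = sig (hist a b t s) := by omega
        have hne : ∀ k, q k ≠ i := by
          intro k hk
          rw [hi'] at hk
          cases k with
          | zero =>
            have h1 := h.q0
            rw [hk, sig_mod] at h1
            omega
          | succ k =>
            rw [h.qs k] at hk
            have h1 := sig_injective hk
            have hlen := congrArg List.length h1
            unfold hist at hlen h1
            rw [List.length_ofFn, List.length_take, List.length_ofFn] at hlen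
            have hs'k : (s' : ℕ) < k + 1 := by
              have : (s' : ℕ) < s := hs'
              have := s.2
              omega
            have h2 : (List.ofFn fun i : Fin (k + 1) => G i)[(s' : ℕ)]'(by
                rw [List.length_ofFn]; exact hs'k) =
                ((List.ofFn fun i => (t i, a i, b i)).take s)[(s' : ℕ)]'(by
                rw [List.length_take, List.length_ofFn]
                have : (s' : ℕ) < s := hs'
                have := s.2
                omega) := by
              simp only [h1]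
            rw [List.getElem_ofFn, List.getElem_take, List.getElem_ofFn] at h2
            exact hPs' h2.symm
        have h1 := h.gen_none hI (t s) (hwt s) i hi hthr hne (max (a s) α) (min (b s) β)
        linarith
    · -- before the first difference
      have hg : (t s, a s, b s) = G s := not_not.1 hPs
      have hts : t s = (G s).1 := congrArg Prod.fst hg
      have has : a s = (G s).2.1 := congrArg (fun z => z.2.1) hg
      have hbs : b s = (G s).2.2 := congrArg (fun z => z.2.2) hg
      rw [hts, has, hbs]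
      -- only the `s`-th vector is seen
      have hz : ∀ k, k ≠ (s : ℕ) → cut (max (G s).2.1 α) (min (G s).2.2 β) (X k) = 0 := by
        intro k hk
        apply (h.lev k).cut_zero
        have m1 := le_max_left (G s).2.1 α
        have m2 := min_le_left (G s).2.2 β
        rcases lt_or_gt_of_ne hk with h8 | h8
        · have := h.suc k s h8
          omega
        · have := h.suc s k h8
          omega
      have hone : ‖ev (G s).1 (cut (max (G s).2.1 α) (min (G s).2.2 β) (∑ k ∈ I, X k))‖ ≤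
          ‖ev (G s).1 (cut (max (G s).2.1 α) (min (G s).2.2 β) (X s))‖ := by
        rw [map_sum, map_sum]
        by_cases hsI : (s : ℕ) ∈ I
        · rw [Finset.sum_eq_single_of_mem (s : ℕ) hsI]
          intro k _ hk
          rw [hz k hk, map_zero]
        · rw [Finset.sum_eq_zero]
          · simp
          · intro k hk
            rw [hz k (fun h0 => hsI (h0 ▸ hk)), map_zero]
      refine hone.trans ?_
      by_cases hα : α ≤ (G s).2.1
      · by_cases hβ : (G s).2.2 ≤ β
        · have h3 : cut (max (G s).2.1 α) (min (G s).2.2 β) (X s) = X s := by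
            apply (h.lev s).cut_eq
            · exact max_le le_rfl hα
            · exact le_min le_rfl hβ
          rw [h3]
          have := h.diag s
          linarith
        · by_cases hβ' : (G s).2.1 ≤ β
          · have h4 : i2 s = 1 := by simp only [i2]; rw [if_pos ⟨hβ', by omega⟩]
            have h5 := h.bd s (G s).1 (h.wf s) (max (G s).2.1 α) (min (G s).2.2 β)
            rw [h4, mul_one] at q4 ⊢
            linarith
          · have h3 : cut (max (G s).2.1 α) (min (G s).2.2 β) (X s) = 0 := by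
              apply (h.lev s).cut_zero
              have := min_le_right (G s).2.2 β
              omega
            rw [h3, map_zero, norm_zero]
            positivity
      · by_cases hα' : α ≤ (G s).2.2
        · have h4 : i1 s = 1 := by simp only [i1]; rw [if_pos ⟨by omega, hα'⟩]
          have h5 := h.bd s (G s).1 (h.wf s) (max (G s).2.1 α) (min (G s).2.2 β)
          rw [h4, mul_one] at q3 ⊢
          linarith
        · have h3 : cut (max (G s).2.1 α) (min (G s).2.2 β) (X s) = 0 := by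
            apply (h.lev s).cut_zero
            have := le_max_right (G s).2.1 α
            omega
          rw [h3, map_zero, norm_zero]
          positivity
  have hsum : ‖∑ s : Fin d, cc (c s) * ev (t s) (cut (a s) (b s) (cut α β (∑ k ∈ I, X k)))‖ ≤ 27 * C := by
    refine (norm_sum_le _ _).trans ((Finset.sum_le_sum fun s _ => hterm s).trans ?_)
    rw [Finset.sum_add_distrib, Finset.sum_add_distrib, Finset.sum_add_distrib, Finset.sum_add_distrib,
      ← Finset.mul_sum, ← Finset.mul_sum, ← Finset.mul_sum, Finset.sum_const, Finset.sum_const,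
      Finset.card_univ, Fintype.card_fin, nsmul_eq_mul, nsmul_eq_mul]
    have hdN : (d : ℝ) ≤ nn p := by exact_mod_cast hd
    have e1 : (d : ℝ) * (1 / nn p) ≤ 1 := by
      rw [mul_one_div, div_le_one hN0]; exact hdN
    have e2 : (d : ℝ) * (6 * C / nn p) ≤ 6 * C := by
      rw [mul_div_assoc', div_le_iff₀ hN0]
      nlinarith
    have e3 := mul_le_mul_of_nonneg_left (hsum1 α) (by positivity : 0 ≤ 4 * C)
    have e4 := mul_le_mul_of_nonneg_left (hsum1 β) (by positivity : 0 ≤ 4 * C)
    have e5 := mul_le_mul_of_nonneg_left hsum3 (by positivity : 0 ≤ 12 * C)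
    simp only [i1, i2]
    linarith
  calc ((mm p : ℝ))⁻¹ * ‖∑ s : Fin d, cc (c s) * ev (t s) (cut (a s) (b s) (cut α β (∑ k ∈ I, X k)))‖
      ≤ 1 * (27 * C) := by
        refine mul_le_mul ?_ hsum (norm_nonneg _) zero_le_one
        linarith [inv_mm_le p]
    _ = 27 * C := one_mul _

/-- the main estimate for dependent sequences -/
theorem bound (h : Dep C p X q G) : Bd (8 * C * (nn p / (mm p) ^ 2)) (∑ k ∈ range (nn p), X k) := by
  classical
  have hC : 0 ≤ C := by linarith [h.hC]
  have hmp := mm_pos' p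
  let x : ℕ → V := fun k => if k < nn p then X k else 0
  have hx : Succ x (fun k => (G k).2.1) (fun k => (G k).2.2) := by
    refine ⟨fun k => ?_, h.le, h.suc⟩
    simp only [x]
    split_ifs
    · exact h.lev k
    · intro _ _ _; rfl
  have hsumx : ∀ I : Finset ℕ, ∑ k ∈ I, x k = ∑ k ∈ I ∩ range (nn p), X k := by
    intro I
    rw [← Finset.filter_mem_eq_inter, Finset.sum_filter]
    refine Finset.sum_congr rfl fun k _ => ?_
    simp only [x, Finset.mem_range]
  have hbd : ∀ k, Bd (4 * C) (x k) := by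
    intro k
    simp only [x]
    split_ifs
    · exact h.bd k
    · intro t _ α β
      rw [map_zero, map_zero, norm_zero]
      positivity
  have hP : ∀ t : Tr, t.Wf → ∀ i, t.wt = i + 1 → p ≤ i → ∀ α β I,
      ‖ev t (cut α β (∑ l ∈ I, x l))‖ ≤ 27 * C + 3 * C / (mm p) ^ 2 * (#I : ℝ) := by
    intro t hw i hi hpi α β I
    rw [hsumx]
    have hcard : (#(I ∩ range (nn p)) : ℝ) ≤ #I := by
      exact_mod_cast Finset.card_le_card Finset.inter_subset_left
    have hnn : 0 ≤ 3 * C / (mm p : ℝ) ^ 2 := by positivity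
    rcases eq_or_lt_of_le hpi with h1 | h1
    · subst h1
      cases t with
      | base k g => simp [Tr.wt] at hi
      | node j d c a b t =>
        have hji : j = p := by simpa [Tr.wt] using hi
        subst hji
        have := h.special Finset.inter_subset_right hw α β (I := I ∩ range (nn j))
        have h2 : (0 : ℝ) ≤ #I := Nat.cast_nonneg _
        have h3 := mul_nonneg hnn h2
        linarith
    · have := h.gen_big Finset.inter_subset_right t hw i hi h1 α β (I := I ∩ range (nn p))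
      have h3 := mul_le_mul_of_nonneg_left hcard hnn
      linarith
  intro t hw α β
  have h0 := recEst hx (by positivity : 0 ≤ 4 * C) (by positivity : 0 ≤ 27 * C)
    (by positivity : 0 ≤ 3 * C / (mm p : ℝ) ^ 2) hbd hP (rr p) t hw α β (range (nn p))
  rw [hsumx, Finset.inter_self, Finset.card_range, two_pow_rr'] at h0
  refine h0.trans ?_
  have hg := growth p
  have hD : (0 : ℝ) ≤ DD p := Nat.cast_nonneg _
  set P : ℝ := (2 * (DD p : ℝ) + 2) ^ rr p with hPdef
  have hP1 : 1 ≤ P := one_le_pow₀ (by linarith)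
  have h4 := one_le_mm p
  have e1 : (27 * C + 4 * C) * P ≤ C * (nn p / (mm p) ^ 2) := by
    rw [mul_div_assoc', le_div_iff₀ (by positivity)]
    have e2 : (mm p : ℝ) ^ 4 * 5 * P ≤ nn p := by
      refine le_trans ?_ hg
      refine mul_le_mul_of_nonneg_right ?_ (by linarith)
      refine mul_le_mul_of_nonneg_left ?_ (by positivity)
      linarith
    have e3 : (16 : ℝ) ≤ (mm p : ℝ) ^ 2 := by nlinarith
    have e4 : (27 * C + 4 * C) * P * (mm p : ℝ) ^ 2 ≤ C * ((mm p : ℝ) ^ 4 * 5 * P) := by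
      have e5 : (31 : ℝ) ≤ 5 * (mm p : ℝ) ^ 2 := by linarith
      have e6 : 0 ≤ C * P * (mm p : ℝ) ^ 2 := by positivity
      nlinarith
    exact e4.trans (mul_le_mul_of_nonneg_left e2 hC)
  have e2 : (3 * C / (mm p : ℝ) ^ 2 + 4 * C / (mm p : ℝ) ^ 2) * nn p = 7 * C * (nn p / (mm p : ℝ) ^ 2) := by
    ring
  rw [e2]
  linarith

end Dep

end

end Pool.Agent.TH313.HI
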