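import Pool.Agent.TH313.HI.Tr

/-! Growth of the parameters; the action of trees on single levels; the splitting lemma. -/

set_option autoImplicit false

namespace Pool.Agent.TH313.HI

open Finset

noncomputable section

/-! ### growth -/

theorem mm_succ (j : ℕ) : mm (j + 1) = mm j ^ 2 := by
  unfold mm
  rw [← pow_mul, pow_succ 2 (j + 1)]

theorem four_le_mm (j : ℕ) : 4 ≤ mm j := by
  unfold mm
  have h : 2 ≤ 2 ^ (j + 1) := by
    calc 2 = 2 ^ 1 := by norm_num
      _ ≤ 2 ^ (j + 1) := Nat.pow_le_pow_right (by norm_num) (by omega)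
  calc 4 = 2 ^ 2 := by norm_num
    _ ≤ 2 ^ 2 ^ (j + 1) := Nat.pow_le_pow_right (by norm_num) h

theorem mm_pos (j : ℕ) : 0 < mm j := by have := four_le_mm j; omega

theorem mm_strictMono : StrictMono mm := by
  refine strictMono_nat_of_lt_succ fun j => ?_
  rw [mm_succ]
  have := four_le_mm j
  nlinarith

theorem mm_mono {i j : ℕ} (h : i ≤ j) : mm i ≤ mm j := mm_strictMono.monotone h

theorem two_pow_rr (j : ℕ) : 2 ^ rr j = mm j ^ 2 := by
  unfold mm rr
  rw [← pow_mul, pow_succ 2 (j + 1)]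

theorem lt_mm (j : ℕ) : j < mm j := by
  unfold mm
  have h1 : j < 2 ^ (j + 1) := (Nat.lt_succ_self j).trans (Nat.lt_two_pow_self)
  exact h1.trans Nat.lt_two_pow_self

theorem mm_pow_le_nn (j : ℕ) : mm j ^ 4 ≤ nn j := by
  cases j with
  | zero =>
    rw [nn]
    have h2 : 1 ≤ 2 ^ rr 0 := Nat.one_le_pow _ _ (by norm_num)
    calc mm 0 ^ 4 = mm 0 ^ 4 * 1 * 1 := by ring
      _ ≤ mm 0 ^ 4 * 5 * 2 ^ rr 0 := Nat.mul_le_mul (Nat.mul_le_mul le_rfl (by norm_num)) h2
  | succ j =>
    rw [nn]
    have h1 : 1 ≤ 5 * nn j + 5 := by omega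
    have h2 : 1 ≤ (2 * nn j + 2) ^ rr (j + 1) := Nat.one_le_pow _ _ (by omega)
    calc mm (j + 1) ^ 4 = mm (j + 1) ^ 4 * 1 * 1 := by ring
      _ ≤ mm (j + 1) ^ 4 * (5 * nn j + 5) * (2 * nn j + 2) ^ rr (j + 1) :=
        Nat.mul_le_mul (Nat.mul_le_mul le_rfl h1) h2

theorem nn_pos (j : ℕ) : 0 < nn j := lt_of_lt_of_le (pow_pos (mm_pos j) 4) (mm_pow_le_nn j)

theorem nn_succ_ge (j : ℕ) : mm (j + 1) ^ 4 * (5 * nn j + 5) * (2 * nn j + 2) ^ rr (j + 1) ≤ nn (j + 1) := by
  rw [nn]

theorem nn_strictMono : StrictMono nn := by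
  refine strictMono_nat_of_lt_succ fun j => ?_
  rw [nn]
  have h1 : 1 ≤ mm (j + 1) ^ 4 := Nat.one_le_pow _ _ (mm_pos _)
  have h2 : 1 ≤ (2 * nn j + 2) ^ rr (j + 1) := Nat.one_le_pow _ _ (by omega)
  calc nn j < 1 * (5 * nn j + 5) * 1 := by omega
    _ ≤ mm (j + 1) ^ 4 * (5 * nn j + 5) * (2 * nn j + 2) ^ rr (j + 1) :=
        Nat.mul_le_mul (Nat.mul_le_mul h1 le_rfl) h2

theorem nn_mono {i j : ℕ} (h : i ≤ j) : nn i ≤ nn j := nn_strictMono.monotone h

theorem two_dvd_nn (j : ℕ) : 2 ∣ nn j := by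
  have h : 2 ∣ mm j := by
    unfold mm
    exact dvd_pow_self 2 (by positivity)
  have h4 : 2 ∣ mm j ^ 4 := dvd_pow h (by norm_num)
  cases j with
  | zero =>
    rw [nn]
    exact Dvd.dvd.mul_right (Dvd.dvd.mul_right h4 _) _
  | succ j =>
    rw [nn]
    exact Dvd.dvd.mul_right (Dvd.dvd.mul_right h4 _) _

theorem lt_nn (j : ℕ) : j < nn j := by
  have h1 := lt_mm j
  have h2 := mm_pow_le_nn j
  have h3 : mm j ≤ mm j ^ 4 := Nat.le_self_pow (by norm_num) _
  omega

/-- the number of children of the nodes of index less than `q` -/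
def DD (q : ℕ) : ℕ := if q = 0 then 0 else nn (q - 1)

theorem nn_le_DD {i q : ℕ} (h : i < q) : nn i ≤ DD q := by
  unfold DD
  rw [if_neg (by omega)]
  exact nn_mono (by omega)

theorem nn_ge_DD (q : ℕ) : mm q ^ 4 * (5 * DD q + 5) * (2 * DD q + 2) ^ rr q ≤ nn q := by
  unfold DD
  cases q with
  | zero => rw [if_pos rfl, nn]
  | succ q =>
    rw [if_neg (by omega), Nat.add_sub_cancel]
    exact nn_succ_ge q

/-! ### single levels -/

theorem ev_level : ∀ (t : Tr), t.Wf → ∀ (k : ℕ) (x : V) (M : ℝ), 0 ≤ M → OnLv k k x →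
    (∀ g < 2 ^ (k + 2), ‖x k g‖ ≤ M) → ‖ev t x‖ ≤ M := by
  intro t
  induction t with
  | base k' g' =>
    intro hw k x M hM hx h
    rw [ev_base]
    by_cases hk : k' = k
    · subst hk; exact h g' hw
    · rw [hx k' g' (by omega)]
      simpa using hM
  | node j d c a b t ih =>
    intro hw k x M hM hx h
    obtain ⟨hd, hwt, hc, hab, hsucc, -⟩ := hw
    rw [ev_node, norm_mul]
    have hm : ‖((mm j : ℂ))⁻¹‖ ≤ 1 := by
      rw [norm_inv, Complex.norm_natCast]
      have : (1 : ℝ) ≤ mm j := by exact_mod_cast mm_pos j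
      exact inv_le_one_of_one_le₀ this
    have hs : ‖∑ i : Fin d, cc (c i) * ev (t i) (cut (a i) (b i) x)‖ ≤ M := by
      by_cases hex : ∃ i₀, a i₀ ≤ k ∧ k ≤ b i₀
      · obtain ⟨i₀, h1, h2⟩ := hex
        rw [Finset.sum_eq_single i₀]
        · rw [norm_mul]
          have h3 : ‖ev (t i₀) (cut (a i₀) (b i₀) x)‖ ≤ M :=
            ih i₀ (hwt i₀) k _ M hM (hx.cutR _ _) fun g hg => by
              rw [cut_apply, if_pos ⟨h1, h2⟩]; exact h g hg
          calc ‖cc (c i₀)‖ * ‖ev (t i₀) (cut (a i₀) (b i₀) x)‖ ≤ 1 * M :=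
                mul_le_mul (hc i₀) h3 (norm_nonneg _) zero_le_one
            _ = M := one_mul M
        · intro i _ hi
          have : cut (a i) (b i) x = 0 := by
            apply hx.cut_zero
            rcases lt_or_gt_of_ne hi with h4 | h4
            · have := hsucc i i₀ h4
              omega
            · have := hsucc i₀ i h4
              omega
          rw [this, map_zero, mul_zero]
        · intro h3; exact absurd (Finset.mem_univ _) h3
      · rw [Finset.sum_eq_zero]
        · simpa using hM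
        · intro i _
          have : cut (a i) (b i) x = 0 := by
            apply hx.cut_zero
            by_contra h4
            push Not at h4
            exact hex ⟨i, by omega, by omega⟩
          rw [this, map_zero, mul_zero]
    calc ‖((mm j : ℂ))⁻¹‖ * ‖∑ i : Fin d, cc (c i) * ev (t i) (cut (a i) (b i) x)‖ ≤ 1 * M :=
          mul_le_mul hm hs (norm_nonneg _) zero_le_one
      _ = M := one_mul M

/-- a node divides by its weight on single levels -/
theorem ev_level_node {j d : ℕ} {c : Fin d → ℚ × ℚ} {a b : Fin d → ℕ} {t : Fin d → Tr}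
    (hw : (Tr.node j d c a b t).Wf) (k : ℕ) (x : V) (M : ℝ) (hM : 0 ≤ M) (hx : OnLv k k x)
    (h : ∀ g < 2 ^ (k + 2), ‖x k g‖ ≤ M) : ‖ev (.node j d c a b t) x‖ ≤ (mm j : ℝ)⁻¹ * M := by
  obtain ⟨hd, hwt, hc, hab, hsucc, -⟩ := hw
  rw [ev_node, norm_mul]
  have hm : ‖((mm j : ℂ))⁻¹‖ = (mm j : ℝ)⁻¹ := by
    rw [norm_inv, Complex.norm_natCast]
  rw [hm]
  refine mul_le_mul_of_nonneg_left ?_ (by positivity)
  by_cases hex : ∃ i₀, a i₀ ≤ k ∧ k ≤ b i₀
  · obtain ⟨i₀, h1, h2⟩ := hex
    rw [Finset.sum_eq_single i₀]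
    · rw [norm_mul]
      have h3 : ‖ev (t i₀) (cut (a i₀) (b i₀) x)‖ ≤ M :=
        ev_level _ (hwt i₀) k _ M hM (hx.cutR _ _) fun g hg => by
          rw [cut_apply, if_pos ⟨h1, h2⟩]; exact h g hg
      calc ‖cc (c i₀)‖ * ‖ev (t i₀) (cut (a i₀) (b i₀) x)‖ ≤ 1 * M :=
            mul_le_mul (hc i₀) h3 (norm_nonneg _) zero_le_one
        _ = M := one_mul M
    · intro i _ hi
      have : cut (a i) (b i) x = 0 := by
        apply hx.cut_zero
        rcases lt_or_gt_of_ne hi with h4 | h4
        · have := hsucc i i₀ h4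
          omega
        · have := hsucc i₀ i h4
          omega
      rw [this, map_zero, mul_zero]
    · intro h3; exact absurd (Finset.mem_univ _) h3
  · rw [Finset.sum_eq_zero]
    · simpa using hM
    · intro i _
      have : cut (a i) (b i) x = 0 := by
        apply hx.cut_zero
        by_contra h4
        push Not at h4
        exact hex ⟨i, by omega, by omega⟩
      rw [this, map_zero, mul_zero]

theorem OnLv.eq_sum {A B : ℕ} {x : V} (h : OnLv A B x) : x = ∑ k ∈ Icc A B, HI.cut k k x := by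
  funext k g
  rw [Finset.sum_apply, Finset.sum_apply]
  simp only [cut_apply]
  by_cases hk : k ∈ Icc A B
  · rw [Finset.sum_eq_single k]
    · simp
    · intro k' _ hk'
      rw [if_neg]
      omega
    · intro h1; exact absurd hk h1
  · rw [Finset.sum_eq_zero]
    · exact h k g (by rw [Finset.mem_Icc] at hk; omega)
    · intro k' hk'
      rw [if_neg]
      intro h1
      have : k' = k := by omega
      subst this
      exact hk hk'

theorem OnLv_level (k : ℕ) (x : V) : OnLv k k (cut k k x) := by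
  intro k' g hk
  rw [cut_apply, if_neg]
  omega

/-- bound by the sum of the level norms -/
theorem ev_le_sum {A B : ℕ} {x : V} (hx : OnLv A B x) (M : ℕ → ℝ) (hM : ∀ k, 0 ≤ M k)
    (h : ∀ k, ∀ g < 2 ^ (k + 2), ‖x k g‖ ≤ M k) (t : Tr) (hw : t.Wf) (a b : ℕ) :
    ‖ev t (cut a b x)‖ ≤ ∑ k ∈ Icc A B, M k := by
  rw [(hx.cutR a b).eq_sum, map_sum]
  refine (norm_sum_le _ _).trans (Finset.sum_le_sum fun k _ => ?_)
  refine ev_level t hw k _ _ (hM k) (OnLv_level _ _) fun g hg => ?_
  rw [cut_apply, if_pos ⟨le_rfl, le_rfl⟩, cut_apply]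
  split_ifs
  · exact h k g hg
  · simpa using hM k

theorem ev_node_le_sum {A B : ℕ} {x : V} (hx : OnLv A B x) (M : ℕ → ℝ) (hM : ∀ k, 0 ≤ M k)
    (h : ∀ k, ∀ g < 2 ^ (k + 2), ‖x k g‖ ≤ M k) {j d : ℕ} {c : Fin d → ℚ × ℚ} {a b : Fin d → ℕ}
    {t : Fin d → Tr} (hw : (Tr.node j d c a b t).Wf) (α β : ℕ) :
    ‖ev (.node j d c a b t) (cut α β x)‖ ≤ (mm j : ℝ)⁻¹ * ∑ k ∈ Icc A B, M k := by
  rw [(hx.cutR α β).eq_sum, map_sum, Finset.mul_sum]
  refine (norm_sum_le _ _).trans (Finset.sum_le_sum fun k _ => ?_)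
  refine ev_level_node hw k _ _ (hM k) (OnLv_level _ _) fun g hg => ?_
  rw [cut_apply, if_pos ⟨le_rfl, le_rfl⟩, cut_apply]
  split_ifs
  · exact h k g hg
  · simpa using hM k

/-! ### the splitting lemma -/

/-- successive supports -/
def Succ (x : ℕ → V) (A B : ℕ → ℕ) : Prop :=
  (∀ l, OnLv (A l) (B l) (x l)) ∧ (∀ l, A l ≤ B l) ∧ ∀ l l', l < l' → B l < A l'

theorem splitting {x : ℕ → V} {A B : ℕ → ℕ} (hx : Succ x A B) {j d : ℕ} {c : Fin d → ℚ × ℚ}
    {a b : Fin d → ℕ} {t : Fin d → Tr} (hw : (Tr.node j d c a b t).Wf) (I : Finset ℕ) (α β : ℕ) :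
    ∃ (J : Finset ℕ) (K : Fin d → Finset ℕ), J ⊆ I ∧ J.card ≤ d ∧ (∀ i, K i ⊆ I) ∧
      (∑ i, (K i).card ≤ I.card) ∧
      ev (.node j d c a b t) (cut α β (∑ l ∈ I, x l)) =
        (∑ l ∈ J, ev (.node j d c a b t) (cut α β (x l))) +
        (mm j : ℂ)⁻¹ * ∑ i, cc (c i) * ev (t i) (cut (max (a i) α) (min (b i) β) (∑ l ∈ K i, x l)) := by
  classical
  obtain ⟨hd, hwt, hc, hab, hsucc, -⟩ := hw
  obtain ⟨hx1, hx2, hx3⟩ := hx
  -- the children met by the `l`-th vector
  let H : ℕ → Finset (Fin d) := fun l => Finset.univ.filter fun i => a i ≤ B l ∧ A l ≤ b i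
  let J : Finset ℕ := I.filter fun l => 2 ≤ (H l).card
  let K : Fin d → Finset ℕ := fun i => I.filter fun l => (H l).card < 2 ∧ i ∈ H l
  refine ⟨J, K, Finset.filter_subset _ _, ?_, fun i => Finset.filter_subset _ _, ?_, ?_⟩
  · -- the number of split vectors
    have hne : ∀ l ∈ J, (H l).Nonempty := by
      intro l hl
      have := (Finset.mem_filter.1 hl).2
      exact Finset.card_pos.1 (by omega)
    have hcard : J.card ≤ (Finset.range d).card := by
      refine Finset.card_le_card_of_injOn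
        (fun l => if h : (H l).Nonempty then (((H l).min' h : Fin d) : ℕ) else 0) ?_ ?_
      · intro l hl
        have h1 := hne l hl
        simp only [dif_pos h1, Finset.coe_range, Set.mem_Iio]
        exact Fin.is_lt _
      · have key : ∀ l ∈ J, ∀ l' ∈ J, l < l' → ∀ (h : (H l).Nonempty) (h' : (H l').Nonempty),
            (H l).min' h ≠ (H l').min' h' := by
          intro l hl l' hl' hll' h h' heq
          have h2 := (Finset.mem_filter.1 hl).2
          obtain ⟨i₁, hi₁, i₂, hi₂, hne12⟩ := Finset.one_lt_card.1 (by omega : 1 < (H l).card)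
          -- an element of `H l` larger than the minimum
          obtain ⟨i', hi', hlt⟩ : ∃ i' ∈ H l, (H l).min' h < i' := by
            by_cases h3 : (H l).min' h < i₁
            · exact ⟨i₁, hi₁, h3⟩
            · refine ⟨i₂, hi₂, lt_of_le_of_ne (Finset.min'_le _ _ hi₂) ?_⟩
              intro h4
              apply hne12
              have h5 := Finset.min'_le _ _ hi₁
              rw [← h4]
              exact le_antisymm (not_lt.1 h3) h5
          have h5 := (Finset.mem_filter.1 hi').2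
          have h6 := (Finset.mem_filter.1 ((H l').min'_mem h')).2
          rw [← heq] at h6
          have h7 := hsucc _ _ hlt
          have h8 := hx3 l l' hll'
          omega
        intro l hl l' hl' heq
        have h1 := hne l hl
        have h1' := hne l' hl'
        simp only [dif_pos h1, dif_pos h1'] at heq
        have heq' := Fin.ext heq
        rcases lt_trichotomy l l' with h | h | h
        · exact absurd heq' (key l hl l' hl' h h1 h1')
        · exact h
        · exact absurd heq'.symm (key l' hl' l hl h h1' h1)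
    simpa using hcard
  · -- the groups are disjoint
    rw [← Finset.card_biUnion]
    · exact Finset.card_le_card (Finset.biUnion_subset.2 fun i _ => Finset.filter_subset _ _)
    · intro i _ i' _ hii'
      rw [Function.onFun, Finset.disjoint_left]
      intro l hl hl'
      have h1 := (Finset.mem_filter.1 hl).2
      have h2 := (Finset.mem_filter.1 hl').2
      have : 1 < (H l).card := Finset.one_lt_card.2 ⟨i, h1.2, i', h2.2, hii'⟩
      omega
  · -- the formula
    have hsplit : I = J ∪ I.filter (fun l => (H l).card < 2) := by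
      ext l
      simp only [J, Finset.mem_union, Finset.mem_filter]
      constructor
      · intro h
        rcases lt_or_ge (H l).card 2 with h1 | h1
        · exact Or.inr ⟨h, h1⟩
        · exact Or.inl ⟨h, h1⟩
      · rintro (h | h) <;> exact h.1
    have hdisj : Disjoint J (I.filter (fun l => (H l).card < 2)) := by
      rw [Finset.disjoint_left]
      intro l hl hl'
      have h1 := (Finset.mem_filter.1 hl).2
      have h2 := (Finset.mem_filter.1 hl').2
      omega
    rw [map_sum, map_sum, hsplit, Finset.sum_union hdisj]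
    congr 1
    -- the vectors which are not split
    have h1 : ∀ l, ev (.node j d c a b t) (cut α β (x l)) =
        (mm j : ℂ)⁻¹ * ∑ i, cc (c i) * ev (t i) (cut (max (a i) α) (min (b i) β) (x l)) := by
      intro l
      rw [ev_node]
      simp only [cut_cut]
    simp only [h1]
    rw [← Finset.mul_sum, Finset.sum_comm]
    congr 1
    refine Finset.sum_congr rfl fun i _ => ?_
    rw [map_sum, map_sum, Finset.mul_sum]
    symm
    have hsub : K i ⊆ I.filter (fun l => (H l).card < 2) := by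
      intro l hl
      have := Finset.mem_filter.1 hl
      exact Finset.mem_filter.2 ⟨this.1, this.2.1⟩
    refine Finset.sum_subset hsub fun l hl hl' => ?_
    have h2 := Finset.mem_filter.1 hl
    have h3 : i ∉ H l := by
      intro h4
      exact hl' (Finset.mem_filter.2 ⟨h2.1, h2.2, h4⟩)
    have h4 : cut (max (a i) α) (min (b i) β) (x l) = 0 := by
      apply (hx1 l).cut_zero
      have h5 : ¬ (a i ≤ B l ∧ A l ≤ b i) := fun h6 => h3 (Finset.mem_filter.2 ⟨Finset.mem_univ _, h6⟩)
      have := le_max_left (a i) α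
      have := min_le_left (b i) β
      omega
    rw [h4, map_zero, mul_zero]

end

end Pool.Agent.TH313.HI
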