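import Pool.Agent.TH313.HI.Est1

/-! The recursive estimate, rapidly increasing sequences and their averages. -/

set_option autoImplicit false

namespace Pool.Agent.TH313.HI

open Finset

noncomputable section

theorem ev_base_sum {x : ℕ → V} {A B : ℕ → ℕ} (hx : Succ x A B) {C : ℝ} (hC : 0 ≤ C)
    (hbd : ∀ l, Bd C (x l)) (k g : ℕ) (hw : (Tr.base k g).Wf) (α β : ℕ) (I : Finset ℕ) :
    ‖ev (.base k g) (cut α β (∑ l ∈ I, x l))‖ ≤ C := by
  rw [map_sum, map_sum]
  by_cases hex : ∃ l₀ ∈ I, A l₀ ≤ k ∧ k ≤ B l₀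
  · obtain ⟨l₀, hl₀, h1, h2⟩ := hex
    rw [Finset.sum_eq_single_of_mem l₀ hl₀]
    · exact hbd l₀ _ hw α β
    · intro l _ hl
      rw [ev_base]
      apply (hx.1 l).cutR
      rcases lt_or_gt_of_ne hl with h | h
      · have := hx.2.2 l l₀ h
        omega
      · have := hx.2.2 l₀ l h
        omega
  · rw [Finset.sum_eq_zero]
    · simpa using hC
    · intro l hl
      rw [ev_base]
      apply (hx.1 l).cutR
      by_contra h4
      push Not at h4
      exact hex ⟨l, hl, h4.1, h4.2⟩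

theorem inv_mm_le (j : ℕ) : ((mm j : ℝ))⁻¹ ≤ 1 / 4 := by
  rw [one_div]
  apply inv_anti₀ (by norm_num)
  exact_mod_cast four_le_mm j

theorem mm_pos' (j : ℕ) : (0 : ℝ) < mm j := by exact_mod_cast mm_pos j

theorem nn_pos' (j : ℕ) : (0 : ℝ) < nn j := by exact_mod_cast nn_pos j

/-- one step of the recursion -/
theorem step {x : ℕ → V} {A B : ℕ → ℕ} (hx : Succ x A B) {C a b : ℝ} (hC : 0 ≤ C) (ha : 0 ≤ a) (hb : 0 ≤ b)
    (hbd : ∀ l, Bd C (x l)) {q : ℕ}
    (hrec : ∀ t : Tr, t.Wf → ∀ α β I, ‖ev t (cut α β (∑ l ∈ I, x l))‖ ≤ a + b * (#I : ℝ))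
    {j d : ℕ} {c : Fin d → ℚ × ℚ} {a' b' : Fin d → ℕ} {t : Fin d → Tr}
    (hw : (Tr.node j d c a' b' t).Wf) (hj : j < q) (α β : ℕ) (I : Finset ℕ) :
    ‖ev (.node j d c a' b' t) (cut α β (∑ l ∈ I, x l))‖ ≤
      DD q * C + (mm j : ℝ)⁻¹ * (DD q * a + b * #I) := by
  obtain ⟨J, K, hJ, hJd, hK, hKI, heq⟩ := splitting hx hw I α β
  have hdD : (d : ℝ) ≤ DD q := by
    have h1 : d ≤ nn j := hw.1
    exact_mod_cast h1.trans (nn_le_DD hj)
  rw [heq]
  refine (norm_add_le _ _).trans ?_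
  refine add_le_add ?_ ?_
  · refine (norm_sum_le _ _).trans ?_
    calc ∑ l ∈ J, ‖ev (.node j d c a' b' t) (cut α β (x l))‖ ≤ ∑ l ∈ J, C :=
          Finset.sum_le_sum fun l _ => hbd l _ hw α β
      _ = #J * C := by rw [Finset.sum_const, nsmul_eq_mul]
      _ ≤ DD q * C := by
          refine mul_le_mul_of_nonneg_right ?_ hC
          have : (#J : ℝ) ≤ d := by exact_mod_cast hJd
          exact this.trans hdD
  · rw [norm_mul, norm_inv, Complex.norm_natCast]
    refine mul_le_mul_of_nonneg_left ?_ (by positivity)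
    refine (norm_sum_le _ _).trans ?_
    calc ∑ i, ‖cc (c i) * ev (t i) (cut (max (a' i) α) (min (b' i) β) (∑ l ∈ K i, x l))‖
        ≤ ∑ i, (a + b * (#(K i) : ℝ)) := by
          refine Finset.sum_le_sum fun i _ => ?_
          rw [norm_mul]
          have h1 := hrec (t i) (hw.2.1 i) (max (a' i) α) (min (b' i) β) (K i)
          calc ‖cc (c i)‖ * ‖ev (t i) (cut (max (a' i) α) (min (b' i) β) (∑ l ∈ K i, x l))‖
              ≤ 1 * (a + b * (#(K i) : ℝ)) :=
                mul_le_mul (hw.2.2.1 i) h1 (norm_nonneg _) zero_le_one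
            _ = _ := one_mul _
      _ = d * a + b * ∑ i, (#(K i) : ℝ) := by
          rw [Finset.sum_add_distrib, Finset.sum_const, card_univ, Fintype.card_fin, nsmul_eq_mul,
            Finset.mul_sum]
      _ ≤ DD q * a + b * #I := by
          refine add_le_add (mul_le_mul_of_nonneg_right hdD ha) (mul_le_mul_of_nonneg_left ?_ hb)
          exact_mod_cast hKI

/-- the recursive estimate -/
theorem recEst {x : ℕ → V} {A B : ℕ → ℕ} (hx : Succ x A B) {C A₀ B₀ : ℝ} (hC : 0 ≤ C) (hA : 0 ≤ A₀)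
    (hB : 0 ≤ B₀) (hbd : ∀ l, Bd C (x l)) {q : ℕ}
    (hP : ∀ t : Tr, t.Wf → ∀ i, t.wt = i + 1 → q ≤ i → ∀ α β I,
      ‖ev t (cut α β (∑ l ∈ I, x l))‖ ≤ A₀ + B₀ * (#I : ℝ)) (r : ℕ) :
    ∀ t : Tr, t.Wf → ∀ α β I, ‖ev t (cut α β (∑ l ∈ I, x l))‖ ≤
      (A₀ + C) * (2 * DD q + 2) ^ r + (B₀ + C / 2 ^ r) * (#I : ℝ) := by
  induction r with
  | zero =>
    intro t hw α β I
    rw [map_sum, map_sum]
    refine (norm_sum_le _ _).trans ?_
    calc ∑ l ∈ I, ‖ev t (cut α β (x l))‖ ≤ ∑ l ∈ I, C := Finset.sum_le_sum fun l _ => hbd l t hw α β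
      _ = #I * C := by rw [Finset.sum_const, nsmul_eq_mul]
      _ ≤ _ := by
        have h1 : (0 : ℝ) ≤ #I := Nat.cast_nonneg _
        rw [pow_zero, pow_zero, div_one, mul_one]
        nlinarith [mul_nonneg hB h1]
  | succ r ih =>
    intro t hw α β I
    have hD : (0 : ℝ) ≤ DD q := Nat.cast_nonneg _
    have hI : (0 : ℝ) ≤ #I := Nat.cast_nonneg _
    have hP1 : (1 : ℝ) ≤ (2 * DD q + 2) ^ r := one_le_pow₀ (by linarith)
    have hP2 : (1 : ℝ) ≤ (2 * DD q + 2) ^ (r + 1) := one_le_pow₀ (by linarith)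
    have hb' : 0 ≤ B₀ + C / 2 ^ (r + 1) := by positivity
    have hAC : 0 ≤ A₀ + C := by positivity
    cases t with
    | base k g =>
      refine (ev_base_sum hx hC hbd k g hw α β I).trans ?_
      have h1 : C ≤ (A₀ + C) * (2 * DD q + 2) ^ (r + 1) := by
        calc C ≤ (A₀ + C) * 1 := by linarith
          _ ≤ _ := mul_le_mul_of_nonneg_left hP2 hAC
      linarith [mul_nonneg hb' hI]
    | node j d c a b t =>
      rcases le_or_gt q j with hj | hj
      · refine (hP _ hw j rfl hj α β I).trans ?_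
        have h1 : A₀ ≤ (A₀ + C) * (2 * DD q + 2) ^ (r + 1) := by
          calc A₀ ≤ (A₀ + C) * 1 := by linarith
            _ ≤ _ := mul_le_mul_of_nonneg_left hP2 hAC
        have h2 : B₀ * (#I : ℝ) ≤ (B₀ + C / 2 ^ (r + 1)) * (#I : ℝ) :=
          mul_le_mul_of_nonneg_right (by have : 0 ≤ C / 2 ^ (r + 1) := by positivity
                                         linarith) hI
        linarith
      · have h0 := step hx hC (a := (A₀ + C) * (2 * DD q + 2) ^ r) (b := B₀ + C / 2 ^ r)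
          (by positivity) (by positivity) hbd (q := q) ih hw hj α β I
        refine h0.trans ?_
        have hm := inv_mm_le j
        have hm0 : (0 : ℝ) ≤ (mm j : ℝ)⁻¹ := by positivity
        set P : ℝ := (2 * DD q + 2) ^ r with hPdef
        have hz : 0 ≤ (DD q : ℝ) * ((A₀ + C) * P) + (B₀ + C / 2 ^ r) * #I := by positivity
        have h3 : (mm j : ℝ)⁻¹ * ((DD q : ℝ) * ((A₀ + C) * P) + (B₀ + C / 2 ^ r) * #I) ≤
            1 / 4 * ((DD q : ℝ) * ((A₀ + C) * P) + (B₀ + C / 2 ^ r) * #I) :=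
          mul_le_mul_of_nonneg_right hm hz
        have h4 : (DD q : ℝ) * C ≤ (DD q : ℝ) * ((A₀ + C) * P) := by
          refine mul_le_mul_of_nonneg_left ?_ hD
          calc C ≤ (A₀ + C) * 1 := by linarith
            _ ≤ _ := mul_le_mul_of_nonneg_left hP1 hAC
        have h5 : (A₀ + C) * (2 * DD q + 2) ^ (r + 1) = 2 * ((DD q : ℝ) * ((A₀ + C) * P)) + 2 * ((A₀ + C) * P) := by
          rw [pow_succ]; ring
        have h6 : (B₀ + C / 2 ^ r) * (#I : ℝ) ≤ 2 * ((B₀ + C / 2 ^ (r + 1)) * #I) := by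
          rw [pow_succ]
          have : C / (2 ^ r * 2) * 2 = C / 2 ^ r := by field_simp
          nlinarith [mul_nonneg hB hI]
        have h7 : 0 ≤ (A₀ + C) * P := by positivity
        have h8 : 0 ≤ (DD q : ℝ) * ((A₀ + C) * P) := by positivity
        have h9 : 0 ≤ (B₀ + C / 2 ^ (r + 1)) * (#I : ℝ) := by positivity
        rw [h5]
        linarith

/-- rapidly increasing sequences -/
structure RIS (C : ℝ) (u : ℕ → V) (A B J : ℕ → ℕ) : Prop where
  hC : 1 ≤ C
  succ : Succ u A B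
  bd : ∀ l, Bd C (u l)
  mono : StrictMono J
  low : ∀ l (t : Tr), t.Wf → ∀ i, t.wt = i + 1 → i < J l → ∀ α β, ‖ev t (cut α β (u l))‖ ≤ C / mm i
  high : ∀ l (t : Tr), t.Wf → ∀ i, t.wt = i + 1 → J (l + 1) ≤ i → ∀ α β, ‖ev t (cut α β (u l))‖ ≤ (1 / 2) ^ l

theorem sum_half_le (I : Finset ℕ) : ∑ l ∈ I, ((1 : ℝ) / 2) ^ l ≤ 2 := by
  have h := Summable.sum_le_tsum I (fun l _ => by positivity) summable_geometric_two
  rwa [tsum_geometric_two] at h

theorem RIS.node_est {C : ℝ} {u : ℕ → V} {A B J : ℕ → ℕ} (h : RIS C u A B J) (t : Tr) (hw : t.Wf) (i : ℕ)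
    (hi : t.wt = i + 1) (α β : ℕ) (I : Finset ℕ) :
    ‖ev t (cut α β (∑ l ∈ I, u l))‖ ≤ C + 2 + C / mm i * (#I : ℝ) := by
  classical
  have hC : 0 ≤ C := by linarith [h.hC]
  rw [map_sum, map_sum]
  refine (norm_sum_le _ _).trans ?_
  have h1 : ∀ l ∈ I, ‖ev t (cut α β (u l))‖ ≤
      (C / mm i + (1 / 2) ^ l) + (if J l ≤ i ∧ i < J (l + 1) then C else 0) := by
    intro l _
    have hp : (0 : ℝ) ≤ (1 / 2) ^ l := by positivity
    have hq : (0 : ℝ) ≤ C / mm i := by positivity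
    rcases lt_or_ge i (J l) with h2 | h2
    · rw [if_neg (by omega)]
      linarith [h.low l t hw i hi h2 α β]
    · rcases lt_or_ge i (J (l + 1)) with h3 | h3
      · rw [if_pos ⟨h2, h3⟩]
        linarith [h.bd l t hw α β]
      · rw [if_neg (by omega)]
        linarith [h.high l t hw i hi h3 α β]
  refine (Finset.sum_le_sum h1).trans ?_
  rw [Finset.sum_add_distrib, Finset.sum_add_distrib, Finset.sum_const, nsmul_eq_mul]
  have h4 : ∑ l ∈ I, (if J l ≤ i ∧ i < J (l + 1) then C else 0) ≤ C := by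
    rw [← Finset.sum_filter, Finset.sum_const, nsmul_eq_mul]
    have h5 : (I.filter fun l => J l ≤ i ∧ i < J (l + 1)).card ≤ 1 := by
      rw [Finset.card_le_one]
      intro l hl l' hl'
      have h6 := (Finset.mem_filter.1 hl).2
      have h7 := (Finset.mem_filter.1 hl').2
      by_contra hne
      rcases lt_or_gt_of_ne hne with h8 | h8
      · have := h.mono.monotone (Nat.succ_le_of_lt h8)
        rw [Nat.succ_eq_add_one] at this
        omega
      · have := h.mono.monotone (Nat.succ_le_of_lt h8)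
        rw [Nat.succ_eq_add_one] at this
        omega
    have h9 : ((I.filter fun l => J l ≤ i ∧ i < J (l + 1)).card : ℝ) ≤ 1 := by exact_mod_cast h5
    calc ((I.filter fun l => J l ≤ i ∧ i < J (l + 1)).card : ℝ) * C ≤ 1 * C :=
          mul_le_mul_of_nonneg_right h9 hC
      _ = C := one_mul C
  have h10 := sum_half_le I
  linarith [mul_comm (C / (mm i : ℝ)) (#I : ℝ)]

/-- the real form of the growth condition -/
theorem growth (q : ℕ) : (mm q : ℝ) ^ 4 * (5 * DD q + 5) * (2 * DD q + 2) ^ rr q ≤ nn q := by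
  exact_mod_cast nn_ge_DD q

theorem mm_le_nn (q : ℕ) : (mm q : ℝ) ^ 4 ≤ nn q := by exact_mod_cast mm_pow_le_nn q

theorem two_pow_rr' (q : ℕ) : (2 : ℝ) ^ rr q = (mm q : ℝ) ^ 2 := by exact_mod_cast two_pow_rr q

theorem one_le_mm (q : ℕ) : (4 : ℝ) ≤ mm q := by exact_mod_cast four_le_mm q

/-- averages of a rapidly increasing sequence: small weights -/
theorem RIS.avg_low {C : ℝ} {u : ℕ → V} {A B J : ℕ → ℕ} (h : RIS C u A B J) {q : ℕ} {I : Finset ℕ}
    (hI : #I = nn q) (t : Tr) (hw : t.Wf) (i : ℕ) (hi : t.wt = i + 1) (hiq : i < q) (α β : ℕ) :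
    ‖ev t (cut α β (((mm q : ℂ) / nn q) • ∑ l ∈ I, u l))‖ ≤ 3 * C / mm i := by
  have hC : 0 ≤ C := by linarith [h.hC]
  have hC1 := h.hC
  have hmq := mm_pos' q
  have hmi := mm_pos' i
  have hnq := nn_pos' q
  have hD : (0 : ℝ) ≤ DD q := Nat.cast_nonneg _
  cases t with
  | base k g => simp [Tr.wt] at hi
  | node j d c a b t =>
    have hji : j = i := by simpa [Tr.wt] using hi
    subst hji
    have hP : ∀ t : Tr, t.Wf → ∀ i, t.wt = i + 1 → q ≤ i → ∀ α β I,
        ‖ev t (cut α β (∑ l ∈ I, u l))‖ ≤ (C + 2) + C / mm q * (#I : ℝ) := by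
      intro t hw i hi hqi α β I
      refine (h.node_est t hw i hi α β I).trans ?_
      have h1 : C / mm i ≤ C / mm q := by
        apply div_le_div_of_nonneg_left hC hmq
        exact_mod_cast mm_mono hqi
      have h2 : (0 : ℝ) ≤ #I := Nat.cast_nonneg _
      linarith [mul_le_mul_of_nonneg_right h1 h2]
    have hr := recEst h.succ hC (by linarith : 0 ≤ C + 2) (by positivity : 0 ≤ C / mm q) h.bd hP (rr q)
    have h0 := step h.succ hC (a := (C + 2 + C) * (2 * DD q + 2) ^ rr q)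
      (b := C / mm q + C / 2 ^ rr q) (by positivity) (by positivity) h.bd (q := q) hr hw hiq α β I
    rw [map_smul, map_smul, norm_smul, norm_div, Complex.norm_natCast, Complex.norm_natCast]
    have hg := growth q
    rw [two_pow_rr', hI] at h0
    set P : ℝ := (2 * (DD q : ℝ) + 2) ^ rr q with hPdef
    have hP1 : 1 ≤ P := one_le_pow₀ (by linarith)
    have h4 := one_le_mm q
    -- the three terms
    have t1 : (mm q : ℝ) / nn q * (DD q * C) ≤ 1 / 5 * (C / mm j) := by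
      rw [div_mul_eq_mul_div, div_le_iff₀ hnq]
      have hji' : (mm j : ℝ) ≤ mm q := by exact_mod_cast mm_mono hiq.le
      have e1 : 1 / 5 * (C / mm j) * nn q ≥ 1 / 5 * (C / mm q) * nn q := by
        have : C / mm q ≤ C / mm j := div_le_div_of_nonneg_left hC hmi hji'
        nlinarith
      refine le_trans ?_ e1
      have e2 : 1 / 5 * (C / mm q) * ((mm q : ℝ) ^ 4 * (5 * DD q + 5) * P) ≤ 1 / 5 * (C / mm q) * nn q :=
        mul_le_mul_of_nonneg_left hg (by positivity)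
      refine le_trans ?_ e2
      have e3 : 1 / 5 * (C / mm q) * ((mm q : ℝ) ^ 4 * (5 * DD q + 5) * P) =
          (mm q : ℝ) * (C * ((DD q + 1) * P)) * (mm q) ^ 2 := by
        field_simp
      rw [e3]
      have e4 : (DD q : ℝ) * C ≤ C * ((DD q + 1) * P) := by
        have : (DD q : ℝ) ≤ (DD q + 1) * P := by nlinarith
        nlinarith
      have e5 : (1 : ℝ) ≤ (mm q : ℝ) ^ 2 := one_le_pow₀ (by linarith)
      calc (mm q : ℝ) * (DD q * C) ≤ mm q * (C * ((DD q + 1) * P)) := mul_le_mul_of_nonneg_left e4 hmq.le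
        _ ≤ mm q * (C * ((DD q + 1) * P)) * (mm q) ^ 2 := le_mul_of_one_le_right (by positivity) e5
    have t2 : (mm q : ℝ) / nn q * (DD q * ((C + 2 + C) * P)) ≤ 4 / 5 * C := by
      rw [div_mul_eq_mul_div, div_le_iff₀ hnq]
      have e2 : 4 / 5 * C * ((mm q : ℝ) ^ 4 * (5 * DD q + 5) * P) ≤ 4 / 5 * C * nn q :=
        mul_le_mul_of_nonneg_left hg (by positivity)
      refine le_trans ?_ e2
      have e3 : (C + 2 + C) ≤ 4 * C := by linarith
      have e4 : (DD q : ℝ) * ((C + 2 + C) * P) ≤ (DD q + 1) * (4 * C * P) := by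
        have : (C + 2 + C) * P ≤ 4 * C * P := mul_le_mul_of_nonneg_right e3 (by linarith)
        have h5 : 0 ≤ 4 * C * P := by positivity
        nlinarith
      have e5 : (1 : ℝ) ≤ (mm q : ℝ) ^ 3 := one_le_pow₀ (by linarith)
      calc (mm q : ℝ) * (DD q * ((C + 2 + C) * P)) ≤ mm q * ((DD q + 1) * (4 * C * P)) :=
            mul_le_mul_of_nonneg_left e4 hmq.le
        _ ≤ mm q * ((DD q + 1) * (4 * C * P)) * (mm q) ^ 3 := le_mul_of_one_le_right (by positivity) e5
        _ = 4 / 5 * C * ((mm q : ℝ) ^ 4 * (5 * DD q + 5) * P) := by ring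
    have t3 : (mm q : ℝ) / nn q * ((C / mm q + C / (mm q) ^ 2) * nn q) ≤ 5 / 4 * C := by
      have e1 : (mm q : ℝ) / nn q * ((C / mm q + C / (mm q) ^ 2) * nn q) = C + C / mm q := by
        field_simp
      rw [e1]
      have : C / mm q ≤ C / 4 := div_le_div_of_nonneg_left hC (by norm_num) h4
      linarith
    calc (mm q : ℝ) / nn q * ‖ev (.node j d c a b t) (cut α β (∑ l ∈ I, u l))‖
        ≤ (mm q : ℝ) / nn q * (DD q * C + (mm j : ℝ)⁻¹ * (DD q * ((C + 2 + C) * P) +
            (C / mm q + C / (mm q) ^ 2) * nn q)) := mul_le_mul_of_nonneg_left h0 (by positivity)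
      _ = (mm q : ℝ) / nn q * (DD q * C) + (mm j : ℝ)⁻¹ * ((mm q : ℝ) / nn q * (DD q * ((C + 2 + C) * P)) +
            (mm q : ℝ) / nn q * ((C / mm q + C / (mm q) ^ 2) * nn q)) := by ring
      _ ≤ 1 / 5 * (C / mm j) + (mm j : ℝ)⁻¹ * (4 / 5 * C + 5 / 4 * C) :=
          add_le_add t1 (mul_le_mul_of_nonneg_left (add_le_add t2 t3) (by positivity))
      _ = 9 / 4 * (C / mm j) := by field_simp; ring
      _ ≤ 3 * C / mm j := by
          rw [mul_div_assoc]
          have : 0 ≤ C / mm j := by positivity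
          linarith

/-- averages: large weights -/
theorem RIS.avg_high {C : ℝ} {u : ℕ → V} {A B J : ℕ → ℕ} (h : RIS C u A B J) {q : ℕ} {I : Finset ℕ}
    (hI : #I = nn q) (t : Tr) (hw : t.Wf) (i : ℕ) (hi : t.wt = i + 1) (α β : ℕ) :
    ‖ev t (cut α β (((mm q : ℂ) / nn q) • ∑ l ∈ I, u l))‖ ≤ 3 * C * (mm q / nn q) + C * (mm q / mm i) := by
  have hC : 0 ≤ C := by linarith [h.hC]
  have hC1 := h.hC
  have hmq := mm_pos' q
  have hmi := mm_pos' i
  have hnq := nn_pos' q
  rw [map_smul, map_smul, norm_smul, norm_div, Complex.norm_natCast, Complex.norm_natCast]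
  have h0 := h.node_est t hw i hi α β I
  rw [hI] at h0
  calc (mm q : ℝ) / nn q * ‖ev t (cut α β (∑ l ∈ I, u l))‖
      ≤ (mm q : ℝ) / nn q * (C + 2 + C / mm i * nn q) := mul_le_mul_of_nonneg_left h0 (by positivity)
    _ = (C + 2) * (mm q / nn q) + C * (mm q / mm i) := by field_simp
    _ ≤ _ := by
        have : (C + 2) * ((mm q : ℝ) / nn q) ≤ 3 * C * (mm q / nn q) :=
          mul_le_mul_of_nonneg_right (by linarith) (by positivity)
        linarith

theorem mm_div_nn_le (q : ℕ) : (mm q : ℝ) / nn q ≤ 1 / (mm q) ^ 3 := by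
  rw [div_le_div_iff₀ (nn_pos' q) (pow_pos (mm_pos' q) 3), one_mul]
  have := mm_le_nn q
  calc (mm q : ℝ) * (mm q : ℝ) ^ 3 = (mm q : ℝ) ^ 4 := by ring
    _ ≤ (nn q : ℝ) := this

/-- averages are bounded -/
theorem RIS.avg_bd {C : ℝ} {u : ℕ → V} {A B J : ℕ → ℕ} (h : RIS C u A B J) {q : ℕ} {I : Finset ℕ}
    (hI : #I = nn q) : Bd (4 * C) (((mm q : ℂ) / nn q) • ∑ l ∈ I, u l) := by
  have hC : 0 ≤ C := by linarith [h.hC]
  have hmn : (mm q : ℝ) / nn q ≤ 1 / 64 := by
    refine (mm_div_nn_le q).trans ?_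
    apply div_le_div_of_nonneg_left zero_le_one (by norm_num)
    have := one_le_mm q
    calc (64 : ℝ) = 4 ^ 3 := by norm_num
      _ ≤ (mm q : ℝ) ^ 3 := pow_le_pow_left₀ (by norm_num) this 3
  have hmn0 : (0 : ℝ) ≤ (mm q : ℝ) / nn q := by positivity
  intro t hw α β
  cases t with
  | base k g =>
    rw [map_smul, map_smul, norm_smul, norm_div, Complex.norm_natCast, Complex.norm_natCast]
    have h1 := ev_base_sum h.succ hC h.bd k g hw α β I
    calc (mm q : ℝ) / nn q * ‖ev (.base k g) (cut α β (∑ l ∈ I, u l))‖ ≤ 1 / 64 * C :=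
          mul_le_mul hmn h1 (norm_nonneg _) (by norm_num)
      _ ≤ 4 * C := by linarith
  | node j d c a b t =>
    rcases lt_or_ge j q with hj | hj
    · refine (h.avg_low hI _ hw j rfl hj α β).trans ?_
      rw [div_le_iff₀ (mm_pos' j)]
      have := one_le_mm j
      nlinarith
    · refine (h.avg_high hI _ hw j rfl α β).trans ?_
      have h2 : (mm q : ℝ) / mm j ≤ 1 := by
        rw [div_le_one (mm_pos' j)]
        exact_mod_cast mm_mono hj
      nlinarith

end

end Pool.Agent.TH313.HI
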