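import Mathlib

/-! Sectorial operators, `R`-boundedness and property (H). -/

set_option autoImplicit false

open Set Filter Topology

namespace Pool.Agent.TH313.HI

noncomputable section

/-- The open sector `Σ_ω = {z ≠ 0 : |arg z| < ω}`. -/
def sector (ω : ℝ) : Set ℂ := {z | z ≠ 0 ∧ |Complex.arg z| < ω}

section defs

variable {X : Type*} [NormedAddCommGroup X] [NormedSpace ℂ X]

/-- `R` is the resolvent `R(z, A) = (z - A)⁻¹` of the (possibly unbounded) operator `A`. -/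
def IsResolvent (A : X →ₗ.[ℂ] X) (z : ℂ) (R : X →L[ℂ] X) : Prop :=
  (∀ x : X, ∃ h : R x ∈ A.domain, z • R x - A ⟨R x, h⟩ = x) ∧
    ∀ x : A.domain, R (z • (x : X) - A x) = x

/-- The spectrum of `A` is contained in the closure of `Σ_ω`, and `z R(z, A)` is uniformly bounded outside the
closure of `Σ_{ω'}`, for every `ω' ∈ (ω, π)`. -/
structure IsSectorialOfAngle (A : X →ₗ.[ℂ] X) (ω : ℝ) : Prop where
  resolvent : ∀ z, z ∉ closure (sector ω) → ∃ R, IsResolvent A z R
  bound : ∀ ω' : ℝ, ω < ω' → ω' < Real.pi → ∃ C : ℝ, ∀ (z : ℂ) (R : X →L[ℂ] X),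
    z ∉ closure (sector ω') → IsResolvent A z R → ‖z • R‖ ≤ C

/-- The norm of the Rademacher sum `∑ r_k x_k` in `L_2([0,1]; X)`: the quadratic mean of `‖∑ ± x_k‖` over all
choices of signs. -/
def radNorm {ι : Type} [Fintype ι] [DecidableEq ι] (x : ι → X) : ℝ :=
  Real.sqrt (((2 : ℝ) ^ Fintype.card ι)⁻¹ * ∑ ε : ι → Bool, ‖∑ k, (if ε k then x k else -x k)‖ ^ 2)

/-- `R`-boundedness of a set of operators. -/
def IsRBounded (S : Set (X →L[ℂ] X)) : Prop :=
  ∃ C : ℝ, ∀ (ι : Type) [Fintype ι] [DecidableEq ι] (T : ι → X →L[ℂ] X) (x : ι → X), (∀ k, T k ∈ S) →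
    radNorm (fun k => T k (x k)) ≤ C * radNorm x

/-- `A` is `R`-sectorial: for some `σ ∈ (0, π)` the resolvent exists outside the closure of `Σ_σ` and
`{z R(z, A) : z ∉ closure Σ_σ}` is `R`-bounded. -/
def IsRSectorial (A : X →ₗ.[ℂ] X) : Prop :=
  ∃ σ : ℝ, 0 < σ ∧ σ < Real.pi ∧ (∀ z, z ∉ closure (sector σ) → ∃ R, IsResolvent A z R) ∧
    IsRBounded {B : X →L[ℂ] X | ∃ z R, z ∉ closure (sector σ) ∧ IsResolvent A z R ∧ B = z • R}

variable (X)

/-- Property (H): every negative generator `A` of a bounded analytic semigroup (a closed densely defined sectorial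
operator of angle less than `π / 2`) is `R`-sectorial. -/
def PropertyH : Prop :=
  ∀ A : X →ₗ.[ℂ] X, A.IsClosed → Dense (A.domain : Set X) →
    (∃ ω : ℝ, 0 < ω ∧ ω < Real.pi / 2 ∧ IsSectorialOfAngle A ω) → IsRSectorial A

end defs

end

end Pool.Agent.TH313.HI
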