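import Pool.Agent.TH313.HI.Op3
import Pool.Agent.TH313.HI.Sect
import Pool.Agent.TH73.HI_HA1
import Pool.Agent.TH541.HI_A2
import Pool.Agent.TH73.HI_HB
import Pool.Agent.TH73.HI_HC
import Pool.Agent.TH73.HI_HD
import Pool.Agent.TH332.HI_F1
import Pool.Agent.TH247.HI_F2

/-! The space `Z` has few operators; assembly. -/

set_option autoImplicit false

namespace Pool.Agent.TH313.HI

open Finset Filter Topology
open scoped BoundedContinuousFunction

noncomputable section

/-- operators with nonzero scalar are proper on bounded sets -/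
theorem proper (T : ZT →L[ℂ] WT) (hlam : lamW T ≠ 0) (x : ℕ → ZT) (M : ℝ) (hx : ∀ n, ‖x n‖ ≤ M)
    (h0 : Tendsto (fun n => T (x n)) atTop (𝓝 0)) :
    ∃ φ : ℕ → ℕ, StrictMono φ ∧ ∃ y, Tendsto (fun n => x (φ n)) atTop (𝓝 y) := by
  by_contra hno
  obtain ⟨u, A, B, hs, hn, hu⟩ := TH73.HA1.exists_blocks T x M hx h0 hno
  obtain ⟨w, A', B', J, hw, hw1, hTw⟩ := TH541.HA2.exists_ris T u A B hs hn hu
  have h1 := hTw.sub (lam_spec T hw)
  rw [sub_zero] at h1
  have h2 : Tendsto (fun l => ‖lamW T • inc (w l)‖) atTop (𝓝 0) := by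
    rw [← tendsto_zero_iff_norm_tendsto_zero]
    refine h1.congr fun l => ?_
    rw [sub_sub_cancel]
  have h3 : ‖lamW T‖ * (1 / 2) ≤ 0 := ge_of_tendsto' h2 fun l => by
    rw [norm_smul, norm_inc]
    exact mul_le_mul_of_nonneg_left (hw1 l) (norm_nonneg _)
  have h4 := norm_pos_iff.2 hlam
  linarith

theorem one_le_norm_eS (l : ℕ) : 1 ≤ ‖eS l‖ := one_le_norm_gz (by positivity)

/-- uniqueness of the scalar -/
theorem lamW_eq {T : ZT →L[ℂ] WT} {c : ℂ} (h : Tendsto (fun l => T (eS l) - c • inc (eS l)) atTop (𝓝 0)) :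
    lamW T = c := by
  have h1 := (lam_spec T eS_ris).sub h
  rw [sub_zero] at h1
  have h2 : Tendsto (fun l => ‖(c - lamW T) • inc (eS l)‖) atTop (𝓝 0) := by
    rw [← tendsto_zero_iff_norm_tendsto_zero]
    refine h1.congr fun l => ?_
    rw [sub_smul]
    abel
  have h3 : ‖c - lamW T‖ * 1 ≤ 0 := ge_of_tendsto' h2 fun l => by
    rw [norm_smul, norm_inc]
    exact mul_le_mul_of_nonneg_left (one_le_norm_eS l) (norm_nonneg _)
  rw [mul_one, norm_le_zero_iff, sub_eq_zero] at h3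
  exact h3.symm

/-- the scalar of an operator on `Z` -/
def lamZ : (ZT →L[ℂ] ZT) →ₐ[ℂ] ℂ :=
  AlgHom.ofLinearMap
    { toFun := fun T => lamW (inc.comp T)
      map_add' := fun T S => lamW_eq (by
        have h := (lam_spec (inc.comp T) eS_ris).add (lam_spec (inc.comp S) eS_ris)
        rw [add_zero] at h
        refine h.congr fun l => ?_
        rw [add_smul]
        show inc (T (eS l)) - _ + (inc (S (eS l)) - _) = inc (T (eS l) + S (eS l)) - _
        rw [map_add]
        abel)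
      map_smul' := fun c T => lamW_eq (by
        have h := (lam_spec (inc.comp T) eS_ris).const_smul c
        rw [smul_zero] at h
        refine h.congr fun l => ?_
        rw [RingHom.id_apply, smul_eq_mul, mul_smul, smul_sub]
        show _ = inc (c • T (eS l)) - _
        rw [map_smul]
        rfl) }
    (lamW_eq (by
      refine tendsto_const_nhds.congr fun l => ?_
      rw [one_smul]
      exact (sub_self (inc (eS l))).symm))
    (fun T S => lamW_eq (by
      have h1 := lam_spec (inc.comp T) eS_ris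
      have h2 := lam_spec (inc.comp S) eS_ris
      have h3 : Tendsto (fun l => S (eS l) - lamW (inc.comp S) • eS l) atTop (𝓝 0) := by
        rw [tendsto_zero_iff_norm_tendsto_zero] at h2 ⊢
        refine h2.congr fun l => ?_
        rw [← norm_inc (S (eS l) - lamW (inc.comp S) • eS l), map_sub, map_smul]
        rfl
      have h4 : Tendsto (fun l => inc (T (S (eS l) - lamW (inc.comp S) • eS l))) atTop (𝓝 0) := by
        have h5 := ((inc.comp T).continuous.tendsto 0).comp h3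
        rw [map_zero] at h5
        exact h5
      have h5 := h4.add (h1.const_smul (lamW (inc.comp S)))
      rw [smul_zero, add_zero] at h5
      refine h5.congr fun l => ?_
      show inc (T (S (eS l) - lamW (inc.comp S) • eS l)) + lamW (inc.comp S) • (inc (T (eS l)) - _) =
        inc (T (S (eS l))) - (lamW (inc.comp T) * lamW (inc.comp S)) • _
      rw [map_sub, map_sub, map_smul, map_smul, smul_sub, smul_smul, mul_comm (lamW (inc.comp T))]
      abel))

theorem lamZ_apply (T : ZT →L[ℂ] ZT) : lamZ T = lamW (inc.comp T) := rfl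

/-- the scalar is reached uniformly on the generators -/
theorem uniform_gz (T : ZT →L[ℂ] WT) {ε : ℝ} (hε : 0 < ε) :
    ∃ K, ∀ k ≥ K, ∀ j < 2 ^ k, ‖T (gz k j) - lamW T • inc (gz k j)‖ ≤ ε := by
  by_contra hcon
  push Not at hcon
  choose kf hkf jf hjf hfar using hcon
  let k : ℕ → ℕ := fun l => Nat.rec 0 (fun _ n => kf n + 2) l
  have hk : ∀ l, k (l + 1) = kf (k l) + 2 := fun _ => rfl
  have hris := gz_ris (k := fun l => kf (k l)) (i := fun l => jf (k l)) (fun l => by
    have := hkf (k (l + 1))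
    rw [hk] at this ⊢
    exact this) (fun l => hjf _)
  have h1 := tendsto_zero_iff_norm_tendsto_zero.1 (lam_spec T hris)
  have h2 := ge_of_tendsto' h1 fun l => (hfar (k l)).le
  linarith

theorem aV_tendsto {F : Filter ℕ} (k j : ℕ) {x : ℕ → V} {y : V}
    (h : ∀ g, Tendsto (fun n => x n k g) F (𝓝 (y k g))) : Tendsto (fun n => aV k j (x n)) F (𝓝 (aV k j y)) := by
  unfold aV
  exact (tendsto_finsetSum _ fun g _ => (h g).const_mul _).const_mul _

theorem be_tendsto_op {F : Filter ℕ} (k : ℕ) {T : ℕ → ZT →L[ℂ] WT} {S : ZT →L[ℂ] WT}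
    (h : ∀ x k g, Tendsto (fun n => cw (T n x) k g) F (𝓝 (cw (S x) k g))) :
    Tendsto (fun n => be k (T n)) F (𝓝 (be k S)) := by
  unfold be
  exact (tendsto_finsetSum _ fun j _ => aV_tendsto k j fun g => h _ _ _).const_mul _

/-- the uniform estimate of the traces -/
theorem trace_est : ∃ c : ℕ → ℝ, Tendsto c atTop (𝓝 0) ∧ ∀ (T : ZT →L[ℂ] ZT) (k : ℕ),
    ‖be k (inc.comp T) - lamZ T‖ ≤ ‖T‖ * c k := by
  obtain ⟨c, hc, h⟩ := TH73.HB.trace_bound
  refine ⟨c, hc, fun T k => h T (lamZ T) (fun ε hε => ?_) k⟩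
  obtain ⟨K, hK⟩ := uniform_gz (inc.comp T) hε
  refine ⟨K, fun k hk j hj => ?_⟩
  have h1 := hK k hk j hj
  rw [← norm_inc, map_sub, map_smul]
  exact h1

theorem hone (T : ℕ → ZT →L[ℂ] ZT) (hM : ∃ M : ℝ, ∀ n, ‖T n‖ ≤ M) (hT : ∀ x, Tendsto (fun n => T n x) atTop (𝓝 x)) :
    Tendsto (fun n => lamZ (T n)) atTop (𝓝 1) := by
  obtain ⟨M, hM⟩ := hM
  obtain ⟨c, hc, h⟩ := trace_est
  have hM0 : 0 ≤ M := (norm_nonneg _).trans (hM 0)
  rw [Metric.tendsto_atTop]
  intro ε hε
  have h1 : Tendsto (fun k => (M + ‖(1 : ZT →L[ℂ] ZT)‖) * |c k|) atTop (𝓝 0) := by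
    have := hc.abs.const_mul (M + ‖(1 : ZT →L[ℂ] ZT)‖)
    rwa [abs_zero, mul_zero] at this
  obtain ⟨k, hk⟩ := ((Metric.tendsto_nhds.1 h1) (ε / 2) (by positivity)).exists
  rw [dist_zero_right, Real.norm_of_nonneg (by positivity)] at hk
  have h2 : Tendsto (fun n => be k (inc.comp (T n))) atTop (𝓝 (be k (inc.comp (1 : ZT →L[ℂ] ZT)))) :=
    be_tendsto_op k fun x k g => ((coordL k g).comp inc).continuous.continuousAt.tendsto.comp (hT x)
  obtain ⟨N, hN⟩ := (Metric.tendsto_atTop.1 h2) (ε / 2) (by positivity)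
  refine ⟨N, fun n hn => ?_⟩
  have e1 := hN n hn
  have e2 := h (T n) k
  have e3 := h 1 k
  rw [dist_eq_norm] at e1 ⊢
  rw [map_one] at e3
  have e4 : ‖T n‖ * c k ≤ M * |c k| :=
    (mul_le_mul_of_nonneg_left (le_abs_self _) (norm_nonneg _)).trans
      (mul_le_mul_of_nonneg_right (hM n) (abs_nonneg _))
  have e5 : ‖(1 : ZT →L[ℂ] ZT)‖ * c k ≤ ‖(1 : ZT →L[ℂ] ZT)‖ * |c k| :=
    mul_le_mul_of_nonneg_left (le_abs_self _) (norm_nonneg _)
  have e6 : lamZ (T n) - 1 = -(be k (inc.comp (T n)) - lamZ (T n)) +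
      (be k (inc.comp (T n)) - be k (inc.comp (1 : ZT →L[ℂ] ZT))) + (be k (inc.comp (1 : ZT →L[ℂ] ZT)) - 1) := by
    ring
  rw [e6]
  refine (norm_add_le _ _).trans_lt ?_
  have e7 := norm_add_le (-(be k (inc.comp (T n)) - lamZ (T n)))
      (be k (inc.comp (T n)) - be k (inc.comp (1 : ZT →L[ℂ] ZT)))
  rw [norm_neg] at e7
  linarith

theorem hfin (T : ℕ → ZT →L[ℂ] ZT) (hM : ∃ M : ℝ, ∀ n, ‖T n‖ ≤ M) (hT : ∀ n, lamZ (T n) = 1)
    (Y : Submodule ℂ ZT) (hY : IsClosed (Y : Set ZT)) (hTY : ∀ y ∈ Y, Tendsto (fun n => T n y) atTop (𝓝 0)) :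
    FiniteDimensional ℂ Y := by
  obtain ⟨M, hM⟩ := hM
  obtain ⟨c, hc, h⟩ := trace_est
  have hM0 : 0 ≤ M := (norm_nonneg _).trans (hM 0)
  obtain ⟨S, hS⟩ := TH73.HD.exists_limit (fun n => inc.comp (T n)) M (fun n => by
    refine ContinuousLinearMap.opNorm_le_bound _ hM0 fun x => ?_
    show ‖inc (T n x)‖ ≤ _
    rw [norm_inc]
    exact (T n).le_of_opNorm_le (hM n) x)
  -- the scalar of the limit is one
  have h1 : ∀ k, ‖be k S - 1‖ ≤ M * |c k| := by
    intro k
    have h2 := ((be_tendsto_op k hS).sub_const 1).norm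
    refine le_of_tendsto' h2 fun n => ?_
    have h3 := h (T n) k
    rw [hT] at h3
    refine h3.trans ?_
    exact (mul_le_mul_of_nonneg_left (le_abs_self _) (norm_nonneg _)).trans
      (mul_le_mul_of_nonneg_right (hM n) (abs_nonneg _))
  have h2 : Tendsto (fun k => be k S) atTop (𝓝 1) := by
    rw [tendsto_iff_norm_sub_tendsto_zero]
    refine squeeze_zero (fun _ => norm_nonneg _) h1 ?_
    have := hc.abs.const_mul M
    rwa [abs_zero, mul_zero] at this
  have h3 : Tendsto (fun k => be k S) atTop (𝓝 (lamW S)) :=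
    TH73.HB.be_tendsto S (lamW S) fun ε hε => uniform_gz S hε
  have h4 : lamW S = 1 := tendsto_nhds_unique h3 h2
  have h5 : ∀ y ∈ Y, S y = 0 := by
    intro y hy
    apply cw_injective
    funext k g
    rw [map_zero]
    have h6 : Tendsto (fun n => cw (inc (T n y)) k g) (hyperfilter ℕ : Filter ℕ) (𝓝 0) := by
      have h7 : Tendsto (fun n => ((coordL k g).comp inc) (T n y)) atTop (𝓝 (((coordL k g).comp inc) 0)) :=
        ((coordL k g).comp inc).continuous.continuousAt.tendsto.comp (hTY y hy)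
      rw [map_zero] at h7
      have h8 : (hyperfilter ℕ : Filter ℕ) ≤ atTop := by
        rw [← Nat.cofinite_eq_atTop]
        exact hyperfilter_le_cofinite
      exact h7.mono_left h8
    exact tendsto_nhds_unique (hS y k g) h6
  -- the unit ball of `Y` is compact
  have hcpt : IsCompact (Metric.closedBall (0 : Y) 1) := by
    rw [isCompact_iff_isSeqCompact]
    intro x hx
    obtain ⟨φ, hφ, y, hy⟩ := proper S (by rw [h4]; exact one_ne_zero) (fun n => (x n : ZT)) 1
      (fun n => by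
        have := hx n
        rw [mem_closedBall_zero_iff] at this
        exact this)
      (by
        refine tendsto_const_nhds.congr fun n => ?_
        exact (h5 _ (x n).2).symm)
    have hyY : y ∈ Y := hY.mem_of_tendsto hy (Eventually.of_forall fun n => (x (φ n)).2)
    refine ⟨⟨y, hyY⟩, ?_, φ, hφ, ?_⟩
    · rw [mem_closedBall_zero_iff]
      have h6 : ‖y‖ ≤ 1 := le_of_tendsto' hy.norm fun n => by
        have := hx (φ n)
        rw [mem_closedBall_zero_iff] at this
        exact this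
      exact h6
    · rw [tendsto_subtype_rng]
      exact hy
  exact FiniteDimensional.of_isCompact_closedBall ℂ one_pos hcpt

theorem hprop (T : ZT →L[ℂ] ZT) (hT : lamZ T ≠ 0) (x : ℕ → ZT) (hM : ∃ M : ℝ, ∀ n, ‖x n‖ ≤ M)
    (h0 : Tendsto (fun n => T (x n)) atTop (𝓝 0)) :
    ∃ φ : ℕ → ℕ, StrictMono φ ∧ ∃ y, Tendsto (fun n => x (φ n)) atTop (𝓝 y) := by
  obtain ⟨M, hM⟩ := hM
  refine proper (inc.comp T) hT x M hM ?_
  have := (inc.continuous.tendsto 0).comp h0
  rw [map_zero] at this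
  exact this

/-- `Z` is not finite-dimensional -/
theorem not_finite : ¬ FiniteDimensional ℂ ZT := by
  intro hfin
  have : ProperSpace ZT := FiniteDimensional.proper ℂ ZT
  obtain ⟨y, -, φ, hφ, hy⟩ := (isCompact_closedBall (0 : ZT) 2).tendsto_subseq (x := eS) (fun l => by
    rw [mem_closedBall_zero_iff]; exact norm_eS_le l)
  have h1 := hy.cauchySeq
  obtain ⟨N, hN⟩ := (Metric.cauchySeq_iff.1 h1) 1 one_pos
  have h2 := hN (N + 1) (by omega) N le_rfl
  rw [dist_eq_norm] at h2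
  simp only [Function.comp_apply] at h2
  have h3 := norm_cw_le (inc (eS (φ (N + 1)) - eS (φ N))) (2 * φ (N + 1) + 1) (gS (φ (N + 1)))
  have h4 : cw (inc (eS (φ (N + 1)) - eS (φ N))) (2 * φ (N + 1) + 1) (gS (φ (N + 1))) =
      cz (eS (φ (N + 1))) (2 * φ (N + 1) + 1) (gS (φ (N + 1))) := by
    rw [cw_inc, map_sub]
    show cz (eS (φ (N + 1))) (2 * φ (N + 1) + 1) (gS (φ (N + 1))) -
      cz (eS (φ N)) (2 * φ (N + 1) + 1) (gS (φ (N + 1))) = _
    have h5 : cz (eS (φ N)) (2 * φ (N + 1) + 1) (gS (φ (N + 1))) = 0 := by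
      apply eS_ris.succ.1 (φ N)
      right
      show 2 * φ N + 1 < 2 * φ (N + 1) + 1
      have h6 : φ N < φ (N + 1) := hφ (Nat.lt_succ_self N)
      omega
    rw [h5, sub_zero]
  rw [h4, norm_gS, norm_inc] at h3
  linarith

theorem gens_countable : gens.Countable := by
  have h : gens ⊆ Set.range fun p : ℕ × ℕ => gen p.1 p.2 := by
    rintro z ⟨l, i, -, rfl⟩
    exact ⟨(l, i), rfl⟩
  exact (Set.countable_range _).mono h

/-- `Z` is separable -/
theorem separable : TopologicalSpace.SeparableSpace ZT := by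
  have h1 : TopologicalSpace.IsSeparable (Z : Set WT) := by
    have h2 : TopologicalSpace.IsSeparable (Zf : Set WT) := (gens_countable.isSeparable).span (R := ℂ)
    show TopologicalSpace.IsSeparable (Zf.topologicalClosure : Set WT)
    rw [Submodule.topologicalClosure_coe]
    exact h2.closure
  exact h1.separableSpace

/-- sectorial operators on `Z` -/
theorem sectorial (A : ZT →ₗ.[ℂ] ZT) (hcl : A.IsClosed) (hd : Dense (A.domain : Set ZT)) (ω : ℝ) (h0 : 0 < ω)
    (h1 : ω < Real.pi) (hs : IsSectorialOfAngle A ω) : A.domain = ⊤ ∧ IsRSectorial A := by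
  obtain ⟨hdom, B, Y, hY, hcompl, hBY, hsurj, hA⟩ :=
    TH247.HF2.split_of_few lamZ hprop hone hfin A hcl hd ω h0 h1 hs
  exact ⟨hdom, TH332.HF.rsectorial_of_split B Y hY hcompl hBY hsurj A hdom hA ω h0 h1 hs⟩

theorem propertyH : PropertyH ZT := by
  rintro A hcl hd ⟨ω, h0, h1, hs⟩
  exact (sectorial A hcl hd ω h0 (by linarith [Real.pi_pos]) hs).2

theorem main : ∃ (X : Type) (_ : NormedAddCommGroup X) (_ : NormedSpace ℂ X), CompleteSpace X ∧
    TopologicalSpace.SeparableSpace X ∧ PropertyH X ∧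
    (∀ A : X →ₗ.[ℂ] X, A.IsClosed → Dense (A.domain : Set X) →
      (∃ ω : ℝ, 0 < ω ∧ ω < Real.pi ∧ IsSectorialOfAngle A ω) → A.domain = ⊤ ∧ IsRSectorial A) ∧
    ∀ (H : Type) [NormedAddCommGroup H] [InnerProductSpace ℂ H] [CompleteSpace H], IsEmpty (X ≃L[ℂ] H) :=
  ⟨ZT, inferInstance, inferInstance, inferInstance, separable, propertyH,
    fun A hcl hd ⟨ω, h0, h1, hs⟩ => sectorial A hcl hd ω h0 h1 hs,
    fun _ _ _ _ => TH73.HC.not_hilbert lamZ hprop not_finite⟩

end

end Pool.Agent.TH313.HI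

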