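import Pool.Agent.TH313.HI.Ris

/-! The contradiction with special functionals. -/

set_option autoImplicit false

namespace Pool.Agent.TH313.HI

open Finset Filter Topology
open scoped BoundedContinuousFunction

noncomputable section

/-- functionals which live on a window -/
def Loc (w w' : ℕ) (φ : V → ℂ) : Prop :=
  ∃ (c : ℚ × ℚ) (t : Tr) (a b : ℕ), ‖cc c‖ ≤ 1 ∧ t.Wf ∧ w ≤ a ∧ a ≤ b ∧ b ≤ w' ∧
    ∀ x, φ x = cc c * ev t (cut a b x)

/-- the data of the localized functionals -/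
structure LocData (T : ZT →L[ℂ] WT) (z : ℕ → ZT) (w : ℕ → ℕ) (φ : ℕ → V → ℂ) (Δ : ℂ) : Prop where
  wm : StrictMono w
  lev : ∀ i, OnLv (w i) (w (i + 1) - 1) (cz (z i))
  loc : ∀ i, Loc (w i) (w (i + 1) - 1) (φ i)
  off : ∀ i i', i ≠ i' → ‖φ i (cw (T (z i')))‖ ≤ (1 / 2) ^ i * (1 / 2) ^ i'
  diag0 : Tendsto (fun i => φ (2 * i) (cz (z (2 * i))) + φ (2 * i + 1) (cz (z (2 * i + 1)))) atTop (𝓝 0)
  diag1 : Tendsto (fun i => φ (2 * i) (cw (T (z (2 * i)))) + φ (2 * i + 1) (cw (T (z (2 * i + 1))))) atTop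
    (𝓝 (2 * Δ))
  ne : Δ ≠ 0

theorem pairSum (g : ℕ → ℂ) (Δ : ℂ) (η : ℝ) (a : ℕ) (h : ∀ j, a ≤ j → ‖g (2 * j) + g (2 * j + 1) - 2 * Δ‖ ≤ η)
    (m : ℕ) : ‖∑ i ∈ Ico (2 * a) (2 * a + 2 * m), g i - (2 * m : ℕ) * Δ‖ ≤ m * η := by
  induction m with
  | zero => simp
  | succ m ih =>
    have h1 : 2 * a + 2 * (m + 1) = 2 * a + 2 * m + 1 + 1 := by ring
    rw [h1, Finset.sum_Ico_succ_top (by omega), Finset.sum_Ico_succ_top (by omega)]
    have h2 := h (a + m) (by omega)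
    have h3 : 2 * (a + m) = 2 * a + 2 * m := by ring
    rw [h3] at h2
    have h4 : ∑ i ∈ Ico (2 * a) (2 * a + 2 * m), g i + g (2 * a + 2 * m) + g (2 * a + 2 * m + 1) -
        (2 * (m + 1) : ℕ) * Δ = (∑ i ∈ Ico (2 * a) (2 * a + 2 * m), g i - (2 * m : ℕ) * Δ) +
        (g (2 * a + 2 * m) + g (2 * a + 2 * m + 1) - 2 * Δ) := by
      push_cast
      ring
    rw [h4]
    refine (norm_add_le _ _).trans ((add_le_add ih h2).trans (le_of_eq ?_))
    push_cast
    ring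

theorem sum_half_range (M : ℕ) : ∑ l ∈ range M, ((1 : ℝ) / 2) ^ l ≤ 2 := sum_half_le _

namespace Contra

variable (w : ℕ → ℕ) (c : ℕ → ℚ × ℚ) (t : ℕ → Tr) (a b : ℕ → ℕ)

/-- the `k`-th functional with its window -/
def mk (q i : ℕ) : Tr × ℕ × ℕ :=
  (Tr.node q (nn q) (fun s : Fin (nn q) => c (i + s)) (fun s => a (i + s)) (fun s => b (i + s)) (fun s => t (i + s)),
    w i, w (i + nn q) - 1)

/-- the next weight -/
def qq (q₀ : ℕ) (L : List (Tr × ℕ × ℕ)) : ℕ := if L = [] then q₀ else sig L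

/-- the states of the recursion -/
def St (q₀ i₀ : ℕ) : ℕ → List (Tr × ℕ × ℕ) × ℕ
  | 0 => ([], i₀)
  | k + 1 => ((St q₀ i₀ k).1 ++ [mk w c t a b (qq q₀ (St q₀ i₀ k).1) (St q₀ i₀ k).2],
      (St q₀ i₀ k).2 + nn (qq q₀ (St q₀ i₀ k).1))

/-- the weights -/
def qk (q₀ i₀ k : ℕ) : ℕ := qq q₀ (St w c t a b q₀ i₀ k).1

/-- the first indices -/
def ik (q₀ i₀ k : ℕ) : ℕ := (St w c t a b q₀ i₀ k).2

/-- the functionals -/
def Gk (q₀ i₀ k : ℕ) : Tr × ℕ × ℕ := mk w c t a b (qk w c t a b q₀ i₀ k) (ik w c t a b q₀ i₀ k)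

theorem St_eq (q₀ i₀ k : ℕ) : (St w c t a b q₀ i₀ k).1 = List.ofFn (fun i : Fin k => Gk w c t a b q₀ i₀ i) := by
  induction k with
  | zero => simp [St]
  | succ k ih =>
    rw [List.ofFn_succ', List.concat_eq_append]
    rw [St]
    simp only [Fin.val_castSucc, Fin.val_last]
    rw [← ih]
    rfl

theorem qk_succ (q₀ i₀ k : ℕ) : qk w c t a b q₀ i₀ (k + 1) =
    sig (List.ofFn fun i : Fin (k + 1) => Gk w c t a b q₀ i₀ i) := by
  unfold qk qq
  rw [St_eq, if_neg]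
  intro h
  have := congrArg List.length h
  simp at this

theorem qk_zero (q₀ i₀ : ℕ) : qk w c t a b q₀ i₀ 0 = q₀ := by
  unfold qk qq
  rw [St_eq, if_pos]
  simp

theorem ik_zero (q₀ i₀ : ℕ) : ik w c t a b q₀ i₀ 0 = i₀ := rfl

theorem ik_succ (q₀ i₀ k : ℕ) : ik w c t a b q₀ i₀ (k + 1) = ik w c t a b q₀ i₀ k + nn (qk w c t a b q₀ i₀ k) := rfl

theorem qk_even (q₀ i₀ k : ℕ) (h : q₀ % 4 = 2) : qk w c t a b q₀ i₀ k % 2 = 0 := by
  cases k with
  | zero => rw [qk_zero]; omega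
  | succ k => rw [qk_succ]; have := sig_mod (List.ofFn fun i : Fin (k + 1) => Gk w c t a b q₀ i₀ i); omega

theorem ik_strictMono (q₀ i₀ : ℕ) : StrictMono (ik w c t a b q₀ i₀) :=
  strictMono_nat_of_lt_succ fun k => by rw [ik_succ]; have := nn_pos (qk w c t a b q₀ i₀ k); omega

theorem ik_even (q₀ i₀ k : ℕ) (h : 2 ∣ i₀) : 2 ∣ ik w c t a b q₀ i₀ k := by
  induction k with
  | zero => exact h
  | succ k ih => rw [ik_succ]; exact dvd_add ih (two_dvd_nn _)

variable {w c t a b}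

theorem mk_wf (hw : StrictMono w) (hc : ∀ i, ‖cc (c i)‖ ≤ 1) (ht : ∀ i, (t i).Wf) (ha : ∀ i, w i ≤ a i)
    (hab : ∀ i, a i ≤ b i) (hb : ∀ i, b i ≤ w (i + 1) - 1) {q : ℕ} (hq : q % 2 = 0) (i : ℕ) :
    (mk w c t a b q i).1.Wf := by
  refine ⟨le_rfl, fun s => ht _, fun s => hc _, fun s => hab _, fun s s' hs => ?_, fun h => by omega⟩
  have h1 : i + (s : ℕ) + 1 ≤ i + s' := by have : (s : ℕ) < s' := hs; omega
  have h2 := hw.monotone h1
  have h3 := hb (i + s)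
  have h4 := ha (i + s')
  have h5 := hw (Nat.lt_succ_self (i + s))
  simp only [Nat.succ_eq_add_one] at h5
  show b (i + s) < a (i + s')
  omega

/-- evaluation of the functionals -/
theorem ev_mk (hw : StrictMono w) (ha : ∀ i, w i ≤ a i)
    (hb : ∀ i, b i ≤ w (i + 1) - 1) (q i : ℕ) (x : V) :
    ev (mk w c t a b q i).1 (cut (mk w c t a b q i).2.1 (mk w c t a b q i).2.2 x) =
      (mm q : ℂ)⁻¹ * ∑ s ∈ Ico i (i + nn q), cc (c s) * ev (t s) (cut (a s) (b s) x) := by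
  unfold mk
  rw [ev_node, Finset.sum_Ico_eq_sum_range, Nat.add_sub_cancel_left,
    ← Fin.sum_univ_eq_sum_range (fun s => cc (c (i + s)) * ev (t (i + s)) (cut (a (i + s)) (b (i + s)) x))]
  congr 1
  refine Finset.sum_congr rfl fun s _ => ?_
  rw [cut_cut]
  have h1 : w i ≤ a (i + s) := (hw.monotone (Nat.le_add_right i s)).trans (ha _)
  have h2 : b (i + s) ≤ w (i + nn q) - 1 := by
    have h3 := hb (i + s)
    have h4 : w (i + s + 1) ≤ w (i + nn q) := hw.monotone (by have := s.2; omega)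
    omega
  simp only
  rw [max_eq_left h1, min_eq_left h2]

end Contra

theorem Loc.map_sum {w w' : ℕ} {φ : V → ℂ} (h : Loc w w' φ) {ι : Type} (I : Finset ι) (f : ι → V) :
    φ (∑ i ∈ I, f i) = ∑ i ∈ I, φ (f i) := by
  obtain ⟨c, t, a, b, -, -, -, -, -, h⟩ := h
  simp only [h, _root_.map_sum, Finset.mul_sum]

theorem Loc.map_smul {w w' : ℕ} {φ : V → ℂ} (h : Loc w w' φ) (c : ℂ) (x : V) : φ (c • x) = c * φ x := by
  obtain ⟨c', t, a, b, -, -, -, -, -, h⟩ := h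
  simp only [h, _root_.map_smul, smul_eq_mul]
  ring

open Contra in
theorem contra (T : ZT →L[ℂ] WT) {C : ℝ} {z : ℕ → ZT} {A B J : ℕ → ℕ}
    (h : RIS C (fun l => cz (z l)) A B J) {w : ℕ → ℕ} {φ : ℕ → V → ℂ} {Δ : ℂ} (hL : LocData T z w φ Δ) :
    False := by
  classical
  have hC1 := h.hC
  have hC : 0 ≤ C := by linarith
  have hΔ : 0 < ‖Δ‖ := norm_pos_iff.2 hL.ne
  have hw := hL.wm
  have hloc := hL.loc
  choose c t a b hc ht ha hab hb hφ using hL.loc
  -- the special weight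
  obtain ⟨N, hN⟩ := exists_nat_gt (16 / ‖Δ‖ + 16 * C * ‖T‖ / ‖Δ‖)
  let p : ℕ := 2 * N + 1
  have hp : p % 2 = 1 := by show (2 * N + 1) % 2 = 1; omega
  have hNp : N ≤ p := by show N ≤ 2 * N + 1; omega
  have hpN : (N : ℝ) < mm p := lt_of_le_of_lt (by exact_mod_cast hNp) (lt_mm' p)
  have hnp := nn_pos' p
  have hmp := mm_pos' p
  -- the first index
  have hd0 := (Metric.tendsto_atTop.1 hL.diag0) (1 / nn p) (by positivity)
  have hd1 := (Metric.tendsto_atTop.1 hL.diag1) (‖Δ‖ / 2) (by positivity)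
  obtain ⟨a₀, ha₀⟩ := hd0
  obtain ⟨a₁, ha₁⟩ := hd1
  let i₀ : ℕ := 2 * max a₀ a₁
  let q₀ : ℕ := 4 * thr p + 2
  let q : ℕ → ℕ := qk w c t a b q₀ i₀
  let ii : ℕ → ℕ := ik w c t a b q₀ i₀
  let G : ℕ → Tr × ℕ × ℕ := Gk w c t a b q₀ i₀
  have hq0 : q₀ % 4 = 2 := by show (4 * thr p + 2) % 4 = 2; omega
  have hqe : ∀ k, q k % 2 = 0 := fun k => qk_even w c t a b q₀ i₀ k hq0
  have hii : StrictMono ii := ik_strictMono w c t a b q₀ i₀
  have hiis : ∀ k, ii (k + 1) = ii k + nn (q k) := fun k => ik_succ w c t a b q₀ i₀ k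
  have hii0 : ii 0 = i₀ := rfl
  have hiie : ∀ k, 2 ∣ ii k := fun k => ik_even w c t a b q₀ i₀ k (dvd_mul_right 2 _)
  have hG : ∀ k, G k = mk w c t a b (q k) (ii k) := fun _ => rfl
  have hG1 : ∀ k, (G k).2.1 = w (ii k) := fun _ => rfl
  have hG2 : ∀ k, (G k).2.2 = w (ii (k + 1)) - 1 := fun k => by rw [hiis]; rfl
  have hwf : ∀ k, (G k).1.Wf := fun k => mk_wf hw hc ht ha hab hb (hqe k) (ii k)
  let x : ℕ → ZT := fun k => ((mm (q k) : ℂ) / nn (q k)) • ∑ i ∈ Ico (ii k) (ii (k + 1)), z i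
  have hcard : ∀ k, #(Ico (ii k) (ii (k + 1))) = nn (q k) := fun k => by
    rw [Nat.card_Ico, hiis]; omega
  have hcx : ∀ k, cz (x k) = ((mm (q k) : ℂ) / nn (q k)) • ∑ i ∈ Ico (ii k) (ii (k + 1)), cz (z i) := by
    intro k
    show cz (((mm (q k) : ℂ) / nn (q k)) • ∑ i ∈ Ico (ii k) (ii (k + 1)), z i) = _
    rw [_root_.map_smul, _root_.map_sum]
  have hw1 : ∀ k, 1 ≤ w (ii (k + 1)) := fun k => by
    have h1 := hw.id_le (ii (k + 1))
    have h2 := hii.id_le (k + 1)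
    simp only [id] at h1 h2
    omega
  -- values of the functionals on the averages
  have hφz : ∀ i i', i ≠ i' → φ i (cz (z i')) = 0 := by
    intro i i' hii'
    rw [hφ]
    have h1 := hL.lev i'
    have h2 : cut (a i) (b i) (cz (z i')) = 0 := by
      apply h1.cut_zero
      have h3 := ha i
      have h4 := hb i
      have h6 := hw (Nat.lt_succ_self i)
      have h7 := hw (Nat.lt_succ_self i')
      simp only [Nat.succ_eq_add_one] at h6 h7
      rcases lt_or_gt_of_ne hii' with h5 | h5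
      · have := hw.monotone (show i + 1 ≤ i' from h5)
        omega
      · have := hw.monotone (show i' + 1 ≤ i from h5)
        omega
    rw [h2, map_zero, mul_zero]
  have hevG : ∀ k y, ev (G k).1 (cut (G k).2.1 (G k).2.2 y) =
      (mm (q k) : ℂ)⁻¹ * ∑ i ∈ Ico (ii k) (ii (k + 1)), φ i y := by
    intro k y
    rw [hG, ev_mk hw ha hb, hiis]
    congr 1
    refine Finset.sum_congr rfl fun i _ => ?_
    rw [hφ]
  have hlevz : ∀ k, ∀ i ∈ Ico (ii k) (ii (k + 1)), OnLv (w (ii k)) (w (ii (k + 1)) - 1) (cz (z i)) := by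
    intro k i hi
    rw [mem_Ico] at hi
    refine (hL.lev i).mono (hw.monotone hi.1) ?_
    have := hw.monotone (show i + 1 ≤ ii (k + 1) from hi.2)
    omega
  have hlevx : ∀ k, OnLv (w (ii k)) (w (ii (k + 1)) - 1) (cz (x k)) := by
    intro k l g hlg
    rw [hcx]
    show ((mm (q k) : ℂ) / nn (q k)) • (∑ i ∈ Ico (ii k) (ii (k + 1)), cz (z i)) l g = 0
    rw [Finset.sum_apply, Finset.sum_apply, Finset.sum_eq_zero, smul_zero]
    intro i hi
    exact hlevz k i hi l g hlg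
  -- pair sums
  have hpair : ∀ (g : ℕ → ℂ) (D : ℂ) (η : ℝ),
      (∀ j, max a₀ a₁ ≤ j → ‖g (2 * j) + g (2 * j + 1) - 2 * D‖ ≤ 2 * η) → ∀ k,
      ‖(nn (q k) : ℂ)⁻¹ * ∑ i ∈ Ico (ii k) (ii (k + 1)), g i - D‖ ≤ η := by
    intro g D η hg k
    obtain ⟨a', ha'⟩ := hiie k
    obtain ⟨m', hm'⟩ := two_dvd_nn (q k)
    have h1 : max a₀ a₁ ≤ a' := by
      have h2 : ii 0 ≤ ii k := hii.monotone (Nat.zero_le k)
      rw [hii0, ha'] at h2
      have h3 : i₀ = 2 * max a₀ a₁ := rfl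
      omega
    have h2 := pairSum g D (2 * η) a' (fun j hj => hg j (h1.trans hj)) m'
    rw [hiis, ha']
    have hn := nn_pos' (q k)
    have h3 : (nn (q k) : ℂ) ≠ 0 := by exact_mod_cast hn.ne'
    rw [← hm'] at h2
    have h4 : (nn (q k) : ℂ)⁻¹ * ∑ i ∈ Ico (2 * a') (2 * a' + nn (q k)), g i - D =
        (nn (q k) : ℂ)⁻¹ * (∑ i ∈ Ico (2 * a') (2 * a' + nn (q k)), g i - (nn (q k) : ℕ) * D) := by
      field_simp
    rw [h4, norm_mul, norm_inv, Complex.norm_natCast, inv_mul_le_iff₀ hn]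
    refine h2.trans (le_of_eq ?_)
    have : (nn (q k) : ℝ) = 2 * m' := by exact_mod_cast hm'
    rw [this]
    ring
  -- the dependent sequence
  have hdep : Dep C p (fun k => cz (x k)) q G := by
    refine ⟨h.hC, hp, ?_, ?_, ?_, hwf, fun _ => rfl, ?_, ?_, fun k => qk_succ w c t a b q₀ i₀ k, ?_, ?_, ?_, ?_⟩
    · intro k
      rw [hG1, hG2]
      exact hlevx k
    · intro k
      rw [hG1, hG2]
      have := hw (hii (Nat.lt_succ_self k))
      simp only [Nat.succ_eq_add_one] at this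
      omega
    · intro k k' hk
      rw [hG1, hG2]
      have h1 := hw.monotone (hii.monotone (show k + 1 ≤ k' from hk))
      have h2 := hw1 k
      omega
    · show qk w c t a b q₀ i₀ 0 % 4 = 2
      rw [qk_zero]
      exact hq0
    · show thr p ≤ qk w c t a b q₀ i₀ 0
      rw [qk_zero]
      show thr p ≤ 4 * thr p + 2
      omega
    · intro k
      show Bd (4 * C) (cz (x k))
      rw [hcx]
      exact h.avg_bd (hcard k)
    · intro k t' hw' i hi hiq α β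
      show ‖ev t' (cut α β (cz (x k)))‖ ≤ _
      rw [hcx]
      exact h.avg_low (hcard k) t' hw' i hi hiq α β
    · intro k t' hw' i hi α β
      show ‖ev t' (cut α β (cz (x k)))‖ ≤ _
      rw [hcx]
      exact h.avg_high (hcard k) t' hw' i hi α β
    · intro k
      show ‖ev (G k).1 (cz (x k))‖ ≤ 1 / nn p
      have h1 : cut (G k).2.1 (G k).2.2 (cz (x k)) = cz (x k) :=
        OnLv.cut_eq (by rw [hG1, hG2]; exact hlevx k) le_rfl le_rfl
      rw [← h1, hevG]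
      have h2 : ∀ i ∈ Ico (ii k) (ii (k + 1)), φ i (cz (x k)) = ((mm (q k) : ℂ) / nn (q k)) * φ i (cz (z i)) := by
        intro i hi
        rw [hcx, (hloc i).map_smul, (hloc i).map_sum, Finset.sum_eq_single_of_mem i hi]
        intro i' _ hne
        exact hφz i i' (Ne.symm hne)
      rw [Finset.sum_congr rfl h2, ← Finset.mul_sum, ← mul_assoc]
      have hm : (mm (q k) : ℂ) ≠ 0 := by exact_mod_cast (mm_pos' (q k)).ne'
      have h3 : (mm (q k) : ℂ)⁻¹ * ((mm (q k) : ℂ) / nn (q k)) = (nn (q k) : ℂ)⁻¹ := by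
        field_simp
      rw [h3]
      have h4 := hpair (fun i => φ i (cz (z i))) 0 (1 / nn p) (fun j hj => by
        have h5 := (ha₀ j ((le_max_left _ _).trans hj)).le
        rw [dist_zero_right] at h5
        rw [mul_zero, sub_zero]
        refine h5.trans ?_
        have : (0 : ℝ) ≤ 1 / nn p := by positivity
        linarith) k
      rwa [sub_zero] at h4
  have hbound := hdep.bound
  -- the norm of the image
  let X : ZT := ∑ k ∈ range (nn p), x k
  have hX : ‖X‖ ≤ 8 * C * (nn p / (mm p) ^ 2) := by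
    apply ZT.norm_le (by positivity)
    show Bd _ (cz (∑ k ∈ range (nn p), x k))
    rw [_root_.map_sum]
    exact hbound
  have hTX : ‖T X‖ ≤ ‖T‖ * (8 * C * (nn p / (mm p) ^ 2)) :=
    (T.le_opNorm X).trans (mul_le_mul_of_nonneg_left hX (norm_nonneg _))
  -- the special functional
  let H : Tr := Tr.node p (nn p) (fun _ => (1, 0)) (fun i => (G i).2.1) (fun i => (G i).2.2) (fun i => (G i).1)
  have hHwf : H.Wf := by
    refine ⟨le_rfl, fun i => hwf i, fun i => by simp [HI.cc], fun i => hdep.le i, fun i i' hi => hdep.suc _ _ hi,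
      fun _ => ⟨fun _ => rfl, fun i => ?_⟩⟩
    split_ifs with hi0
    · refine ⟨q 0, hdep.q0, hdep.q0', ?_⟩
      show (G (i : ℕ)).1.wt = q 0 + 1
      rw [hi0]
      rfl
    · obtain ⟨i', hi'⟩ : ∃ i', (i : ℕ) = i' + 1 := ⟨i - 1, by omega⟩
      have h1 : hist (fun i : Fin (nn p) => (G i).2.1) (fun i : Fin (nn p) => (G i).2.2)
          (fun i : Fin (nn p) => (G i).1) i = List.ofFn fun s : Fin (i' + 1) => G s := by
        unfold hist
        have hil := i.2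
        apply List.ext_getElem
        · rw [List.length_take, List.length_ofFn, List.length_ofFn]
          omega
        · intro n h2 h3
          rw [List.getElem_take, List.getElem_ofFn, List.getElem_ofFn]
      rw [hi'] at h1
      show (G (i : ℕ)).1.wt = _
      rw [hi', h1, ← hdep.qs]
      rfl
  have hev : ‖ev H (cut 0 (w (ii (nn p))) (cw (T X)))‖ ≤ ‖T X‖ := (T X).bd H hHwf _ _
  -- the value
  have hval : ev H (cut 0 (w (ii (nn p))) (cw (T X))) = (mm p : ℂ)⁻¹ * ∑ k ∈ range (nn p),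
      ((mm (q k) : ℂ)⁻¹ * ∑ i ∈ Ico (ii k) (ii (k + 1)), φ i (cw (T X))) := by
    show ev (Tr.node p (nn p) (fun _ => (1, 0)) (fun i => (G i).2.1) (fun i => (G i).2.2) (fun i => (G i).1)) _ = _
    rw [ev_node, ← Fin.sum_univ_eq_sum_range (fun k => (mm (q k) : ℂ)⁻¹ * ∑ i ∈ Ico (ii k) (ii (k + 1)), φ i (cw (T X)))]
    congr 1
    refine Finset.sum_congr rfl fun k _ => ?_
    rw [← hevG, cut_cut, max_eq_left (Nat.zero_le _)]
    have h1 : (G k).2.2 ≤ w (ii (nn p)) := by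
      rw [hG2]
      have := hw.monotone (hii.monotone (show (k : ℕ) + 1 ≤ nn p from k.2))
      omega
    rw [min_eq_left h1]
    simp [HI.cc]
  -- the off-diagonal part
  have hTXeq : ∀ i, φ i (cw (T X)) = ∑ k' ∈ range (nn p), ((mm (q k') : ℂ) / nn (q k')) *
      ∑ i' ∈ Ico (ii k') (ii (k' + 1)), φ i (cw (T (z i'))) := by
    intro i
    show φ i (cw (T (∑ k ∈ range (nn p), x k))) = _
    rw [_root_.map_sum, _root_.map_sum, (hloc i).map_sum]
    refine Finset.sum_congr rfl fun k' _ => ?_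
    show φ i (cw (T (((mm (q k') : ℂ) / nn (q k')) • ∑ i ∈ Ico (ii k') (ii (k' + 1)), z i))) = _
    rw [_root_.map_smul, _root_.map_smul, (hloc i).map_smul, _root_.map_sum, _root_.map_sum, (hloc i).map_sum]
  have hoff : ∀ k < nn p, ∀ i ∈ Ico (ii k) (ii (k + 1)),
      ‖φ i (cw (T X)) - ((mm (q k) : ℂ) / nn (q k)) * φ i (cw (T (z i)))‖ ≤ 2 * (1 / 2) ^ i := by
    intro k hk i hi
    have h1 : ((mm (q k) : ℂ) / nn (q k)) * φ i (cw (T (z i))) = ∑ k' ∈ range (nn p),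
        ((mm (q k') : ℂ) / nn (q k')) * ∑ i' ∈ Ico (ii k') (ii (k' + 1)), (if i' = i then φ i (cw (T (z i))) else 0) := by
      rw [Finset.sum_eq_single_of_mem k (mem_range.2 hk)]
      · rw [Finset.sum_ite_eq' (Ico (ii k) (ii (k + 1))) i, if_pos hi]
      · intro k' _ hne
        rw [Finset.sum_eq_zero, mul_zero]
        intro i' hi'
        rw [if_neg]
        rintro rfl
        rw [mem_Ico] at hi hi'
        rcases lt_or_gt_of_ne hne with h5 | h5
        · have := hii.monotone (show k' + 1 ≤ k from h5)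
          omega
        · have := hii.monotone (show k + 1 ≤ k' from h5)
          omega
    rw [hTXeq, h1, ← Finset.sum_sub_distrib]
    have h2 : ∀ k' ∈ range (nn p), ‖((mm (q k') : ℂ) / nn (q k')) * ∑ i' ∈ Ico (ii k') (ii (k' + 1)), φ i (cw (T (z i'))) -
        ((mm (q k') : ℂ) / nn (q k')) * ∑ i' ∈ Ico (ii k') (ii (k' + 1)), (if i' = i then φ i (cw (T (z i))) else 0)‖ ≤
        ∑ i' ∈ Ico (ii k') (ii (k' + 1)), (1 / 2) ^ i * (1 / 2) ^ i' := by
      intro k' _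
      rw [← mul_sub, ← Finset.sum_sub_distrib, norm_mul, norm_div, Complex.norm_natCast, Complex.norm_natCast]
      have h3 : (mm (q k') : ℝ) / nn (q k') ≤ 1 := by
        refine (mm_div_nn_le _).trans ?_
        rw [div_le_one (pow_pos (mm_pos' _) 3)]
        exact one_le_pow₀ (by linarith [one_le_mm (q k')])
      have h4 : (0 : ℝ) ≤ (mm (q k') : ℝ) / nn (q k') := by positivity
      refine (mul_le_of_le_one_left (norm_nonneg _) h3).trans ?_
      refine (norm_sum_le _ _).trans (Finset.sum_le_sum fun i' _ => ?_)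
      split_ifs with h5
      · rw [h5, sub_self, norm_zero]; positivity
      · rw [sub_zero]; exact hL.off i i' (Ne.symm h5)
    refine (norm_sum_le _ _).trans ((Finset.sum_le_sum h2).trans ?_)
    have h3 : ∀ n, ∑ k' ∈ range n, ∑ i' ∈ Ico (ii k') (ii (k' + 1)), ((1 : ℝ) / 2) ^ i * (1 / 2) ^ i' =
        ∑ i' ∈ Ico (ii 0) (ii n), (1 / 2) ^ i * (1 / 2) ^ i' := by
      intro n
      induction n with
      | zero => simp
      | succ n ih =>
        rw [Finset.sum_range_succ, ih, Finset.sum_Ico_consecutive _ (hii.monotone (Nat.zero_le n))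
          (hii.monotone (Nat.le_succ n))]
    rw [h3, ← Finset.mul_sum]
    have h4 := sum_half_le (Ico (ii 0) (ii (nn p)))
    have h5 : (0 : ℝ) ≤ (1 / 2) ^ i := by positivity
    nlinarith
  -- each summand is close to `Δ`
  have hterm : ∀ k < nn p, ‖(mm (q k) : ℂ)⁻¹ * ∑ i ∈ Ico (ii k) (ii (k + 1)), φ i (cw (T X)) - Δ‖ ≤ ‖Δ‖ / 2 := by
    intro k hk
    have h1 := hpair (fun i => φ i (cw (T (z i)))) Δ (‖Δ‖ / 4) (fun j hj => by
      have h5 := (ha₁ j ((le_max_right _ _).trans hj)).le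
      rw [dist_eq_norm] at h5
      refine h5.trans (by linarith)) k
    have hm : (mm (q k) : ℂ) ≠ 0 := by exact_mod_cast (mm_pos' (q k)).ne'
    have h2 : (mm (q k) : ℂ)⁻¹ * ∑ i ∈ Ico (ii k) (ii (k + 1)), φ i (cw (T X)) - Δ =
        (mm (q k) : ℂ)⁻¹ * ∑ i ∈ Ico (ii k) (ii (k + 1)),
          (φ i (cw (T X)) - ((mm (q k) : ℂ) / nn (q k)) * φ i (cw (T (z i)))) +
        ((nn (q k) : ℂ)⁻¹ * ∑ i ∈ Ico (ii k) (ii (k + 1)), φ i (cw (T (z i))) - Δ) := by
      rw [Finset.sum_sub_distrib, ← Finset.mul_sum, mul_sub, ← mul_assoc (mm (q k) : ℂ)⁻¹]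
      have h3 : (mm (q k) : ℂ)⁻¹ * ((mm (q k) : ℂ) / nn (q k)) = (nn (q k) : ℂ)⁻¹ := by
        field_simp
      rw [h3]
      ring
    rw [h2]
    refine (norm_add_le _ _).trans ?_
    have h3 : ‖(mm (q k) : ℂ)⁻¹ * ∑ i ∈ Ico (ii k) (ii (k + 1)),
        (φ i (cw (T X)) - ((mm (q k) : ℂ) / nn (q k)) * φ i (cw (T (z i))))‖ ≤ ‖Δ‖ / 4 := by
      rw [norm_mul, norm_inv, Complex.norm_natCast, inv_mul_le_iff₀ (mm_pos' _)]
      have h4 : ‖∑ i ∈ Ico (ii k) (ii (k + 1)),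
          (φ i (cw (T X)) - ((mm (q k) : ℂ) / nn (q k)) * φ i (cw (T (z i))))‖ ≤ 4 := by
        refine (norm_sum_le _ _).trans ((Finset.sum_le_sum (hoff k hk)).trans ?_)
        rw [← Finset.mul_sum]
        have := sum_half_le (Ico (ii k) (ii (k + 1)))
        linarith
      refine h4.trans ?_
      have h5 : (N : ℝ) ≤ mm (q k) := by
        have h6 : thr p ≤ q k := hdep.thr_le k
        have h7 : p ≤ thr p := by unfold thr; omega
        have h8 := lt_mm (q k)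
        exact_mod_cast (hNp.trans (h7.trans h6)).trans h8.le
      have h6 : 16 / ‖Δ‖ ≤ N := by
        have : (0 : ℝ) ≤ 16 * C * ‖T‖ / ‖Δ‖ := by positivity
        linarith
      rw [div_le_iff₀ hΔ] at h6
      nlinarith
    linarith
  -- the lower estimate
  have hlow : (nn p : ℝ) * (‖Δ‖ / 2) ≤ mm p * ‖T X‖ := by
    have h1 : ‖∑ k ∈ range (nn p), ((mm (q k) : ℂ)⁻¹ * ∑ i ∈ Ico (ii k) (ii (k + 1)), φ i (cw (T X))) -
        (nn p : ℂ) * Δ‖ ≤ nn p * (‖Δ‖ / 2) := by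
      have h2 : (nn p : ℂ) * Δ = ∑ k ∈ range (nn p), Δ := by rw [sum_const, card_range, nsmul_eq_mul]
      rw [h2, ← Finset.sum_sub_distrib]
      refine (norm_sum_le _ _).trans ?_
      calc _ ≤ ∑ k ∈ range (nn p), ‖Δ‖ / 2 := Finset.sum_le_sum fun k hk => hterm k (mem_range.1 hk)
        _ = nn p * (‖Δ‖ / 2) := by rw [sum_const, card_range, nsmul_eq_mul]
    rw [hval, norm_mul, norm_inv, Complex.norm_natCast, inv_mul_le_iff₀ hmp] at hev
    have h3 : ‖(nn p : ℂ) * Δ‖ = nn p * ‖Δ‖ := by rw [norm_mul, Complex.norm_natCast]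
    have h4 := norm_sub_norm_le ((nn p : ℂ) * Δ)
      (∑ k ∈ range (nn p), ((mm (q k) : ℂ)⁻¹ * ∑ i ∈ Ico (ii k) (ii (k + 1)), φ i (cw (T X))))
    rw [norm_sub_rev] at h4
    rw [h3] at h4
    linarith
  have h1 : (nn p : ℝ) * (‖Δ‖ / 2) ≤ nn p * (8 * C * ‖T‖ / mm p) := by
    refine hlow.trans ((mul_le_mul_of_nonneg_left hTX hmp.le).trans (le_of_eq ?_))
    field_simp
  have h2 := le_of_mul_le_mul_left h1 hnp
  rw [le_div_iff₀ hmp] at h2
  have h3 : 16 * C * ‖T‖ / ‖Δ‖ < mm p := by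
    have : 0 < 16 / ‖Δ‖ := by positivity
    linarith
  rw [div_lt_iff₀ hΔ] at h3
  linarith

end

end Pool.Agent.TH313.HI
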