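import Pool.Agent.TH313.HI.Op1

/-! Localization of functionals. -/

set_option autoImplicit false

namespace Pool.Agent.TH313.HI

open Finset Filter Topology
open scoped BoundedContinuousFunction

noncomputable section

variable {C : ℝ} {z : ℕ → ZT} {A B J : ℕ → ℕ}

/-- the coordinates as continuous functionals -/
def coordL (k g : ℕ) : WT →L[ℂ] ℂ :=
  LinearMap.mkContinuous
    { toFun := fun w => cw w k g
      map_add' := fun w w' => by rw [map_add]; rfl
      map_smul' := fun c w => by rw [map_smul]; rfl } 1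
    (fun w => by rw [one_mul]; exact norm_cw_le w k g)

theorem coordL_apply (k g : ℕ) (w : WT) : coordL k g w = cw w k g := rfl

theorem OnLv_cut (a b : ℕ) (x : V) : OnLv a b (cut a b x) := by
  intro k g hk
  rw [cut_apply, if_neg (by omega)]

theorem lowSmall (T : ZT →L[ℂ] WT) (h : RIS C (fun l => cz (z l)) A B J) (N : ℕ) {ε : ℝ} (hε : 0 < ε) :
    ∀ᶠ l in atTop, Bd ε (cut 0 N (cw (T (z l)))) := by
  have h1 : ∀ k ∈ range (N + 1), ∀ g ∈ range (2 ^ (k + 2)), ∀ᶠ l in atTop, ‖cw (T (z l)) k g‖ ≤ ε / (N + 1) := by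
    intro k _ g _
    have h2 := h.weakNull ((coordL k g).comp T)
    have h3 := (Metric.tendsto_nhds.1 h2) (ε / (N + 1)) (by positivity)
    filter_upwards [h3] with l hl
    rw [dist_zero_right] at hl
    exact hl.le
  have h2 : ∀ᶠ l in atTop, ∀ k ∈ range (N + 1), ∀ g ∈ range (2 ^ (k + 2)), ‖cw (T (z l)) k g‖ ≤ ε / (N + 1) := by
    rw [Filter.eventually_all_finset]
    intro k hk
    rw [Filter.eventually_all_finset]
    exact h1 k hk
  filter_upwards [h2] with l hl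
  have h3 := bd_of_coord (OnLv_cut 0 N (cw (T (z l)))) (η := ε / (N + 1)) (by positivity) (by
    intro k _ hk g hg
    rw [cut_apply, if_pos ⟨Nat.zero_le _, hk⟩]
    exact hl k (mem_range.2 (by omega)) g (mem_range.2 hg))
  have h4 : ((N : ℝ) + 1) * (ε / (N + 1)) = ε := by field_simp
  rwa [h4] at h3

theorem exists_windows (T : ZT →L[ℂ] WT) (h : RIS C (fun l => cz (z l)) A B J) :
    ∃ ψ w : ℕ → ℕ, StrictMono ψ ∧ StrictMono w ∧ (∀ i, w i ≤ A (ψ i)) ∧ (∀ i, B (ψ i) < w (i + 1)) ∧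
      (∀ i, 1 ≤ i → Bd ((1 / 4) ^ i) (cut 0 (w i) (cw (T (z (ψ i)))))) ∧
      (∀ i i', i' < i → ∀ b, Bd ((1 / 4) ^ i) (cut (w i) b (cw (T (z (ψ i')))))) := by
  have hN : ∀ l n : ℕ, ∃ N, ∀ l' ≤ l, (∀ a b, N ≤ a → Bd ((1 / 4) ^ n) (cut a b (cw (T (z l'))))) ∧ B l' < N := by
    intro l n
    have h1 : ∀ l', ∃ N, ∀ a b, N ≤ a → Bd ((1 / 4) ^ n) (cut a b (cw (T (z l')))) :=
      fun l' => tail _ (by positivity)
    choose N hN using h1
    refine ⟨∑ l' ∈ range (l + 1), (N l' + B l' + 1), fun l' hl' => ?_⟩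
    have h2 : N l' + B l' + 1 ≤ ∑ l' ∈ range (l + 1), (N l' + B l' + 1) :=
      Finset.single_le_sum (f := fun l' => N l' + B l' + 1) (fun _ _ => Nat.zero_le _)
        (mem_range.2 (by omega))
    exact ⟨fun a b hab => hN l' a b (by omega), by omega⟩
  have hL : ∀ N n : ℕ, ∃ L, ∀ l ≥ L, N ≤ A l ∧ Bd ((1 / 4) ^ n) (cut 0 N (cw (T (z l)))) := by
    intro N n
    obtain ⟨L, hL⟩ := eventually_atTop.1 (lowSmall T h N (ε := (1 / 4) ^ n) (by positivity))
    exact ⟨max L N, fun l hl => ⟨(le_trans (le_max_right _ _) hl).trans (h.le_A l), hL l ((le_max_left _ _).trans hl)⟩⟩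
  choose Nf hNf using hN
  choose Lf hLf using hL
  let st : ℕ → ℕ × ℕ := fun i => Nat.rec (Lf 0 0, 0)
    (fun i s => (max (s.1 + 1) (Lf (max (s.2 + 1) (Nf s.1 (i + 1))) (i + 1)), max (s.2 + 1) (Nf s.1 (i + 1)))) i
  have hst : ∀ i, st (i + 1) = (max ((st i).1 + 1) (Lf (max ((st i).2 + 1) (Nf (st i).1 (i + 1))) (i + 1)),
      max ((st i).2 + 1) (Nf (st i).1 (i + 1))) := fun _ => rfl
  have hst0 : st 0 = (Lf 0 0, 0) := rfl
  have hψ : StrictMono fun i => (st i).1 := strictMono_nat_of_lt_succ fun i => by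
    rw [hst]
    exact lt_of_lt_of_le (Nat.lt_succ_self _) (le_max_left _ _)
  have hw : StrictMono fun i => (st i).2 := strictMono_nat_of_lt_succ fun i => by
    rw [hst]
    exact lt_of_lt_of_le (Nat.lt_succ_self _) (le_max_left _ _)
  refine ⟨fun i => (st i).1, fun i => (st i).2, hψ, hw, ?_, ?_, ?_, ?_⟩
  · intro i
    cases i with
    | zero => exact Nat.zero_le _
    | succ i =>
      have := (hLf (max ((st i).2 + 1) (Nf (st i).1 (i + 1))) (i + 1) (st (i + 1)).1 (by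
        rw [hst]; exact le_max_right _ _)).1
      exact this
  · intro i
    have := (hNf (st i).1 (i + 1) (st i).1 le_rfl).2
    show B (st i).1 < (st (i + 1)).2
    rw [hst]
    exact lt_of_lt_of_le this (le_max_right _ _)
  · intro i hi
    obtain ⟨i, rfl⟩ : ∃ i', i = i' + 1 := ⟨i - 1, by omega⟩
    have := (hLf (max ((st i).2 + 1) (Nf (st i).1 (i + 1))) (i + 1) (st (i + 1)).1 (by
        rw [hst]; exact le_max_right _ _)).2
    have h2 : (st (i + 1)).2 = max ((st i).2 + 1) (Nf (st i).1 (i + 1)) := by rw [hst]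
    rw [← h2] at this
    exact this
  · intro i i' hi b
    obtain ⟨i, rfl⟩ : ∃ i', i = i' + 1 := ⟨i - 1, by omega⟩
    have h1 : (st i').1 ≤ (st i).1 := hψ.monotone (by omega : i' ≤ i)
    refine (hNf (st i).1 (i + 1) (st i').1 h1).1 _ b ?_
    show Nf (st i).1 (i + 1) ≤ (st (i + 1)).2
    rw [hst]
    exact le_max_right _ _

theorem exists_approx (s : ℂ) (hs : ‖s‖ ≤ 1) {ε : ℝ} (hε : 0 < ε) (hε1 : ε ≤ 1) :
    ∃ c : ℚ × ℚ, ‖cc c‖ ≤ 1 ∧ ‖cc c - s‖ ≤ 2 * ε := by
  obtain ⟨p, hp⟩ := Rat.denseRange_cast.exists_dist_lt ((1 - ε) * s.re) (show 0 < ε / 2 by positivity)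
  obtain ⟨q, hq⟩ := Rat.denseRange_cast.exists_dist_lt ((1 - ε) * s.im) (show 0 < ε / 2 by positivity)
  have h1 : ‖cc (p, q) - (1 - ε : ℝ) * s‖ ≤ ε := by
    refine (Complex.norm_le_abs_re_add_abs_im _).trans ?_
    have e1 : (cc (p, q) - (1 - ε : ℝ) * s).re = p - (1 - ε) * s.re := by
      simp [cc]
    have e2 : (cc (p, q) - (1 - ε : ℝ) * s).im = q - (1 - ε) * s.im := by
      simp [cc]
    rw [e1, e2]
    rw [Real.dist_eq, abs_sub_comm] at hp hq
    linarith
  have h2 : ‖((1 - ε : ℝ) : ℂ) * s‖ ≤ 1 - ε := by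
    rw [norm_mul, Complex.norm_real, Real.norm_of_nonneg (by linarith)]
    exact mul_le_of_le_one_right (by linarith) hs
  refine ⟨(p, q), ?_, ?_⟩
  · have := norm_add_le (cc (p, q) - (1 - ε : ℝ) * s) (((1 - ε : ℝ) : ℂ) * s)
    rw [sub_add_cancel] at this
    linarith
  · have h3 : cc (p, q) - s = (cc (p, q) - (1 - ε : ℝ) * s) + (-(ε : ℂ) * s) := by
      push_cast; ring
    rw [h3]
    refine (norm_add_le _ _).trans ?_
    have h4 : ‖-(ε : ℂ) * s‖ ≤ ε := by
      rw [norm_mul, norm_neg, Complex.norm_real, Real.norm_of_nonneg hε.le]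
      exact mul_le_of_le_one_right hε.le hs
    linarith

/-- restricted functionals are local -/
theorem loc_of (c : ℚ × ℚ) (hc : ‖cc c‖ ≤ 1) (t : Tr) (ht : t.Wf) (α β : ℕ) {w w' : ℕ} (hw : w ≤ w') :
    Loc w w' (fun x => cc c * ev t (cut α β (cut w w' x))) := by
  by_cases h : max α w ≤ min β w'
  · exact ⟨c, t, max α w, min β w', hc, ht, le_max_right _ _, h, min_le_right _ _, fun x => by
      simp only [cut_cut]⟩
  · refine ⟨(0, 0), t, w, w', by simp [cc], ht, le_rfl, hw, le_rfl, fun x => ?_⟩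
    have h1 : cut α β (cut w w' x) = 0 := by
      rw [cut_cut]
      funext k g
      rw [cut_apply, if_neg (by omega)]
      rfl
    simp only [h1, map_zero, mul_zero]
    simp [cc]

theorem opCore (T : ZT →L[ℂ] WT) (h : RIS C (fun l => cz (z l)) A B J) (f f' : ℕ → Tr × ℕ × ℕ)
    (hf : ∀ l, (f l).1.Wf) (hf' : ∀ l, (f' l).1.Wf) (s t a b a' b' : ℂ) (hs : ‖s‖ ≤ 1) (ht : ‖t‖ ≤ 1)
    (ha : Tendsto (fun l => ev (f l).1 (cut (f l).2.1 (f l).2.2 (cz (z l)))) atTop (𝓝 a))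
    (hb : Tendsto (fun l => ev (f l).1 (cut (f l).2.1 (f l).2.2 (cw (T (z l))))) atTop (𝓝 b))
    (ha' : Tendsto (fun l => ev (f' l).1 (cut (f' l).2.1 (f' l).2.2 (cz (z l)))) atTop (𝓝 a'))
    (hb' : Tendsto (fun l => ev (f' l).1 (cut (f' l).2.1 (f' l).2.2 (cw (T (z l))))) atTop (𝓝 b'))
    (h0 : s * a + t * a' = 0) : s * b + t * b' = 0 := by
  by_contra hne
  obtain ⟨ψ, w, hψ, hw, hwA, hwB, hlow, hhigh⟩ := exists_windows T h
  have happ : ∀ (s : ℂ), ‖s‖ ≤ 1 → ∀ i : ℕ, ∃ c : ℚ × ℚ, ‖cc c‖ ≤ 1 ∧ ‖cc c - s‖ ≤ 2 * (1 / ((i : ℝ) + 1)) := by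
    intro s hs i
    exact exists_approx s hs (by positivity) (by rw [div_le_one (by positivity)]; linarith [(Nat.cast_nonneg i : (0:ℝ) ≤ i)])
  choose cs hcs hcs' using happ s hs
  choose ct hct hct' using happ t ht
  have hlim : ∀ (s : ℂ) (c : ℕ → ℚ × ℚ), (∀ i, ‖cc (c i) - s‖ ≤ 2 * (1 / ((i : ℝ) + 1))) →
      Tendsto (fun i => cc (c i)) atTop (𝓝 s) := by
    intro s c hc
    rw [tendsto_iff_norm_sub_tendsto_zero]
    refine squeeze_zero (fun _ => norm_nonneg _) hc ?_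
    have := (tendsto_one_div_add_atTop_nhds_zero_nat (𝕜 := ℝ)).const_mul 2
    rwa [mul_zero] at this
  have hls := hlim s cs hcs'
  have hlt := hlim t ct hct'
  let c : ℕ → ℚ × ℚ := fun i => if i % 2 = 0 then cs i else ct i
  let g : ℕ → Tr × ℕ × ℕ := fun i => if i % 2 = 0 then f (ψ i) else f' (ψ i)
  have hc : ∀ i, ‖cc (c i)‖ ≤ 1 := by
    intro i
    show ‖cc (if i % 2 = 0 then cs i else ct i)‖ ≤ 1
    split_ifs
    · exact hcs i
    · exact hct i
  have hg : ∀ i, (g i).1.Wf := by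
    intro i
    show (if i % 2 = 0 then f (ψ i) else f' (ψ i)).1.Wf
    split_ifs
    · exact hf _
    · exact hf' _
  let φ : ℕ → V → ℂ := fun i x => cc (c i) * ev (g i).1 (cut (g i).2.1 (g i).2.2 (cut (w i) (w (i + 1) - 1) x))
  have hww : ∀ i, w i ≤ w (i + 1) - 1 := fun i => by
    have := hw (Nat.lt_succ_self i); simp only [Nat.succ_eq_add_one] at this; omega
  -- values on `z`
  have hφz : ∀ i, φ i (cz (z (ψ i))) = cc (c i) * ev (g i).1 (cut (g i).2.1 (g i).2.2 (cz (z (ψ i)))) := by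
    intro i
    show cc (c i) * ev (g i).1 (cut (g i).2.1 (g i).2.2 (cut (w i) (w (i + 1) - 1) (cz (z (ψ i))))) = _
    have h1 : cut (w i) (w (i + 1) - 1) (cz (z (ψ i))) = cz (z (ψ i)) :=
      OnLv.cut_eq (h.succ.1 (ψ i)) (hwA i) (by have := hwB i; omega)
    rw [h1]
  -- values on `T z`
  have hφT : ∀ i, 1 ≤ i → ‖φ i (cw (T (z (ψ i)))) -
      cc (c i) * ev (g i).1 (cut (g i).2.1 (g i).2.2 (cw (T (z (ψ i)))))‖ ≤ 2 * (1 / 4) ^ i := by
    intro i hi
    have hwi : 1 ≤ w i := hi.trans (hw.id_le i)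
    have h1 : cut (g i).2.1 (g i).2.2 (cw (T (z (ψ i)))) =
        cut (g i).2.1 (g i).2.2 (cut (w i) (w (i + 1) - 1) (cw (T (z (ψ i))))) +
        (cut (g i).2.1 (g i).2.2 (cut 0 (w i - 1) (cut 0 (w i) (cw (T (z (ψ i)))))) +
        cut (g i).2.1 (g i).2.2 (cut (w (i + 1)) (g i).2.2 (cw (T (z (ψ i)))))) := by
      funext k g'
      show cut (g i).2.1 (g i).2.2 (cw (T (z (ψ i)))) k g' =
        cut (g i).2.1 (g i).2.2 (cut (w i) (w (i + 1) - 1) (cw (T (z (ψ i))))) k g' +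
        (cut (g i).2.1 (g i).2.2 (cut 0 (w i - 1) (cut 0 (w i) (cw (T (z (ψ i)))))) k g' +
        cut (g i).2.1 (g i).2.2 (cut (w (i + 1)) (g i).2.2 (cw (T (z (ψ i))))) k g')
      simp only [cut_apply]
      have h2 := hww i
      by_cases h3 : (g i).2.1 ≤ k ∧ k ≤ (g i).2.2
      · simp only [if_pos h3]
        rcases lt_or_ge k (w i) with h4 | h4
        · rw [if_neg (by omega), if_pos (by omega), if_pos (by omega), if_neg (by omega), zero_add, add_zero]
        · rcases lt_or_ge k (w (i + 1)) with h5 | h5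
          · rw [if_pos (by omega), if_neg (by omega), if_neg (by omega), add_zero, add_zero]
          · rw [if_neg (by omega), if_neg (by omega), if_pos (by omega), zero_add, zero_add]
      · simp only [if_neg h3, add_zero]
    show ‖cc (c i) * ev (g i).1 (cut (g i).2.1 (g i).2.2 (cut (w i) (w (i + 1) - 1) (cw (T (z (ψ i)))))) -
      cc (c i) * ev (g i).1 (cut (g i).2.1 (g i).2.2 (cw (T (z (ψ i)))))‖ ≤ _
    rw [h1, map_add, map_add, mul_add, sub_add_cancel_left, norm_neg, norm_mul]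
    refine (mul_le_of_le_one_left (norm_nonneg _) (hc i)).trans ?_
    refine (norm_add_le _ _).trans ?_
    have e1 : ‖ev (g i).1 (cut (g i).2.1 (g i).2.2 (cut 0 (w i - 1) (cut 0 (w i) (cw (T (z (ψ i)))))))‖ ≤ (1 / 4) ^ i :=
      ((hlow i hi).cut 0 (w i - 1)) _ (hg i) _ _
    have e2 : ‖ev (g i).1 (cut (g i).2.1 (g i).2.2 (cut (w (i + 1)) (g i).2.2 (cw (T (z (ψ i))))))‖ ≤ (1 / 4) ^ (i + 1) :=
      (hhigh (i + 1) i (Nat.lt_succ_self i) _) _ (hg i) _ _
    have e3 : ((1 : ℝ) / 4) ^ (i + 1) ≤ (1 / 4) ^ i :=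
      pow_le_pow_of_le_one (by norm_num) (by norm_num) (Nat.le_succ i)
    linarith
  have ev2 : Tendsto (fun i : ℕ => 2 * i) atTop atTop :=
    tendsto_atTop_mono (fun i => by simp only [id]; omega) tendsto_id
  have ev21 : Tendsto (fun i : ℕ => 2 * i + 1) atTop atTop :=
    tendsto_atTop_mono (fun i => by simp only [id]; omega) tendsto_id
  have hψt : Tendsto ψ atTop atTop := hψ.tendsto_atTop
  have hc2 : ∀ i, c (2 * i) = cs (2 * i) := fun i => by
    show (if (2 * i) % 2 = 0 then cs (2 * i) else ct (2 * i)) = _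
    rw [if_pos (by omega)]
  have hc21 : ∀ i, c (2 * i + 1) = ct (2 * i + 1) := fun i => by
    show (if (2 * i + 1) % 2 = 0 then cs (2 * i + 1) else ct (2 * i + 1)) = _
    rw [if_neg (by omega)]
  have hg2 : ∀ i, g (2 * i) = f (ψ (2 * i)) := fun i => by
    show (if (2 * i) % 2 = 0 then f (ψ (2 * i)) else f' (ψ (2 * i))) = _
    rw [if_pos (by omega)]
  have hg21 : ∀ i, g (2 * i + 1) = f' (ψ (2 * i + 1)) := fun i => by
    show (if (2 * i + 1) % 2 = 0 then f (ψ (2 * i + 1)) else f' (ψ (2 * i + 1))) = _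
    rw [if_neg (by omega)]
  have hL : LocData T (fun i => z (ψ i)) w φ ((s * b + t * b') / 2) := by
    refine ⟨hw, ?_, fun i => loc_of _ (hc i) _ (hg i) _ _ (hww i), ?_, ?_, ?_, ?_⟩
    · intro i
      exact (h.succ.1 (ψ i)).mono (hwA i) (by have := hwB i; omega)
    · intro i i' hii'
      show ‖cc (c i) * ev (g i).1 (cut (g i).2.1 (g i).2.2 (cut (w i) (w (i + 1) - 1) (cw (T (z (ψ i'))))))‖ ≤ _
      rw [norm_mul]
      refine (mul_le_of_le_one_left (norm_nonneg _) (hc i)).trans ?_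
      rcases lt_or_gt_of_ne hii' with h1 | h1
      · have h2 : cut (w i) (w (i + 1) - 1) (cw (T (z (ψ i')))) =
            cut (w i) (w (i + 1) - 1) (cut 0 (w i') (cw (T (z (ψ i'))))) := by
          rw [cut_cut, max_eq_left (Nat.zero_le _), min_eq_left]
          have := hw.monotone (show i + 1 ≤ i' from h1)
          omega
        rw [h2]
        refine (((hlow i' (by omega)).cut _ _) _ (hg i) _ _).trans ?_
        have h3 : ((1 : ℝ) / 4) ^ i' = (1 / 2) ^ i' * (1 / 2) ^ i' := by rw [← mul_pow]; norm_num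
        rw [h3]
        refine mul_le_mul_of_nonneg_right ?_ (by positivity)
        exact pow_le_pow_of_le_one (by norm_num) (by norm_num) h1.le
      · refine ((hhigh i i' h1 _) _ (hg i) _ _).trans ?_
        have h3 : ((1 : ℝ) / 4) ^ i = (1 / 2) ^ i * (1 / 2) ^ i := by rw [← mul_pow]; norm_num
        rw [h3]
        refine mul_le_mul_of_nonneg_left ?_ (by positivity)
        exact pow_le_pow_of_le_one (by norm_num) (by norm_num) h1.le
    · have h1 : Tendsto (fun i => cc (cs (2 * i)) * ev (f (ψ (2 * i))).1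
          (cut (f (ψ (2 * i))).2.1 (f (ψ (2 * i))).2.2 (cz (z (ψ (2 * i))))) + cc (ct (2 * i + 1)) *
          ev (f' (ψ (2 * i + 1))).1 (cut (f' (ψ (2 * i + 1))).2.1 (f' (ψ (2 * i + 1))).2.2 (cz (z (ψ (2 * i + 1))))))
          atTop (𝓝 (s * a + t * a')) :=
        ((hls.comp ev2).mul (ha.comp (hψt.comp ev2))).add ((hlt.comp ev21).mul (ha'.comp (hψt.comp ev21)))
      rw [h0] at h1
      refine h1.congr fun i => ?_
      rw [hφz, hφz, hc2, hc21, hg2, hg21]
    · have h1 : Tendsto (fun i => cc (cs (2 * i)) * ev (f (ψ (2 * i))).1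
          (cut (f (ψ (2 * i))).2.1 (f (ψ (2 * i))).2.2 (cw (T (z (ψ (2 * i)))))) + cc (ct (2 * i + 1)) *
          ev (f' (ψ (2 * i + 1))).1 (cut (f' (ψ (2 * i + 1))).2.1 (f' (ψ (2 * i + 1))).2.2 (cw (T (z (ψ (2 * i + 1)))))))
          atTop (𝓝 (s * b + t * b')) :=
        ((hls.comp ev2).mul (hb.comp (hψt.comp ev2))).add ((hlt.comp ev21).mul (hb'.comp (hψt.comp ev21)))
      have h2 : Tendsto (fun i => φ i (cw (T (z (ψ i)))) -
          cc (c i) * ev (g i).1 (cut (g i).2.1 (g i).2.2 (cw (T (z (ψ i)))))) atTop (𝓝 0) := by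
        rw [tendsto_zero_iff_norm_tendsto_zero]
        have h3 : Tendsto (fun i : ℕ => 2 * ((1 : ℝ) / 4) ^ i) atTop (𝓝 0) := by
          have := (tendsto_pow_atTop_nhds_zero_of_lt_one (r := (1 : ℝ) / 4) (by norm_num) (by norm_num)).const_mul 2
          rwa [mul_zero] at this
        refine squeeze_zero' (Eventually.of_forall fun _ => norm_nonneg _) ?_ h3
        filter_upwards [eventually_ge_atTop 1] with i hi
        exact hφT i hi
      have h3 := (h1.add (h2.comp ev2)).add (h2.comp ev21)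
      have h4 : s * b + t * b' + 0 + 0 = 2 * ((s * b + t * b') / 2) := by ring
      rw [h4] at h3
      refine h3.congr fun i => ?_
      simp only [Function.comp_apply]
      rw [hc2, hc21, hg2, hg21]
      ring
    · intro h1
      apply hne
      rw [div_eq_zero_iff] at h1
      rcases h1 with h1 | h1
      · exact h1
      · norm_num at h1
  exact contra T (h.sub hψ) hL

end

end Pool.Agent.TH313.HI
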