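import Pool.Agent.TH313.HI.Op2

/-! Operators on rapidly increasing sequences; the scalar of an operator. -/

set_option autoImplicit false

namespace Pool.Agent.TH313.HI

open Finset Filter Topology
open scoped BoundedContinuousFunction

noncomputable section

variable {C : ℝ} {z : ℕ → ZT} {A B J : ℕ → ℕ}

theorem exists_functional {w : WT} {ε : ℝ} (hε : 0 ≤ ε) (h : ε < ‖w‖) :
    ∃ f : Tr × ℕ × ℕ, f.1.Wf ∧ ε < ‖ev f.1 (cut f.2.1 f.2.2 (cw w))‖ := by
  by_contra hcon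
  push Not at hcon
  have : ‖w‖ ≤ ε := WT.norm_le hε fun t ht a b => hcon (t, a, b) ht
  linarith

theorem exists_two_limits (x y : ℕ → ℂ) (M : ℝ) (hx : ∀ l, ‖x l‖ ≤ M) (hy : ∀ l, ‖y l‖ ≤ M) :
    ∃ (ψ : ℕ → ℕ) (a b : ℂ), StrictMono ψ ∧ Tendsto (fun l => x (ψ l)) atTop (𝓝 a) ∧
      Tendsto (fun l => y (ψ l)) atTop (𝓝 b) := by
  have h1 : IsCompact (Metric.closedBall (0 : ℂ) M ×ˢ Metric.closedBall (0 : ℂ) M) :=
    (isCompact_closedBall _ _).prod (isCompact_closedBall _ _)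
  obtain ⟨⟨a, b⟩, -, ψ, hψ, h⟩ := h1.tendsto_subseq (x := fun l => (x l, y l)) (fun l =>
    ⟨by rw [mem_closedBall_zero_iff]; exact hx l, by rw [mem_closedBall_zero_iff]; exact hy l⟩)
  rw [nhds_prod_eq] at h
  exact ⟨ψ, a, b, hψ, (Filter.tendsto_prod_iff'.1 h).1, (Filter.tendsto_prod_iff'.1 h).2⟩

/-- an operator maps a rapidly increasing sequence nearly in its multiples -/
theorem opLemma (T : ZT →L[ℂ] WT) (h : RIS C (fun l => cz (z l)) A B J) {ε : ℝ} (hε : 0 < ε) :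
    ∀ᶠ l in atTop, ∃ d : ℂ, ‖T (z l) - d • inc (z l)‖ ≤ ε := by
  by_contra hcon
  rw [not_eventually] at hcon
  obtain ⟨ψ₀, hψ₀, hfar⟩ := extraction_of_frequently_atTop hcon
  push Not at hfar
  have hC : 0 ≤ C := by linarith [h.hC]
  have h₀ := h.sub hψ₀
  have hz : ∀ l, ‖z l‖ ≤ C := fun l => ZT.norm_le hC (h.bd l)
  have hTz : ∀ l, ‖T (z l)‖ ≤ ‖T‖ * C := fun l =>
    (T.le_opNorm _).trans (mul_le_mul_of_nonneg_left (hz l) (norm_nonneg _))
  have hbz : ∀ (f : Tr × ℕ × ℕ), f.1.Wf → ∀ l, ‖ev f.1 (cut f.2.1 f.2.2 (cz (z l)))‖ ≤ max C (‖T‖ * C) :=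
    fun f hf l => (h.bd l f.1 hf _ _).trans (le_max_left _ _)
  have hbT : ∀ (f : Tr × ℕ × ℕ), f.1.Wf → ∀ l, ‖ev f.1 (cut f.2.1 f.2.2 (cw (T (z l))))‖ ≤ max C (‖T‖ * C) :=
    fun f hf l => (((T (z l)).bd f.1 hf _ _).trans (hTz l)).trans (le_max_right _ _)
  -- the first functionals
  have h1 : ∀ l, ∃ f : Tr × ℕ × ℕ, f.1.Wf ∧ ε < ‖ev f.1 (cut f.2.1 f.2.2 (cw (T (z (ψ₀ l)))))‖ := by
    intro l
    have := hfar l 0
    rw [zero_smul, sub_zero] at this
    exact exists_functional hε.le this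
  choose f hf hfε using h1
  obtain ⟨ψ₁, a, b, hψ₁, ha, hb⟩ := exists_two_limits
    (fun l => ev (f l).1 (cut (f l).2.1 (f l).2.2 (cz (z (ψ₀ l)))))
    (fun l => ev (f l).1 (cut (f l).2.1 (f l).2.2 (cw (T (z (ψ₀ l)))))) _
    (fun l => hbz _ (hf l) _) (fun l => hbT _ (hf l) _)
  have hbε : ε ≤ ‖b‖ := ge_of_tendsto' hb.norm fun l => (hfε _).le
  -- the second functionals
  have h2 : ∀ l, ∃ f' : Tr × ℕ × ℕ, f'.1.Wf ∧ ε < ‖ev f'.1 (cut f'.2.1 f'.2.2
      (cw (T (z (ψ₀ l)) - (b / a) • inc (z (ψ₀ l)))))‖ := fun l => exists_functional hε.le (hfar l (b / a))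
  choose f' hf' hfε' using h2
  obtain ⟨ψ₂, a', b', hψ₂, ha', hb'⟩ := exists_two_limits
    (fun l => ev (f' (ψ₁ l)).1 (cut (f' (ψ₁ l)).2.1 (f' (ψ₁ l)).2.2 (cz (z (ψ₀ (ψ₁ l))))))
    (fun l => ev (f' (ψ₁ l)).1 (cut (f' (ψ₁ l)).2.1 (f' (ψ₁ l)).2.2 (cw (T (z (ψ₀ (ψ₁ l))))))) _
    (fun l => hbz _ (hf' _) _) (fun l => hbT _ (hf' _) _)
  have hbε' : ε ≤ ‖b' - (b / a) * a'‖ := by
    refine ge_of_tendsto' (hb'.sub (ha'.const_mul (b / a))).norm fun l => ?_
    have h3 := (hfε' (ψ₁ (ψ₂ l))).le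
    rw [map_sub, map_smul, cw_inc, map_sub, map_sub, map_smul, map_smul, smul_eq_mul] at h3
    exact h3
  have hA : Tendsto (fun l => ev (f (ψ₁ (ψ₂ l))).1 (cut (f (ψ₁ (ψ₂ l))).2.1 (f (ψ₁ (ψ₂ l))).2.2
      (cz (z (ψ₀ (ψ₁ (ψ₂ l))))))) atTop (𝓝 a) := ha.comp hψ₂.tendsto_atTop
  have hB : Tendsto (fun l => ev (f (ψ₁ (ψ₂ l))).1 (cut (f (ψ₁ (ψ₂ l))).2.1 (f (ψ₁ (ψ₂ l))).2.2
      (cw (T (z (ψ₀ (ψ₁ (ψ₂ l)))))))) atTop (𝓝 b) := hb.comp hψ₂.tendsto_atTop
  have hr := h₀.sub (hψ₁.comp hψ₂)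
  have core := fun (s t : ℂ) (hs : ‖s‖ ≤ 1) (ht : ‖t‖ ≤ 1) (h0 : s * a + t * a' = 0) =>
    opCore T (z := fun l => z (ψ₀ (ψ₁ (ψ₂ l)))) hr (fun l => f (ψ₁ (ψ₂ l))) (fun l => f' (ψ₁ (ψ₂ l)))
      (fun l => hf _) (fun l => hf' _) s t a b a' b' hs ht hA hB ha' hb' h0
  by_cases ha0 : a = 0
  · have h3 := core 1 0 (by simp) (by simp) (by rw [ha0]; ring)
    rw [one_mul, zero_mul, add_zero] at h3
    rw [h3, norm_zero] at hbε
    linarith
  · have hM : 0 < max ‖a‖ ‖a'‖ := lt_max_of_lt_left (norm_pos_iff.2 ha0)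
    set M := max ‖a‖ ‖a'‖
    have hMc : (M : ℂ) ≠ 0 := by exact_mod_cast hM.ne'
    have h3 := core (a' / M) (-a / M)
      (by rw [norm_div, Complex.norm_real, Real.norm_of_nonneg hM.le, div_le_one hM]; exact le_max_right _ _)
      (by rw [norm_div, norm_neg, Complex.norm_real, Real.norm_of_nonneg hM.le, div_le_one hM]; exact le_max_left _ _)
      (by field_simp; ring)
    have h4 : b' - (b / a) * a' = 0 := by
      field_simp at h3 ⊢
      linear_combination -h3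
    rw [h4, norm_zero] at hbε'
    linarith

/-- the multiples as a sequence -/
theorem opLemma' (T : ZT →L[ℂ] WT) (h : RIS C (fun l => cz (z l)) A B J) :
    ∃ d : ℕ → ℂ, Tendsto (fun l => T (z l) - d l • inc (z l)) atTop (𝓝 0) := by
  have h1 : ∀ l, ∃ d : ℂ, ∀ d' : ℂ, ‖T (z l) - d • inc (z l)‖ ≤ ‖T (z l) - d' • inc (z l)‖ + 1 / ((l : ℝ) + 1) := by
    intro l
    have hpos : 0 < 1 / ((l : ℝ) + 1) := by positivity
    obtain ⟨v, ⟨d, rfl⟩, hv⟩ := exists_lt_of_csInf_lt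
      (s := Set.range fun d : ℂ => ‖T (z l) - d • inc (z l)‖) ⟨_, ⟨0, rfl⟩⟩ (lt_add_of_pos_right _ hpos)
    refine ⟨d, fun d' => hv.le.trans (add_le_add ?_ le_rfl)⟩
    exact csInf_le ⟨0, by rintro _ ⟨d, rfl⟩; exact norm_nonneg _⟩ ⟨d', rfl⟩
  choose d hd using h1
  refine ⟨d, ?_⟩
  rw [tendsto_zero_iff_norm_tendsto_zero, Metric.tendsto_atTop]
  intro ε hε
  obtain ⟨N, hN⟩ := eventually_atTop.1 (opLemma T h (ε := ε / 4) (by positivity))
  obtain ⟨N', hN'⟩ := exists_nat_gt (2 / ε)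
  refine ⟨max N N', fun l hl => ?_⟩
  obtain ⟨d', hd'⟩ := hN l ((le_max_left _ _).trans hl)
  have h2 := hd l d'
  have h3 : 1 / ((l : ℝ) + 1) ≤ ε / 2 := by
    rw [div_le_iff₀ (by positivity)]
    have h4 : (N' : ℝ) ≤ l := by exact_mod_cast (le_max_right _ _).trans hl
    rw [div_lt_iff₀ hε] at hN'
    nlinarith
  rw [dist_zero_right, norm_norm]
  linarith

/-! ### generators -/

theorem exists_coord {k i : ℕ} (hi : i < 2 ^ k) : ∃ g < 2 ^ (k + 2), ‖gf k i k g‖ = 1 := by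
  have h1 := sys.sgsg k i hi i hi
  rw [if_pos rfl] at h1
  have h2 : ∃ g ∈ range (2 ^ (k + 2)), 1 ≤ sys.sg k i g * sys.sg k i g := by
    by_contra hcon
    push Not at hcon
    have h3 : ∑ g ∈ range (2 ^ (k + 2)), sys.sg k i g * sys.sg k i g < ∑ g ∈ range (2 ^ (k + 2)), 1 :=
      Finset.sum_lt_sum_of_nonempty ⟨0, mem_range.2 (by positivity)⟩ hcon
    rw [h1, sum_const, card_range, nsmul_eq_mul, mul_one] at h3
    push_cast at h3
    exact lt_irrefl _ h3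
  obtain ⟨g, hg, h3⟩ := h2
  rw [mem_range] at hg
  refine ⟨g, hg, ?_⟩
  have h4 : gf k i k g = ((sys.sg k i g : ℝ) : ℂ) := by
    unfold gf Pool.Agent.BAPp.ee
    simp only [if_pos hg, if_true]
  rw [h4, Complex.norm_real, Real.norm_eq_abs]
  refine le_antisymm (sys.sg_le _ _ _) ?_
  rw [← abs_one]
  apply sq_le_sq.1
  nlinarith

theorem one_le_norm_gz {k i : ℕ} (hi : i < 2 ^ k) : 1 ≤ ‖gz k i‖ := by
  obtain ⟨g, hg, h⟩ := exists_coord hi
  rw [← h, ← cz_gz hi, ← cw_inc, ← norm_inc]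
  exact norm_cw_le _ _ _

theorem gz_ris {k i : ℕ → ℕ} (hk : ∀ l, k l + 2 ≤ k (l + 1)) (hi : ∀ l, i l < 2 ^ k l) :
    RIS 2 (fun l => cz (gz (k l) (i l))) (fun l => k l - 1) k (fun l => l) := by
  have h : (fun l => cz (gz (k l) (i l))) = fun l => gf (k l) (i l) := funext fun l => cz_gz (hi l)
  rw [h]
  exact gf_ris hk

/-- the reference sequence -/
def eS (l : ℕ) : ZT := gz (2 * l + 1) 0

theorem eS_ris : RIS 2 (fun l => cz (eS l)) (fun l => 2 * l + 1 - 1) (fun l => 2 * l + 1) (fun l => l) :=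
  gz_ris (k := fun l => 2 * l + 1) (i := fun _ => 0) (fun l => by omega) (fun l => by positivity)

theorem exists_coord_eS (l : ℕ) : ∃ g, ‖cz (eS l) (2 * l + 1) g‖ = 1 := by
  obtain ⟨g, -, h⟩ := exists_coord (k := 2 * l + 1) (i := 0) (by positivity)
  exact ⟨g, by unfold eS; rw [cz_gz (by positivity)]; exact h⟩

/-- the point of the reference vector -/
def gS (l : ℕ) : ℕ := (exists_coord_eS l).choose

theorem norm_gS (l : ℕ) : ‖cz (eS l) (2 * l + 1) (gS l)‖ = 1 := (exists_coord_eS l).choose_spec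

/-- the quotients -/
def rS (T : ZT →L[ℂ] WT) (l : ℕ) : ℂ := cw (T (eS l)) (2 * l + 1) (gS l) / cz (eS l) (2 * l + 1) (gS l)

theorem norm_eS_le (l : ℕ) : ‖eS l‖ ≤ 2 := ZT.norm_le (by norm_num) (eS_ris.bd l)

theorem norm_rS_le (T : ZT →L[ℂ] WT) (l : ℕ) : ‖rS T l‖ ≤ ‖T‖ * 2 := by
  unfold rS
  rw [norm_div, norm_gS, div_one]
  refine (norm_cw_le _ _ _).trans ((T.le_opNorm _).trans ?_)
  exact mul_le_mul_of_nonneg_left (norm_eS_le l) (norm_nonneg _)

theorem exists_lam (T : ZT →L[ℂ] WT) : ∃ L : ℂ, Tendsto (rS T) (hyperfilter ℕ : Filter ℕ) (𝓝 L) := by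
  have h1 : IsCompact (Metric.closedBall (0 : ℂ) (‖T‖ * 2)) := isCompact_closedBall _ _
  have h2 : ((hyperfilter ℕ).map (rS T) : Filter ℂ) ≤ 𝓟 (Metric.closedBall (0 : ℂ) (‖T‖ * 2)) := by
    rw [le_principal_iff]
    show ∀ᶠ l in (hyperfilter ℕ : Filter ℕ), rS T l ∈ Metric.closedBall (0 : ℂ) (‖T‖ * 2)
    exact Eventually.of_forall fun l => by rw [mem_closedBall_zero_iff]; exact norm_rS_le T l
  obtain ⟨L, -, hL⟩ := h1.ultrafilter_le_nhds _ h2
  exact ⟨L, hL⟩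

/-- the scalar of an operator -/
def lamW (T : ZT →L[ℂ] WT) : ℂ := (exists_lam T).choose

theorem lamW_tendsto (T : ZT →L[ℂ] WT) : Tendsto (rS T) (hyperfilter ℕ : Filter ℕ) (𝓝 (lamW T)) :=
  (exists_lam T).choose_spec

/-- the fundamental property of the scalar -/
theorem lam_spec (T : ZT →L[ℂ] WT) (h : RIS C (fun l => cz (z l)) A B J) :
    Tendsto (fun l => T (z l) - lamW T • inc (z l)) atTop (𝓝 0) := by
  set T' : ZT →L[ℂ] WT := T - lamW T • inc with hT'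
  have hT'a : ∀ x, T' x = T x - lamW T • inc x := fun x => rfl
  have hr : Tendsto (rS T') (hyperfilter ℕ : Filter ℕ) (𝓝 0) := by
    have h1 : ∀ l, rS T' l = rS T l - lamW T := by
      intro l
      have h0 : cz (eS l) (2 * l + 1) (gS l) ≠ 0 := by
        intro h0
        have := norm_gS l
        rw [h0, norm_zero] at this
        norm_num at this
      unfold rS
      have h2 : cw (T' (eS l)) = cw (T (eS l)) - lamW T • cz (eS l) := by
        rw [hT'a, map_sub, map_smul, cw_inc]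
      rw [h2]
      show (cw (T (eS l)) (2 * l + 1) (gS l) - lamW T * cz (eS l) (2 * l + 1) (gS l)) / _ = _
      field_simp
    have h2 := (lamW_tendsto T).sub_const (lamW T)
    rw [sub_self] at h2
    exact h2.congr fun l => (h1 l).symm
  simp only [← hT'a]
  -- a subsequence of the reference sequence with small images
  have hsmall : ∀ n : ℕ, ∃ᶠ l in atTop, ‖T' (eS l)‖ < 1 / ((n : ℝ) + 1) := by
    intro n
    have hpos : 0 < 1 / ((n : ℝ) + 1) := by positivity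
    obtain ⟨d, hd⟩ := opLemma' T' eS_ris
    -- `d l` is close to `rS T' l`
    have h1 : Tendsto (fun l => rS T' l - d l) atTop (𝓝 0) := by
      rw [tendsto_zero_iff_norm_tendsto_zero]
      refine squeeze_zero (fun _ => norm_nonneg _) (fun l => ?_) (tendsto_zero_iff_norm_tendsto_zero.1 hd)
      have h0 : cz (eS l) (2 * l + 1) (gS l) ≠ 0 := by
        intro h0
        have := norm_gS l
        rw [h0, norm_zero] at this
        norm_num at this
      have h2 := norm_cw_le (T' (eS l) - d l • inc (eS l)) (2 * l + 1) (gS l)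
      rw [map_sub, map_smul, cw_inc] at h2
      have h3 : rS T' l - d l = (cw (T' (eS l)) (2 * l + 1) (gS l) - d l * cz (eS l) (2 * l + 1) (gS l)) /
          cz (eS l) (2 * l + 1) (gS l) := by
        unfold rS
        field_simp
      rw [h3, norm_div, norm_gS, div_one]
      exact h2
    have h2 : ∀ᶠ l in (hyperfilter ℕ : Filter ℕ), ‖rS T' l‖ < 1 / ((n : ℝ) + 1) / 6 := by
      have := (Metric.tendsto_nhds.1 hr) (1 / ((n : ℝ) + 1) / 6) (by positivity)
      filter_upwards [this] with l hl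
      rwa [dist_zero_right] at hl
    have h3 : ∃ᶠ l in atTop, ‖rS T' l‖ < 1 / ((n : ℝ) + 1) / 6 := by
      have h4 : ∃ᶠ l in (hyperfilter ℕ : Filter ℕ), ‖rS T' l‖ < 1 / ((n : ℝ) + 1) / 6 := h2.frequently
      rw [← Nat.cofinite_eq_atTop]
      exact h4.filter_mono hyperfilter_le_cofinite
    have h4 := (Metric.tendsto_nhds.1 h1) (1 / ((n : ℝ) + 1) / 6) (by positivity)
    have h5 := (Metric.tendsto_nhds.1 hd) (1 / ((n : ℝ) + 1) / 6) (by positivity)
    refine (h3.and_eventually (h4.and h5)).mono fun l hl => ?_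
    obtain ⟨e1, e2, e3⟩ := hl
    rw [dist_zero_right] at e2 e3
    have e4 : ‖d l‖ ≤ 1 / ((n : ℝ) + 1) / 6 + 1 / ((n : ℝ) + 1) / 6 := by
      have e5 : d l = rS T' l - (rS T' l - d l) := by ring
      rw [e5]
      exact (norm_sub_le _ _).trans (add_le_add e1.le e2.le)
    have e6 : T' (eS l) = (T' (eS l) - d l • inc (eS l)) + d l • inc (eS l) := by abel
    rw [e6]
    refine (norm_add_le _ _).trans_lt ?_
    rw [norm_smul, norm_inc]
    have e7 := norm_eS_le l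
    have e8 : ‖d l‖ * ‖eS l‖ ≤ (1 / ((n : ℝ) + 1) / 6 + 1 / ((n : ℝ) + 1) / 6) * 2 :=
      mul_le_mul e4 e7 (norm_nonneg _) (by positivity)
    linarith
  obtain ⟨κ, hκ, hκs⟩ := extraction_forall_of_frequently hsmall
  have hκ0 : Tendsto (fun l => T' (eS (κ l))) atTop (𝓝 0) := by
    rw [tendsto_zero_iff_norm_tendsto_zero]
    exact squeeze_zero (fun _ => norm_nonneg _) (fun l => (hκs l).le)
      (tendsto_one_div_add_atTop_nhds_zero_nat (𝕜 := ℝ))
  -- suppose the claim fails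
  by_contra hcon
  rw [Metric.tendsto_atTop] at hcon
  push Not at hcon
  obtain ⟨ε, hε, hfr⟩ := hcon
  have hfr' : ∃ᶠ l in atTop, ε ≤ ‖T' (z l)‖ := by
    rw [frequently_atTop]
    intro N
    obtain ⟨n, hn, hd⟩ := hfr N
    exact ⟨n, hn, by rwa [dist_zero_right] at hd⟩
  obtain ⟨ψ, hψ, hψε⟩ := extraction_of_frequently_atTop hfr'
  -- the sum sequence
  have hC1 := h.hC
  have hz := (h.sub hψ).mono_C (le_max_left C 2)
  have he := (eS_ris.sub hκ).mono_C (le_max_right C 2)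
  obtain ⟨m, hm, hm0⟩ := exists_fast (fun n => n + B (ψ n) + (2 * κ n + 1) + J (ψ (n + 1)) + κ (n + 1))
  have hmm : StrictMono m := strictMono_nat_of_lt_succ fun i => by have := hm i; omega
  obtain ⟨hsum, hsep⟩ := hz.add he hm hm0
  have hsum' : RIS (max C 2 + max C 2) (fun i => cz (z (ψ (m (2 * i))) + eS (κ (m (2 * i + 1)))))
      (fun i => A (ψ (m (2 * i)))) (fun i => 2 * κ (m (2 * i + 1)) + 1)
      (fun i => i + if i = 0 then 0 else J (ψ (m (2 * i - 2) + 1)) + κ (m (2 * i - 1) + 1)) := by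
    simpa only [map_add] using hsum
  obtain ⟨d, hd⟩ := opLemma' T' hsum'
  obtain ⟨d', hd'⟩ := opLemma' T' hz
  have ev2 : Tendsto (fun i : ℕ => 2 * i) atTop atTop :=
    tendsto_atTop_mono (fun i => by simp only [id]; omega) tendsto_id
  have ev21 : Tendsto (fun i : ℕ => 2 * i + 1) atTop atTop :=
    tendsto_atTop_mono (fun i => by simp only [id]; omega) tendsto_id
  have hd'' : Tendsto (fun i => T' (z (ψ (m (2 * i)))) - d' (m (2 * i)) • inc (z (ψ (m (2 * i))))) atTop (𝓝 0) :=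
    hd'.comp (hmm.tendsto_atTop.comp ev2)
  have he0 : Tendsto (fun i => T' (eS (κ (m (2 * i + 1))))) atTop (𝓝 0) :=
    hκ0.comp (hmm.tendsto_atTop.comp ev21)
  have hdiff : Tendsto (fun i => (d' (m (2 * i)) - d i) • inc (z (ψ (m (2 * i)))) - d i • inc (eS (κ (m (2 * i + 1)))))
      atTop (𝓝 0) := by
    have h1 := (hd.sub hd'').sub he0
    rw [sub_zero, sub_zero] at h1
    refine h1.congr fun i => ?_
    rw [map_add, map_add, sub_smul, smul_add]
    abel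
  -- the multiples tend to zero
  have hd0 : Tendsto d atTop (𝓝 0) := by
    rw [tendsto_zero_iff_norm_tendsto_zero]
    refine squeeze_zero (fun _ => norm_nonneg _) (fun i => ?_) (tendsto_zero_iff_norm_tendsto_zero.1 hdiff)
    have h1 := norm_cw_le ((d' (m (2 * i)) - d i) • inc (z (ψ (m (2 * i)))) - d i • inc (eS (κ (m (2 * i + 1)))))
      (2 * κ (m (2 * i + 1)) + 1) (gS (κ (m (2 * i + 1))))
    rw [map_sub, map_smul, map_smul, cw_inc, cw_inc] at h1
    have h2 : cz (z (ψ (m (2 * i)))) (2 * κ (m (2 * i + 1)) + 1) (gS (κ (m (2 * i + 1)))) = 0 := by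
      apply h.succ.1
      have := hsep i
      omega
    have h3 : ‖(d' (m (2 * i)) - d i) * cz (z (ψ (m (2 * i)))) (2 * κ (m (2 * i + 1)) + 1) (gS (κ (m (2 * i + 1)))) -
        d i * cz (eS (κ (m (2 * i + 1)))) (2 * κ (m (2 * i + 1)) + 1) (gS (κ (m (2 * i + 1))))‖ ≤
        ‖(d' (m (2 * i)) - d i) • inc (z (ψ (m (2 * i)))) - d i • inc (eS (κ (m (2 * i + 1))))‖ := h1
    rw [h2, mul_zero, zero_sub, norm_neg, norm_mul, norm_gS, mul_one] at h3
    exact h3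
  have hC : 0 ≤ max C 2 + max C 2 := by
    have := le_max_right C 2
    linarith
  have hTu : Tendsto (fun i => T' (z (ψ (m (2 * i))) + eS (κ (m (2 * i + 1))))) atTop (𝓝 0) := by
    have h1 : Tendsto (fun i => d i • inc (z (ψ (m (2 * i))) + eS (κ (m (2 * i + 1))))) atTop (𝓝 0) := by
      rw [tendsto_zero_iff_norm_tendsto_zero]
      have h2 := (tendsto_zero_iff_norm_tendsto_zero.1 hd0).mul_const (max C 2 + max C 2)
      rw [zero_mul] at h2
      refine squeeze_zero (fun _ => norm_nonneg _) (fun i => ?_) h2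
      rw [norm_smul, norm_inc]
      exact mul_le_mul_of_nonneg_left (ZT.norm_le hC (hsum'.bd i)) (norm_nonneg _)
    have h3 := hd.add h1
    rw [add_zero] at h3
    refine h3.congr fun i => ?_
    rw [sub_add_cancel]
  have hTz0 : Tendsto (fun i => T' (z (ψ (m (2 * i))))) atTop (𝓝 0) := by
    have h1 := hTu.sub he0
    rw [sub_zero] at h1
    refine h1.congr fun i => ?_
    rw [map_add, add_sub_cancel_right]
  have h1 := ge_of_tendsto' (tendsto_zero_iff_norm_tendsto_zero.1 hTz0) fun i => hψε (m (2 * i))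
  linarith

end

end Pool.Agent.TH313.HI
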