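import Pool.Agent.TH313.HI.Space3

/-! Permanence of rapidly increasing sequences; they are weakly null. -/

set_option autoImplicit false

namespace Pool.Agent.TH313.HI

open Finset Filter Topology
open scoped BoundedContinuousFunction

noncomputable section

variable {C : ℝ} {u u' : ℕ → V} {A B J A' B' J' : ℕ → ℕ}

theorem RIS.sub (h : RIS C u A B J) {φ : ℕ → ℕ} (hφ : StrictMono φ) :
    RIS C (fun l => u (φ l)) (fun l => A (φ l)) (fun l => B (φ l)) (fun l => J (φ l)) := by
  refine ⟨h.hC, ⟨fun l => h.succ.1 _, fun l => h.succ.2.1 _, fun l l' hl => h.succ.2.2 _ _ (hφ hl)⟩,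
    fun l => h.bd _, h.mono.comp hφ, fun l => h.low (φ l), fun l t hw i hi hJ α β => ?_⟩
  have h1 : J (φ l + 1) ≤ i := (h.mono.monotone (hφ (Nat.lt_succ_self l))).trans hJ
  refine (h.high (φ l) t hw i hi h1 α β).trans ?_
  exact pow_le_pow_of_le_one (by norm_num) (by norm_num) (hφ.id_le l)

theorem RIS.phase (h : RIS C u A B J) {θ : ℕ → ℂ} (hθ : ∀ l, ‖θ l‖ ≤ 1) :
    RIS C (fun l => θ l • u l) A B J := by
  have key : ∀ l t α β (c : ℝ), ‖ev t (cut α β (u l))‖ ≤ c → ‖ev t (cut α β (θ l • u l))‖ ≤ c := by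
    intro l t α β c hc
    rw [map_smul, map_smul, norm_smul]
    calc ‖θ l‖ * ‖ev t (cut α β (u l))‖ ≤ 1 * ‖ev t (cut α β (u l))‖ :=
          mul_le_mul_of_nonneg_right (hθ l) (norm_nonneg _)
      _ ≤ c := by rw [one_mul]; exact hc
  refine ⟨h.hC, ⟨fun l k g hk => ?_, h.succ.2.1, h.succ.2.2⟩, fun l t hw α β => key _ _ _ _ _ (h.bd l t hw α β),
    h.mono, fun l t hw i hi hJ α β => key _ _ _ _ _ (h.low l t hw i hi hJ α β),
    fun l t hw i hi hJ α β => key _ _ _ _ _ (h.high l t hw i hi hJ α β)⟩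
  show θ l • u l k g = 0
  rw [h.succ.1 l k g hk, smul_zero]

theorem RIS.mono_C (h : RIS C u A B J) {D : ℝ} (hCD : C ≤ D) : RIS D u A B J := by
  refine ⟨h.hC.trans hCD, h.succ, fun l t hw α β => (h.bd l t hw α β).trans hCD, h.mono,
    fun l t hw i hi hJ α β => (h.low l t hw i hi hJ α β).trans ?_, h.high⟩
  exact div_le_div_of_nonneg_right hCD (mm_pos' i).le

theorem RIS.le_A (h : RIS C u A B J) (l : ℕ) : l ≤ A l := by
  have : StrictMono A := strictMono_nat_of_lt_succ fun l =>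
    lt_of_le_of_lt (h.succ.2.1 l) (h.succ.2.2 l (l + 1) (Nat.lt_succ_self l))
  exact this.id_le l

theorem RIS.le_J (h : RIS C u A B J) (l : ℕ) : l ≤ J l := h.mono.id_le l

/-- sums of two rapidly increasing sequences -/
theorem RIS.add (h : RIS C u A B J) (h' : RIS C u' A' B' J') {m : ℕ → ℕ} (hm : ∀ i,
    m i + B (m i) + B' (m i) + J (m i + 1) + J' (m i + 1) < m (i + 1)) (hm0 : 0 < m 0) :
    RIS (C + C) (fun i => u (m (2 * i)) + u' (m (2 * i + 1))) (fun i => A (m (2 * i)))
      (fun i => B' (m (2 * i + 1))) (fun i => i + if i = 0 then 0 else J (m (2 * i - 2) + 1) + J' (m (2 * i - 1) + 1)) ∧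
    (∀ i, B (m (2 * i)) < A' (m (2 * i + 1))) := by
  have hC : 0 ≤ C := by linarith [h.hC]
  have hmm : StrictMono m := strictMono_nat_of_lt_succ fun i => by have := hm i; omega
  have hmi : ∀ i, i + 1 ≤ m i := by
    intro i
    induction i with
    | zero => exact hm0
    | succ i ih => have := hmm (Nat.lt_succ_self i); simp only [Nat.succ_eq_add_one] at this; omega
  have hA := h.le_A
  have hA' := h'.le_A
  have hJ := h.le_J
  have hJ' := h'.le_J
  have hB : ∀ l, l ≤ B l := fun l => (hA l).trans (h.succ.2.1 l)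
  have hB' : ∀ l, l ≤ B' l := fun l => (hA' l).trans (h'.succ.2.1 l)
  have hsep : ∀ i, B (m (2 * i)) < A' (m (2 * i + 1)) := by
    intro i
    have h1 := hm (2 * i)
    have h2 := hA' (m (2 * i + 1))
    omega
  have hAB' : ∀ i, A (m (2 * i)) ≤ B' (m (2 * i + 1)) := by
    intro i
    have h1 := hsep i
    have h2 := h.succ.2.1 (m (2 * i))
    have h3 := h'.succ.2.1 (m (2 * i + 1))
    omega
  have hnext : ∀ i, B' (m (2 * i + 1)) < A (m (2 * (i + 1))) := by
    intro i
    have h1 := hm (2 * i + 1)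
    have h2 := hA (m (2 * (i + 1)))
    have h3 : 2 * (i + 1) = 2 * i + 1 + 1 := by ring
    rw [h3] at h2 ⊢
    omega
  have hAm : StrictMono fun i => A (m (2 * i)) := strictMono_nat_of_lt_succ fun i =>
    lt_of_le_of_lt (hAB' i) (hnext i)
  refine ⟨⟨by linarith [h.hC], ⟨?_, hAB', ?_⟩, ?_, ?_, ?_, ?_⟩, hsep⟩
  · intro i k g hk
    show u (m (2 * i)) k g + u' (m (2 * i + 1)) k g = 0
    simp only at hk
    have h1 := hsep i
    have h2 := h.succ.2.1 (m (2 * i))
    have h3 := h'.succ.2.1 (m (2 * i + 1))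
    rw [h.succ.1 _ k g (by omega), h'.succ.1 _ k g (by omega), add_zero]
  · intro i i' hi
    have h1 := hnext i
    have h2 := hAm.monotone (show i + 1 ≤ i' from hi)
    exact lt_of_lt_of_le h1 h2
  · intro i t hw α β
    rw [map_add, map_add]
    exact (norm_add_le _ _).trans (add_le_add (h.bd _ t hw α β) (h'.bd _ t hw α β))
  · refine strictMono_nat_of_lt_succ fun i => ?_
    rw [if_neg (by omega : ¬ i + 1 = 0)]
    have h3 : 2 * (i + 1) - 2 = 2 * i := by omega
    have h4 : 2 * (i + 1) - 1 = 2 * i + 1 := by omega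
    rw [h3, h4]
    rcases Nat.eq_zero_or_pos i with h0 | h0
    · subst h0
      simp only [if_true]
      omega
    · rw [if_neg (by omega)]
      have h5 : J (m (2 * i - 2) + 1) ≤ J (m (2 * i) + 1) := by
        apply h.mono.monotone
        have := hmm.monotone (show 2 * i - 2 ≤ 2 * i by omega)
        omega
      have h6 : J' (m (2 * i - 1) + 1) ≤ J' (m (2 * i + 1) + 1) := by
        apply h'.mono.monotone
        have := hmm.monotone (show 2 * i - 1 ≤ 2 * i + 1 by omega)
        omega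
      omega
  · intro i t hw n hn hJn α β
    rw [map_add, map_add, add_div]
    have hlow : n < J (m (2 * i)) ∧ n < J' (m (2 * i + 1)) := by
      rcases Nat.eq_zero_or_pos i with h0 | h0
      · subst h0
        simp at hJn
      · rw [if_neg (by omega)] at hJn
        have h1 := hm (2 * i - 2)
        have h2 := hm (2 * i - 1)
        have h3 : 2 * i - 2 + 1 = 2 * i - 1 := by omega
        have h4 : 2 * i - 1 + 1 = 2 * i := by omega
        rw [h3] at h1
        rw [h4] at h2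
        have h5 := hJ (m (2 * i))
        have h6 := hJ' (m (2 * i + 1))
        have h7 := hmm (show 2 * i < 2 * i + 1 by omega)
        have h8 := hB (m (2 * i - 1))
        have h9 := hmi (2 * i - 1)
        constructor <;> omega
    exact (norm_add_le _ _).trans (add_le_add (h.low _ t hw n hn hlow.1 α β) (h'.low _ t hw n hn hlow.2 α β))
  · intro i t hw n hn hJn α β
    rw [map_add, map_add]
    rw [if_neg (by omega : ¬ i + 1 = 0)] at hJn
    have h3 : 2 * (i + 1) - 2 = 2 * i := by omega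
    have h4 : 2 * (i + 1) - 1 = 2 * i + 1 := by omega
    rw [h3, h4] at hJn
    have e1 := h.high (m (2 * i)) t hw n hn (by omega) α β
    have e2 := h'.high (m (2 * i + 1)) t hw n hn (by omega) α β
    have f1 : ((1 : ℝ) / 2) ^ m (2 * i) ≤ (1 / 2) ^ (i + 1) :=
      pow_le_pow_of_le_one (by norm_num) (by norm_num) (by have := hmi (2 * i); omega)
    have f2 : ((1 : ℝ) / 2) ^ m (2 * i + 1) ≤ (1 / 2) ^ (i + 1) :=
      pow_le_pow_of_le_one (by norm_num) (by norm_num) (by have := hmi (2 * i + 1); omega)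
    refine (norm_add_le _ _).trans ?_
    have f3 : ((1 : ℝ) / 2) ^ i = (1 / 2) ^ (i + 1) + (1 / 2) ^ (i + 1) := by rw [pow_succ]; ring
    rw [f3]
    exact add_le_add (e1.trans f1) (e2.trans f2)

/-- the existence of a fast sequence -/
theorem exists_fast (Φ : ℕ → ℕ) : ∃ m : ℕ → ℕ, (∀ i, Φ (m i) < m (i + 1)) ∧ 0 < m 0 :=
  ⟨fun i => Nat.rec 1 (fun _ n => Φ n + 1) i, fun _ => Nat.lt_succ_self _, Nat.one_pos⟩

/-- generators form rapidly increasing sequences -/
theorem gf_ris {k i : ℕ → ℕ} (hk : ∀ l, k l + 2 ≤ k (l + 1)) :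
    RIS 2 (fun l => gf (k l) (i l)) (fun l => k l - 1) k (fun l => l) := by
  have hkm : StrictMono k := strictMono_nat_of_lt_succ fun l => by have := hk l; omega
  refine ⟨by norm_num, ⟨fun l => gf_lv _ _, fun l => Nat.sub_le _ _, fun l l' hl => ?_⟩, fun l => gf_bd _ _,
    strictMono_id, ?_, ?_⟩
  · have h1 := hk l
    have h2 := hkm.monotone (show l + 1 ≤ l' from hl)
    show k l < k l' - 1
    omega
  · intro l t hw n hn _ α β
    exact gf_node _ _ t hw n hn α β
  · intro l t hw n hn hJ α β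
    refine (gf_node _ _ t hw n hn α β).trans ?_
    have h1 : l + 1 ≤ n := hJ
    have h2 : (2 : ℝ) ^ (l + 1) ≤ mm n := by
      have h3 : l + 1 ≤ 2 ^ (n + 1) := h1.trans ((Nat.le_succ n).trans Nat.lt_two_pow_self.le)
      have h4 : 2 ^ (l + 1) ≤ mm n := by
        unfold mm
        exact Nat.pow_le_pow_right (by norm_num) h3
      exact_mod_cast h4
    rw [div_le_iff₀ (mm_pos' n)]
    calc (2 : ℝ) = (1 / 2) ^ l * 2 ^ (l + 1) := by
          rw [pow_succ, ← mul_assoc, ← mul_pow]; norm_num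
      _ ≤ (1 / 2) ^ l * mm n := mul_le_mul_of_nonneg_left h2 (by positivity)

/-- rapidly increasing sequences are weakly null -/
theorem RIS.weakNull {z : ℕ → ZT} (h : RIS C (fun l => cz (z l)) A B J) (φ : ZT →L[ℂ] ℂ) :
    Tendsto (fun l => φ (z l)) atTop (𝓝 0) := by
  by_contra hcon
  rw [Metric.tendsto_atTop] at hcon
  push Not at hcon
  obtain ⟨ε, hε, hfr⟩ := hcon
  have hfr' : ∃ᶠ l in atTop, ε ≤ ‖φ (z l)‖ := by
    rw [frequently_atTop]
    intro N
    obtain ⟨n, hn, hd⟩ := hfr N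
    exact ⟨n, hn, by rwa [dist_zero_right] at hd⟩
  obtain ⟨ψ, hψ, hψε⟩ := extraction_of_frequently_atTop hfr'
  choose θ hθ hθφ using fun l => show ∃ c : ℂ, ‖c‖ ≤ 1 ∧ c * φ (z (ψ l)) = ‖φ (z (ψ l))‖ by
    refine ⟨(starRingEnd ℂ) (φ (z (ψ l))) / ‖φ (z (ψ l))‖, ?_, ?_⟩
    · rw [norm_div, RCLike.norm_conj, Complex.norm_real, norm_norm]
      exact div_self_le_one _
    · have h0 : (‖φ (z (ψ l))‖ : ℂ) ≠ 0 := by
        have := hε.trans_le (hψε l)
        exact_mod_cast this.ne'
      rw [div_mul_eq_mul_div, div_eq_iff h0, ← Complex.normSq_eq_conj_mul_self, Complex.normSq_eq_norm_sq]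
      push_cast
      ring
  have h1 : RIS C (fun l => cz (θ l • z (ψ l))) (fun l => A (ψ l)) (fun l => B (ψ l)) (fun l => J (ψ l)) := by
    have := (h.sub hψ).phase hθ
    simpa only [map_smul] using this
  obtain ⟨q, hq⟩ := exists_nat_gt (‖φ‖ * (4 * C) / ε)
  have hbd := h1.avg_bd (I := range (nn q)) (q := q) (by rw [card_range])
  have hC : 0 ≤ 4 * C := by linarith [h.hC]
  have h2 : ‖((mm q : ℂ) / nn q) • ∑ l ∈ range (nn q), θ l • z (ψ l)‖ ≤ 4 * C := by
    apply ZT.norm_le hC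
    rw [map_smul, map_sum]
    exact hbd
  have h3 := (φ.le_opNorm (((mm q : ℂ) / nn q) • ∑ l ∈ range (nn q), θ l • z (ψ l))).trans
    (mul_le_mul_of_nonneg_left h2 (norm_nonneg _))
  rw [map_smul, map_sum, norm_smul] at h3
  have h4 : ∑ l ∈ range (nn q), φ (θ l • z (ψ l)) = ((∑ l ∈ range (nn q), ‖φ (z (ψ l))‖ : ℝ) : ℂ) := by
    push_cast
    refine Finset.sum_congr rfl fun l _ => ?_
    rw [map_smul, smul_eq_mul, hθφ]
  have h5 : (nn q : ℝ) * ε ≤ ∑ l ∈ range (nn q), ‖φ (z (ψ l))‖ := by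
    calc (nn q : ℝ) * ε = ∑ l ∈ range (nn q), ε := by rw [sum_const, card_range, nsmul_eq_mul]
      _ ≤ _ := Finset.sum_le_sum fun l _ => hψε l
  have hn := nn_pos' q
  have hm := mm_pos' q
  rw [h4, Complex.norm_real, Real.norm_of_nonneg (le_trans (by positivity) h5), norm_div,
    Complex.norm_natCast, Complex.norm_natCast] at h3
  have h6 : (mm q : ℝ) * ε ≤ ‖φ‖ * (4 * C) := by
    refine le_trans ?_ h3
    calc (mm q : ℝ) * ε = mm q / nn q * (nn q * ε) := by field_simp
      _ ≤ _ := mul_le_mul_of_nonneg_left h5 (by positivity)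
  rw [div_lt_iff₀ hε] at hq
  have h7 := lt_mm' q
  nlinarith

end

end Pool.Agent.TH313.HI
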