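import Pool.Agent.TH313.HI.Dep
import Pool.Agent.H812R2.AP.Davie

/-! The ambient space `W` and the Davie subspace `Z`. -/

set_option autoImplicit false

namespace Pool.Agent.TH313.HI

open Finset Filter Topology
open scoped BoundedContinuousFunction

noncomputable section

/-- restricted admissible trees -/
def Idx : Type := {s : Tr × ℕ × ℕ // s.1.Wf}

instance : TopologicalSpace Idx := ⊥
instance : DiscreteTopology Idx := ⟨rfl⟩

/-- the ambient space of bounded functions -/
abbrev AA : Type := Idx →ᵇ ℂ

/-- the index of a tree and an interval -/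
def ix (t : Tr) (h : t.Wf) (a b : ℕ) : Idx := ⟨(t, a, b), h⟩

/-- the coordinates -/
def co : AA →ₗ[ℂ] V where
  toFun w := fun k g => if h : g < 2 ^ (k + 2) then w (ix (.base k g) h k k) else 0
  map_add' w w' := by
    funext k g
    by_cases h : g < 2 ^ (k + 2)
    · simp only [dif_pos h, Pi.add_apply, BoundedContinuousFunction.add_apply]
    · simp only [dif_neg h, Pi.add_apply, add_zero]
  map_smul' c w := by
    funext k g
    by_cases h : g < 2 ^ (k + 2)
    · simp only [dif_pos h, Pi.smul_apply, BoundedContinuousFunction.smul_apply, RingHom.id_apply]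
    · simp only [dif_neg h, Pi.smul_apply, RingHom.id_apply, smul_zero]

theorem co_apply (w : AA) (k g : ℕ) : co w k g = if h : g < 2 ^ (k + 2) then w (ix (.base k g) h k k) else 0 := rfl

theorem continuous_co (k g : ℕ) : Continuous fun w : AA => co w k g := by
  simp only [co_apply]
  by_cases h : g < 2 ^ (k + 2)
  · simp only [dif_pos h]
    exact continuous_eval_const _
  · simp only [dif_neg h]
    exact continuous_const

theorem continuous_ev (t : Tr) : ∀ a b : ℕ, Continuous fun w : AA => ev t (cut a b (co w)) := by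
  induction t with
  | base k g =>
    intro a b
    simp only [ev_base, cut_apply]
    by_cases h : a ≤ k ∧ k ≤ b
    · simp only [if_pos h]
      exact continuous_co k g
    · simp only [if_neg h]
      exact continuous_const
  | node j d c a' b' t ih =>
    intro a b
    simp only [ev_node, cut_cut]
    exact continuous_const.mul (continuous_finsetSum _ fun i _ => continuous_const.mul (ih i _ _))

/-- the space `W` of coherent functions -/
def W : Submodule ℂ AA where
  carrier := {w | ∀ s : Idx, w s = ev s.1.1 (cut s.1.2.1 s.1.2.2 (co w))}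
  zero_mem' := by
    intro s
    rw [map_zero, map_zero, map_zero]
    rfl
  add_mem' := by
    intro w w' h h' s
    rw [BoundedContinuousFunction.add_apply, h s, h' s, map_add, map_add, map_add]
  smul_mem' := by
    intro c w h s
    rw [BoundedContinuousFunction.smul_apply, h s, map_smul, map_smul, map_smul]

theorem isClosed_W : IsClosed (W : Set AA) := by
  have : (W : Set AA) = ⋂ s : Idx, {w | w s = ev s.1.1 (cut s.1.2.1 s.1.2.2 (co w))} := by
    ext w
    simp only [Set.mem_iInter, Set.mem_ofPred_eq]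
    rfl
  rw [this]
  refine isClosed_iInter fun s => isClosed_eq ?_ (continuous_ev _ _ _)
  exact continuous_eval_const _

/-- `W` as a type -/
def WT : Type := ↥W

instance : NormedAddCommGroup WT := inferInstanceAs (NormedAddCommGroup ↥W)
instance : NormedSpace ℂ WT := inferInstanceAs (NormedSpace ℂ ↥W)
instance : CompleteSpace WT := (isClosed_W.completeSpace_coe : CompleteSpace ↥W)

/-- the underlying bounded function -/
def WT.val : WT →ₗ[ℂ] AA := W.subtype

/-- the element of `W` given by a coherent function -/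
def WT.mk (w : AA) (h : w ∈ W) : WT := (⟨w, h⟩ : ↥W)

theorem WT.val_mk (w : AA) (h : w ∈ W) : (WT.mk w h).val = w := rfl

theorem WT.val_mem (w : WT) : w.val ∈ W := Subtype.property (p := fun z => z ∈ W) w

theorem WT.norm_val (w : WT) : ‖w.val‖ = ‖w‖ := rfl

theorem WT.val_injective : Function.Injective WT.val := Subtype.val_injective

/-- the coordinates of an element of `W` -/
def cw : WT →ₗ[ℂ] V := co.comp WT.val

theorem cw_apply (w : WT) : cw w = co w.val := rfl

theorem WT.apply (w : WT) (t : Tr) (h : t.Wf) (a b : ℕ) : w.val (ix t h a b) = ev t (cut a b (cw w)) :=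
  w.val_mem (ix t h a b)

theorem WT.bd (w : WT) : Bd ‖w‖ (cw w) := by
  intro t h a b
  rw [← WT.apply w t h a b, ← WT.norm_val]
  exact w.val.norm_coe_le_norm _

theorem WT.norm_le {w : WT} {C : ℝ} (hC : 0 ≤ C) (h : Bd C (cw w)) : ‖w‖ ≤ C := by
  have : ‖w.val‖ ≤ C := (BoundedContinuousFunction.norm_le hC).2 fun s => by
    have h1 := WT.apply w s.1.1 s.2 s.1.2.1 s.1.2.2
    have h2 : ix s.1.1 s.2 s.1.2.1 s.1.2.2 = s := rfl
    rw [h2] at h1
    rw [h1]
    exact h s.1.1 s.2 _ _
  exact this

/-- functions which vanish outside the admissible points -/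
def Adm (x : V) : Prop := ∀ k g, ¬ g < 2 ^ (k + 2) → x k g = 0

theorem adm_cw (w : WT) : Adm (cw w) := by
  intro k g h
  rw [cw_apply, co_apply, dif_neg h]

/-- the element of `W` with given coordinates -/
def ofV (x : V) (C : ℝ) (h : Bd C x) (ha : Adm x) : WT :=
  WT.mk (BoundedContinuousFunction.ofNormedAddCommGroupDiscrete (fun s : Idx => ev s.1.1 (cut s.1.2.1 s.1.2.2 x)) C
    (fun s => h s.1.1 s.2 _ _)) (by
    have hco : co (BoundedContinuousFunction.ofNormedAddCommGroupDiscrete
        (fun s : Idx => ev s.1.1 (cut s.1.2.1 s.1.2.2 x)) C (fun s => h s.1.1 s.2 _ _)) = x := by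
      funext k g
      rw [co_apply]
      split_ifs with h1
      · show ev (.base k g) (cut k k x) = x k g
        rw [ev_base, cut_apply, if_pos ⟨le_rfl, le_rfl⟩]
      · exact (ha k g h1).symm
    intro s
    rw [hco]
    rfl)

theorem cw_ofV (x : V) (C : ℝ) (h : Bd C x) (ha : Adm x) : cw (ofV x C h ha) = x := by
  funext k g
  show co _ k g = _
  rw [co_apply]
  split_ifs with h1
  · show ev (.base k g) (cut k k x) = x k g
    rw [ev_base, cut_apply, if_pos ⟨le_rfl, le_rfl⟩]
  · exact (ha k g h1).symm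

theorem cw_injective : Function.Injective cw := by
  intro w w' h
  apply WT.val_injective
  ext s
  have h1 := WT.apply w s.1.1 s.2 s.1.2.1 s.1.2.2
  have h2 := WT.apply w' s.1.1 s.2 s.1.2.1 s.1.2.2
  rw [h] at h1
  exact h1.trans h2.symm

theorem Adm.cut {x : V} (h : Adm x) (a b : ℕ) : Adm (cut a b x) := by
  intro k g hk
  rw [cut_apply, h k g hk]
  simp

theorem Bd.cut {x : V} {C : ℝ} (h : Bd C x) (a b : ℕ) : Bd C (HI.cut a b x) := by
  intro t hw a' b'
  rw [cut_cut]
  exact h t hw _ _

theorem Bd.add {x y : V} {C D : ℝ} (h : Bd C x) (h' : Bd D y) : Bd (C + D) (x + y) := by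
  intro t hw a b
  rw [map_add, map_add]
  exact (norm_add_le _ _).trans (add_le_add (h t hw a b) (h' t hw a b))

theorem Bd.smul {x : V} {C : ℝ} (h : Bd C x) (c : ℂ) : Bd (‖c‖ * C) (c • x) := by
  intro t hw a b
  rw [map_smul, map_smul, norm_smul]
  exact mul_le_mul_of_nonneg_left (h t hw a b) (norm_nonneg _)

theorem Bd.mono {x : V} {C D : ℝ} (h : Bd C x) (hCD : C ≤ D) : Bd D x :=
  fun t hw a b => (h t hw a b).trans hCD

/-- restriction as an operator on `W` -/
def res (a b : ℕ) (w : WT) : WT := ofV (cut a b (cw w)) ‖w‖ (w.bd.cut a b) ((adm_cw w).cut a b)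

theorem cw_res (a b : ℕ) (w : WT) : cw (res a b w) = cut a b (cw w) := cw_ofV _ _ _ _

theorem norm_res_le (a b : ℕ) (w : WT) : ‖res a b w‖ ≤ ‖w‖ :=
  WT.norm_le (norm_nonneg _) (by rw [cw_res]; exact w.bd.cut a b)

/-- coordinates are bounded by the norm -/
theorem norm_cw_le (w : WT) (k g : ℕ) : ‖cw w k g‖ ≤ ‖w‖ := by
  by_cases h : g < 2 ^ (k + 2)
  · have := w.bd (.base k g) h k k
    rwa [ev_base, cut_apply, if_pos ⟨le_rfl, le_rfl⟩] at this
  · rw [adm_cw w k g h, norm_zero]
    exact norm_nonneg _

/-- small coordinates on finitely many levels -/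
theorem bd_of_coord {x : V} {A B : ℕ} (hx : OnLv A B x) {η : ℝ} (hη : 0 ≤ η)
    (h : ∀ k, A ≤ k → k ≤ B → ∀ g < 2 ^ (k + 2), ‖x k g‖ ≤ η) : Bd (((B : ℝ) + 1) * η) x := by
  intro t hw a b
  refine (ev_le_sum hx (fun _ => η) (fun _ => hη) (fun k g hg => ?_) t hw a b).trans ?_
  · by_cases hk : A ≤ k ∧ k ≤ B
    · exact h k hk.1 hk.2 g hg
    · rw [hx k g (by omega), norm_zero]; exact hη
  · rw [Finset.sum_const, nsmul_eq_mul, Nat.card_Icc]
    refine mul_le_mul_of_nonneg_right ?_ hη
    have : B + 1 - A ≤ B + 1 := Nat.sub_le _ _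
    exact_mod_cast this

end

end Pool.Agent.TH313.HI
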