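import Pool.Agent.TH313.HI.Space

/-! Lower estimates, tails, the Davie subspace, approximation by vectors of finite level. -/

set_option autoImplicit false

namespace Pool.Agent.TH313.HI

open Finset Filter Topology
open scoped BoundedContinuousFunction

noncomputable section

theorem exists_phase (v : ℂ) : ∃ c : ℚ × ℚ, ‖cc c‖ ≤ 1 ∧ ‖v‖ / 2 ≤ (cc c * v).re := by
  have h1 : ‖v‖ ≤ |v.re| + |v.im| := Complex.norm_le_abs_re_add_abs_im v
  rcases le_total |v.im| |v.re| with h | h
  · rcases le_total 0 v.re with h0 | h0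
    · refine ⟨(1, 0), by simp [cc], ?_⟩
      rw [abs_of_nonneg h0] at h h1
      simp only [cc, Rat.cast_one, Rat.cast_zero, zero_mul, add_zero, one_mul]
      linarith
    · refine ⟨(-1, 0), by simp [cc], ?_⟩
      rw [abs_of_nonpos h0] at h h1
      simp only [cc, Rat.cast_neg, Rat.cast_one, Rat.cast_zero, zero_mul, add_zero, neg_mul, one_mul,
        Complex.neg_re]
      linarith
  · rcases le_total 0 v.im with h0 | h0
    · refine ⟨(0, -1), by simp [cc], ?_⟩
      rw [abs_of_nonneg h0] at h h1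
      simp only [cc, Rat.cast_zero, Rat.cast_neg, Rat.cast_one, zero_add, neg_mul, one_mul,
        Complex.neg_re, Complex.mul_re, Complex.I_re, Complex.I_im, zero_mul]
      linarith
    · refine ⟨(0, 1), by simp [cc], ?_⟩
      rw [abs_of_nonpos h0] at h h1
      simp only [cc, Rat.cast_zero, Rat.cast_one, zero_add, one_mul,
        Complex.mul_re, Complex.I_re, Complex.I_im, zero_mul]
      linarith

/-- the lower estimate -/
theorem lower {x : V} {M : ℝ} (h : Bd M x) {j : ℕ} (hj : j % 2 = 0) {d : ℕ} (hd : d ≤ nn j)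
    (a b : Fin d → ℕ) (hs : ∀ i i', i < i' → b i < a i') {δ : ℝ} (hδ : 0 < δ)
    (hv : ∀ i, ∃ t : Tr, t.Wf ∧ ∃ α β, δ ≤ ‖ev t (cut α β (cut (a i) (b i) x))‖) :
    (d : ℝ) * δ ≤ 2 * mm j * M := by
  choose t ht α β hv using hv
  choose c hc hcv using fun i => exists_phase (ev (t i) (cut (α i) (β i) (cut (a i) (b i) x)))
  have hne : ∀ i, max (α i) (a i) ≤ min (β i) (b i) := by
    intro i
    by_contra hcon
    have h1 : cut (α i) (β i) (cut (a i) (b i) x) = 0 := by
      rw [cut_cut]
      funext k g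
      rw [cut_apply, if_neg (by omega)]
      rfl
    have h2 := hv i
    rw [h1, map_zero, norm_zero] at h2
    linarith
  have hw : (Tr.node j d c (fun i => max (α i) (a i)) (fun i => min (β i) (b i)) t).Wf := by
    refine ⟨hd, ht, hc, hne, ?_, ?_⟩
    · intro i i' hii'
      have h1 := hs i i' hii'
      have h2 := le_max_right (α i') (a i')
      have h3 := min_le_right (β i) (b i)
      show min (β i) (b i) < max (α i') (a i')
      omega
    · intro h1; omega
  by_cases hd0 : d = 0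
  · subst hd0
    have := h (.base 0 0) (by show 0 < 2 ^ (0 + 2); norm_num) 0 0
    have hM : 0 ≤ M := (norm_nonneg _).trans this
    simp only [Nat.cast_zero, zero_mul]
    positivity
  -- an interval which contains everything relevant
  have h1 := h _ hw 0 (∑ i, b i)
  rw [ev_node, norm_mul, norm_inv, Complex.norm_natCast] at h1
  have h2 : ∀ i, cut (max (α i) (a i)) (min (β i) (b i)) (cut 0 (∑ i, b i) x) =
      cut (α i) (β i) (cut (a i) (b i) x) := by
    intro i
    rw [cut_cut, cut_cut]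
    have h3 : b i ≤ ∑ i, b i := Finset.single_le_sum (fun _ _ => Nat.zero_le _) (Finset.mem_univ i)
    congr 1
    have h4 := min_le_right (β i) (b i)
    rw [min_eq_left (h4.trans h3)]
    congr 1
    exact max_eq_left (Nat.zero_le _)
  simp only [h2] at h1
  have h3 : (d : ℝ) * δ / 2 ≤ ‖∑ i, cc (c i) * ev (t i) (cut (α i) (β i) (cut (a i) (b i) x))‖ := by
    refine le_trans ?_ (Complex.re_le_norm _)
    rw [Complex.re_sum]
    calc (d : ℝ) * δ / 2 = ∑ i : Fin d, δ / 2 := by
          rw [Finset.sum_const, Finset.card_univ, Fintype.card_fin, nsmul_eq_mul]; ring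
      _ ≤ _ := Finset.sum_le_sum fun i _ => by
          refine le_trans ?_ (hcv i)
          linarith [hv i]
  have hm := mm_pos' j
  rw [inv_mul_le_iff₀ hm] at h1
  linarith

/-- tails of elements of `W` tend to zero -/
theorem tail (w : WT) {ε : ℝ} (hε : 0 < ε) : ∃ N, ∀ a b, N ≤ a → Bd ε (cut a b (cw w)) := by
  by_contra hcon
  push Not at hcon
  have hcon' : ∀ N, ∃ a b, N ≤ a ∧ a ≤ b ∧ ∃ t : Tr, t.Wf ∧ ∃ α β, ε ≤ ‖ev t (cut α β (cut a b (cw w)))‖ := by
    intro N
    obtain ⟨a, b, hN, h⟩ := hcon N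
    unfold Bd at h
    push Not at h
    obtain ⟨t, ht, α, β, h⟩ := h
    refine ⟨a, b, hN, ?_, t, ht, α, β, h.le⟩
    by_contra hab
    have h1 : cut a b (cw w) = 0 := by
      funext k g
      rw [cut_apply, if_neg (by omega)]
      rfl
    rw [h1, map_zero, map_zero, norm_zero] at h
    linarith
  choose a b ha hab hv using hcon'
  let N : ℕ → ℕ := fun i => Nat.rec 0 (fun _ n => b n + 1) i
  have hN : ∀ i, N (i + 1) = b (N i) + 1 := fun _ => rfl
  have hNm : StrictMono N := strictMono_nat_of_lt_succ fun i => by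
    rw [hN]
    have := ha (N i)
    have := hab (N i)
    omega
  -- choose an even index with large weight
  obtain ⟨j, hj⟩ := exists_nat_gt (2 * ‖w‖ / ε)
  have hs : ∀ (d : ℕ) (i i' : Fin d), i < i' → b (N i) < a (N i') := by
    intro d i i' h
    have h1 : N (i + 1) ≤ N i' := hNm.monotone h
    rw [hN] at h1
    have := ha (N i')
    omega
  have h1 := lower w.bd (j := 2 * j) (by omega) (d := nn (2 * j)) le_rfl (fun i => a (N i))
    (fun i => b (N i)) (hs _) hε (fun i => hv (N i))
  have h2 := mm_le_nn (2 * j)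
  have h3 := one_le_mm (2 * j)
  have h4 := lt_mm' (2 * j)
  push_cast at h4
  have h5 : (2 * ‖w‖) < ε * mm (2 * j) := by
    rw [div_lt_iff₀ hε] at hj
    have : (j : ℝ) * ε ≤ ε * mm (2 * j) := by
      rw [mul_comm]
      refine mul_le_mul_of_nonneg_left ?_ hε.le
      have : (0 : ℝ) ≤ j := Nat.cast_nonneg _
      linarith
    linarith
  have h6 : (mm (2 * j) : ℝ) ^ 2 * ε ≤ nn (2 * j) * ε := by
    refine mul_le_mul_of_nonneg_right ?_ hε.le
    refine le_trans ?_ h2
    exact pow_le_pow_right₀ (by linarith) (by norm_num)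
  nlinarith

/-! ### Davie's vectors -/

/-- the combinatorial data -/
def sys : Pool.Agent.H812R2.AP.Sys := Classical.choice Pool.Agent.H812R2.AP.exists_sys

/-- Davie's functions -/
def gf (l i : ℕ) : V := fun k g => ((Pool.Agent.BAPp.ee sys.sg sys.tt l i (k, g) : ℝ) : ℂ)

theorem gf_adm (l i : ℕ) : Adm (gf l i) := by
  intro k g h
  unfold gf Pool.Agent.BAPp.ee
  rw [if_neg h]
  simp

theorem gf_lv (l i : ℕ) : OnLv (l - 1) l (gf l i) := by
  intro k g h
  unfold gf Pool.Agent.BAPp.ee
  dsimp only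
  split_ifs
  · omega
  · omega
  · simp
  · simp

theorem norm_gf_le (l i k g : ℕ) : ‖gf l i k g‖ ≤ 1 := by
  unfold gf
  rw [Complex.norm_real]
  exact sys.ee_le l i (k, g)

theorem card_Icc_pred (l : ℕ) : ((Icc (l - 1) l).card : ℝ) ≤ 2 := by
  rw [Nat.card_Icc]
  have : l + 1 - (l - 1) ≤ 2 := by omega
  exact_mod_cast this

theorem gf_bd (l i : ℕ) : Bd 2 (gf l i) := by
  intro t hw a b
  refine (ev_le_sum (gf_lv l i) (fun _ => 1) (fun _ => zero_le_one) (fun k g _ => norm_gf_le _ _ _ _)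
    t hw a b).trans ?_
  rw [Finset.sum_const, nsmul_eq_mul, mul_one]
  exact card_Icc_pred l

theorem gf_node (l i : ℕ) (t : Tr) (hw : t.Wf) (j : ℕ) (hj : t.wt = j + 1) (a b : ℕ) :
    ‖ev t (cut a b (gf l i))‖ ≤ 2 / mm j := by
  cases t with
  | base k g => simp [Tr.wt] at hj
  | node j' d c a' b' t =>
    have hji : j' = j := by simpa [Tr.wt] using hj
    subst hji
    refine (ev_node_le_sum (gf_lv l i) (fun _ => 1) (fun _ => zero_le_one)
      (fun k g _ => norm_gf_le _ _ _ _) hw a b).trans ?_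
    rw [Finset.sum_const, nsmul_eq_mul, mul_one, div_eq_inv_mul]
    exact mul_le_mul_of_nonneg_left (card_Icc_pred l) (by have := mm_pos' j'; positivity)

/-- the generating vectors -/
def gen (l i : ℕ) : WT := ofV (gf l i) 2 (gf_bd l i) (gf_adm l i)

theorem cw_gen (l i : ℕ) : cw (gen l i) = gf l i := cw_ofV _ _ _ _

/-- the set of generators -/
def gens : Set WT := {z | ∃ l i, i < 2 ^ l ∧ z = gen l i}

/-- finite combinations -/
def Zf : Submodule ℂ WT := Submodule.span ℂ gens

/-- Davie's subspace of `W` -/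
def Z : Submodule ℂ WT := Zf.topologicalClosure

theorem Zf_le : Zf ≤ Z := Submodule.le_topologicalClosure _

theorem isClosed_Z : IsClosed (Z : Set WT) := Submodule.isClosed_topologicalClosure _

/-- `Z` as a type -/
def ZT : Type := ↥Z

instance : NormedAddCommGroup ZT := inferInstanceAs (NormedAddCommGroup ↥Z)
instance : NormedSpace ℂ ZT := inferInstanceAs (NormedSpace ℂ ↥Z)
instance : CompleteSpace ZT := (isClosed_Z.completeSpace_coe : CompleteSpace ↥Z)

/-- the inclusion of `Z` in `W` -/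
def inc : ZT →L[ℂ] WT := Z.subtypeL

/-- the element of `Z` given by an element of `W` -/
def ZT.mk (w : WT) (h : w ∈ Z) : ZT := (⟨w, h⟩ : ↥Z)

theorem inc_mk (w : WT) (h : w ∈ Z) : inc (ZT.mk w h) = w := rfl

theorem inc_mem (z : ZT) : inc z ∈ Z := Subtype.property (p := fun w => w ∈ Z) z

theorem norm_inc (z : ZT) : ‖inc z‖ = ‖z‖ := rfl

theorem inc_injective : Function.Injective inc := Subtype.val_injective

/-- the coordinates of an element of `Z` -/
def cz : ZT →ₗ[ℂ] V := cw.comp (inc : ZT →ₗ[ℂ] WT)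

theorem cw_inc (z : ZT) : cw (inc z) = cz z := rfl

theorem cz_injective : Function.Injective cz := fun _ _ h => inc_injective (cw_injective h)

theorem ZT.bd (z : ZT) : Bd ‖z‖ (cz z) := WT.bd (inc z)

theorem ZT.norm_le {z : ZT} {C : ℝ} (hC : 0 ≤ C) (h : Bd C (cz z)) : ‖z‖ ≤ C :=
  WT.norm_le (w := inc z) hC h

theorem gen_mem {l i : ℕ} (h : i < 2 ^ l) : gen l i ∈ Z := Zf_le (Submodule.subset_span ⟨l, i, h, rfl⟩)

/-- elements of `Zf` have finite level -/
theorem Zf_lv {z : WT} (hz : z ∈ Zf) : ∃ B, OnLv 0 B (cw z) := by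
  unfold Zf at hz
  induction hz using Submodule.span_induction with
  | mem z hz =>
    obtain ⟨l, i, -, rfl⟩ := hz
    exact ⟨l, by rw [cw_gen]; exact (gf_lv l i).mono (Nat.zero_le _) le_rfl⟩
  | zero => exact ⟨0, fun k g _ => by rw [map_zero]; rfl⟩
  | add z z' _ _ h h' =>
    obtain ⟨B, hB⟩ := h
    obtain ⟨B', hB'⟩ := h'
    refine ⟨max B B', fun k g hk => ?_⟩
    rw [map_add]
    show cw z k g + cw z' k g = 0
    rw [hB k g (by have := le_max_left B B'; omega), hB' k g (by have := le_max_right B B'; omega), add_zero]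
  | smul c z _ h =>
    obtain ⟨B, hB⟩ := h
    refine ⟨B, fun k g hk => ?_⟩
    rw [map_smul]
    show c • cw z k g = 0
    rw [hB k g hk, smul_zero]

/-- restriction as a continuous linear operator -/
def resL (a b : ℕ) : WT →L[ℂ] WT :=
  LinearMap.mkContinuous
    { toFun := res a b
      map_add' := fun w w' => cw_injective (by rw [map_add, cw_res, cw_res, cw_res, map_add, map_add])
      map_smul' := fun c w => cw_injective (by
        rw [RingHom.id_apply, map_smul, cw_res, cw_res, map_smul, map_smul]) } 1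
    (fun w => by rw [one_mul]; exact norm_res_le a b w)

theorem resL_apply (a b : ℕ) (w : WT) : resL a b w = res a b w := rfl

/-- evaluation on the first levels -/
def headMap (N : ℕ) : WT →ₗ[ℂ] (Fin (N + 1) → Fin (2 ^ (N + 2)) → ℂ) where
  toFun w := fun k g => cw w k g
  map_add' w w' := by
    funext k g
    rw [map_add]; rfl
  map_smul' c w := by
    funext k g
    rw [map_smul]; rfl

theorem lift_bound {E F : Type*} [NormedAddCommGroup E] [NormedSpace ℂ E] [AddCommGroup F] [Module ℂ F]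
    [FiniteDimensional ℂ F] (p : Submodule ℂ E) (T : E →ₗ[ℂ] E) (h : E →ₗ[ℂ] F)
    (hinj : ∀ z, h (T z) = 0 → T z = 0) :
    ∃ K : ℝ, 0 ≤ K ∧ ∀ z ∈ p, ∃ z' ∈ p, T z' = T z ∧ ‖z'‖ ≤ K * ‖T z‖ := by
  let R : p →ₗ[ℂ] E := T.comp p.subtype
  have hfin : FiniteDimensional ℂ (LinearMap.range R) := by
    refine FiniteDimensional.of_injective (h.comp (LinearMap.range R).subtype) ?_
    rw [injective_iff_map_eq_zero]
    rintro ⟨w, z, rfl⟩ hw
    apply Subtype.ext
    exact hinj _ hw
  obtain ⟨S, hS⟩ : ∃ S : LinearMap.range R →ₗ[ℂ] p, R.rangeRestrict.comp S = LinearMap.id :=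
    LinearMap.exists_rightInverse_of_surjective R.rangeRestrict
    (LinearMap.range_eq_top.2 (LinearMap.surjective_rangeRestrict R))
  let S'' : LinearMap.range R →L[ℂ] E := LinearMap.toContinuousLinearMap (p.subtype.comp S)
  refine ⟨‖S''‖, S''.opNorm_nonneg, fun z hz => ?_⟩
  let y : LinearMap.range R := R.rangeRestrict ⟨z, hz⟩
  refine ⟨S y, (S y).2, ?_, ?_⟩
  · have := congrArg (fun f : LinearMap.range R →ₗ[ℂ] LinearMap.range R => (f y : E)) hS
    exact this
  · have := S''.le_opNorm y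
    exact this

/-- approximation by vectors of finite level vanishing on the first levels -/
theorem approx (N : ℕ) : ∃ K : ℝ, 0 ≤ K ∧ ∀ z ∈ Z, ∀ ε > 0, ∃ z' ∈ Zf, cut 0 N (cw z') = 0 ∧
    ‖z - z'‖ ≤ K * ‖res 0 N z‖ + ε := by
  obtain ⟨K, hK, hKz⟩ := lift_bound Zf (resL 0 N : WT →ₗ[ℂ] WT) (headMap N) (by
    intro z hw
    apply cw_injective
    have h1 : ∀ k g, cw (res 0 N z) k g = 0 := by
      intro k g
      by_cases hk : k ≤ N
      · by_cases hg : g < 2 ^ (k + 2)
        · have h2 : g < 2 ^ (N + 2) := lt_of_lt_of_le hg (Nat.pow_le_pow_right (by norm_num) (by omega))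
          exact congrFun (congrFun hw ⟨k, by omega⟩) ⟨g, h2⟩
        · exact adm_cw _ k g hg
      · rw [cw_res, cut_apply, if_neg (by omega)]
    funext k g
    rw [map_zero]
    exact h1 k g)
  refine ⟨K, hK, fun z hz ε hε => ?_⟩
  have hη : 0 < ε / (1 + K) := by positivity
  have hz' : z ∈ closure (Zf : Set WT) := hz
  obtain ⟨z₁, hz₁, hd⟩ := Metric.mem_closure_iff.1 hz' _ hη
  rw [dist_eq_norm] at hd
  obtain ⟨y, hy, hyz, hyn⟩ := hKz z₁ hz₁
  have hyz' : res 0 N y = res 0 N z₁ := hyz
  have hyn' : ‖y‖ ≤ K * ‖res 0 N z₁‖ := hyn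
  refine ⟨z₁ - y, Submodule.sub_mem _ hz₁ hy, ?_, ?_⟩
  · rw [← cw_res, ← resL_apply, map_sub, resL_apply, resL_apply, hyz', sub_self, map_zero]
  · have h2 : ‖res 0 N z₁‖ ≤ ‖res 0 N z‖ + ‖z - z₁‖ := by
      have h3 : res 0 N z₁ = res 0 N z - res 0 N (z - z₁) := by
        rw [← resL_apply, ← resL_apply, ← resL_apply, ← map_sub]
        congr 1
        abel
      rw [h3]
      refine (norm_sub_le _ _).trans (add_le_add le_rfl (norm_res_le _ _ _))
    have h4 : z - (z₁ - y) = (z - z₁) + y := by abel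
    rw [h4]
    refine (norm_add_le _ _).trans ?_
    have h5 : K * ‖res 0 N z₁‖ ≤ K * (‖res 0 N z‖ + ‖z - z₁‖) :=
      mul_le_mul_of_nonneg_left h2 hK
    have h6 : (1 + K) * ‖z - z₁‖ ≤ ε := by
      have := mul_le_mul_of_nonneg_left hd.le (by positivity : 0 ≤ 1 + K)
      rwa [mul_div_cancel₀] at this
      positivity
    nlinarith

end

end Pool.Agent.TH313.HI
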