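import Pool.Agent.TH313.HI.Space2

/-! Generators as elements of `Z`, Davie's approximate traces. -/

set_option autoImplicit false

namespace Pool.Agent.TH313.HI

open Finset Filter Topology
open scoped BoundedContinuousFunction

noncomputable section

/-- the generators as elements of `Z` -/
def gz (k j : ℕ) : ZT := if h : j < 2 ^ k then ZT.mk (gen k j) (gen_mem h) else 0

theorem cz_gz {k j : ℕ} (h : j < 2 ^ k) : cz (gz k j) = gf k j := by
  unfold gz
  rw [dif_pos h]
  exact cw_gen k j

/-- the biorthogonal functionals -/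
def aV (k j : ℕ) (x : V) : ℂ := (1 / 2 ^ (k + 2) : ℂ) * ∑ g ∈ range (2 ^ (k + 2)), ((sys.sg k j g : ℝ) : ℂ) * x k g

/-- Davie's approximate traces -/
def be (k : ℕ) (T : ZT →L[ℂ] WT) : ℂ := (1 / 2 ^ k : ℂ) * ∑ j ∈ range (2 ^ k), aV k j (cw (T (gz k j)))

end

end Pool.Agent.TH313.HI
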