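import Mathlib

/-! Trees, special functionals and their evaluation. -/

set_option autoImplicit false

namespace Pool.Agent.TH313.HI

open Finset

noncomputable section

/-- the weights -/
def mm (j : ℕ) : ℕ := 2 ^ 2 ^ (j + 1)

/-- `2 ^ rr j = (mm j) ^ 2` -/
def rr (j : ℕ) : ℕ := 2 ^ (j + 2)

/-- the lengths -/
def nn : ℕ → ℕ
  | 0 => mm 0 ^ 4 * 5 * 2 ^ rr 0
  | j + 1 => mm (j + 1) ^ 4 * (5 * nn j + 5) * (2 * nn j + 2) ^ rr (j + 1)

/-- the threshold for the first weight of a special sequence -/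
def thr (p : ℕ) : ℕ := 2 * nn p ^ 2 + p + 2

/-- trees: `base` is a coordinate functional, `node` an average of restricted functionals -/
inductive Tr : Type
  | base : ℕ → ℕ → Tr
  | node : (j d : ℕ) → (Fin d → ℚ × ℚ) → (Fin d → ℕ) → (Fin d → ℕ) → (Fin d → Tr) → Tr

/-- labels for the `W`-type -/
abbrev Lab : Type := (ℕ × ℕ) ⊕ (Σ d : ℕ, ℕ × (Fin d → ℚ × ℚ) × (Fin d → ℕ) × (Fin d → ℕ))

/-- arities -/
def ar : Lab → ℕ
  | Sum.inl _ => 0
  | Sum.inr x => x.1

/-- a tree as an element of a `W`-type -/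
def Tr.toW : Tr → WType (fun l : Lab => Fin (ar l))
  | .base k g => WType.mk (Sum.inl (k, g)) (fun i => Fin.elim0 i)
  | .node j d c a b t => WType.mk (Sum.inr ⟨d, j, c, a, b⟩) (fun i => (t i).toW)

theorem Tr.toW_injective : Function.Injective Tr.toW := by
  intro x
  induction x with
  | base k g =>
    intro y h
    cases y with
    | base k' g' =>
      simp only [Tr.toW, WType.mk.injEq, Sum.inl.injEq, Prod.mk.injEq] at h
      obtain ⟨⟨rfl, rfl⟩, _⟩ := h
      rfl
    | node j d c a b t =>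
      simp only [Tr.toW, WType.mk.injEq] at h
      exact absurd h.1 (by simp)
  | node j d c a b t ih =>
    intro y h
    cases y with
    | base k' g' =>
      simp only [Tr.toW, WType.mk.injEq] at h
      exact absurd h.1 (by simp)
    | node j' d' c' a' b' t' =>
      simp only [Tr.toW, WType.mk.injEq, Sum.inr.injEq] at h
      obtain ⟨h1, h2⟩ := h
      obtain ⟨rfl, h3⟩ := Sigma.mk.inj_iff.1 h1
      simp only [heq_eq_eq, Prod.mk.injEq] at h3
      obtain ⟨rfl, rfl, rfl, rfl⟩ := h3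
      congr 1
      funext i
      exact ih i (congrFun (eq_of_heq h2) i)

instance : Countable Tr := Tr.toW_injective.countable

/-- a numbering of the finite sequences of restricted trees -/
def code : List (Tr × ℕ × ℕ) → ℕ := (Countable.exists_injective_nat (List (Tr × ℕ × ℕ))).choose

theorem code_injective : Function.Injective code :=
  (Countable.exists_injective_nat (List (Tr × ℕ × ℕ))).choose_spec

/-- the weight index plus one (zero for coordinate functionals) -/
def Tr.wt : Tr → ℕ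
  | .base _ _ => 0
  | .node j _ _ _ _ _ => j + 1

/-- the sum of the weights of a list -/
def wsum (L : List (Tr × ℕ × ℕ)) : ℕ := (L.map fun s => s.1.wt).sum

/-- the coding function -/
def sig (L : List (Tr × ℕ × ℕ)) : ℕ := 4 * (Nat.pair (code L) (wsum L) + 1)

theorem sig_injective : Function.Injective sig := by
  intro L L' h
  unfold sig at h
  have h1 : Nat.pair (code L) (wsum L) = Nat.pair (code L') (wsum L') := by omega
  exact code_injective (Nat.pair_eq_pair.1 h1).1

theorem wsum_lt_sig (L : List (Tr × ℕ × ℕ)) : wsum L < sig L := by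
  unfold sig
  have := Nat.right_le_pair (code L) (wsum L)
  omega

theorem sig_mod (L : List (Tr × ℕ × ℕ)) : sig L % 4 = 0 := by
  unfold sig; omega

/-- the first `s` restricted children -/
def hist {d : ℕ} (a b : Fin d → ℕ) (t : Fin d → Tr) (s : ℕ) : List (Tr × ℕ × ℕ) :=
  (List.ofFn fun i => (t i, a i, b i)).take s

/-- coefficients -/
def cc (c : ℚ × ℚ) : ℂ := (c.1 : ℂ) + (c.2 : ℂ) * Complex.I

/-- admissible trees -/
def Tr.Wf : Tr → Prop
  | .base k g => g < 2 ^ (k + 2)
  | .node j d c a b t =>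
      d ≤ nn j ∧ (∀ i, (t i).Wf) ∧ (∀ i, ‖cc (c i)‖ ≤ 1) ∧ (∀ i, a i ≤ b i) ∧
      (∀ i i', i < i' → b i < a i') ∧
      (j % 2 = 1 → (∀ i, c i = (1, 0)) ∧
        ∀ i : Fin d, if (i : ℕ) = 0 then ∃ q, q % 4 = 2 ∧ thr j ≤ q ∧ (t i).wt = q + 1
          else (t i).wt = sig (hist a b t i) + 1)

/-- the space of all level functions -/
abbrev V : Type := ℕ → ℕ → ℂ

/-- restriction to the levels of an interval -/
def cut (a b : ℕ) : V →ₗ[ℂ] V where
  toFun x := fun k g => if a ≤ k ∧ k ≤ b then x k g else 0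
  map_add' x y := by
    funext k g
    by_cases h : a ≤ k ∧ k ≤ b <;> simp [h]
  map_smul' c x := by
    funext k g
    by_cases h : a ≤ k ∧ k ≤ b <;> simp [h]

theorem cut_apply (a b : ℕ) (x : V) (k g : ℕ) : cut a b x k g = if a ≤ k ∧ k ≤ b then x k g else 0 := rfl

theorem cut_cut (a b a' b' : ℕ) (x : V) : cut a b (cut a' b' x) = cut (max a a') (min b b') x := by
  funext k g
  simp only [cut_apply]
  by_cases h : a ≤ k ∧ k ≤ b <;> by_cases h' : a' ≤ k ∧ k ≤ b'
  · rw [if_pos h, if_pos h', if_pos ⟨max_le h.1 h'.1, le_min h.2 h'.2⟩]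
  · rw [if_pos h, if_neg h', if_neg]
    intro h2
    exact h' ⟨(le_max_right _ _).trans h2.1, h2.2.trans (min_le_right _ _)⟩
  · rw [if_neg h, if_neg]
    intro h2
    exact h ⟨(le_max_left _ _).trans h2.1, h2.2.trans (min_le_left _ _)⟩
  · rw [if_neg h, if_neg]
    intro h2
    exact h ⟨(le_max_left _ _).trans h2.1, h2.2.trans (min_le_left _ _)⟩

/-- evaluation of a tree -/
def ev : Tr → V →ₗ[ℂ] ℂ
  | .base k g => (LinearMap.proj (R := ℂ) (φ := fun _ : ℕ => ℂ) g).comp
      (LinearMap.proj (R := ℂ) (φ := fun _ : ℕ => ℕ → ℂ) k)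
  | .node j d c a b t => ((mm j : ℂ))⁻¹ • ∑ i : Fin d, cc (c i) • (ev (t i)).comp (cut (a i) (b i))

theorem ev_base (k g : ℕ) (x : V) : ev (.base k g) x = x k g := rfl

theorem ev_node (j d : ℕ) (c : Fin d → ℚ × ℚ) (a b : Fin d → ℕ) (t : Fin d → Tr) (x : V) :
    ev (.node j d c a b t) x = (mm j : ℂ)⁻¹ * ∑ i : Fin d, cc (c i) * ev (t i) (cut (a i) (b i) x) := by
  rw [ev]
  simp only [LinearMap.smul_apply, LinearMap.sum_apply, LinearMap.comp_apply, smul_eq_mul]

/-- `x` is bounded by `C` with respect to all admissible functionals. -/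
def Bd (C : ℝ) (x : V) : Prop := ∀ t : Tr, t.Wf → ∀ a b : ℕ, ‖ev t (cut a b x)‖ ≤ C

/-- `x` lives on the levels of `[A, B]`. -/
def OnLv (A B : ℕ) (x : V) : Prop := ∀ k g, (k < A ∨ B < k) → x k g = 0

theorem OnLv.cut_eq {A B : ℕ} {x : V} (h : OnLv A B x) {a b : ℕ} (ha : a ≤ A) (hb : B ≤ b) :
    cut a b x = x := by
  funext k g
  rw [cut_apply]
  split_ifs with h1
  · rfl
  · rw [h k g]
    by_contra h2
    push Not at h2
    exact h1 ⟨ha.trans h2.1, h2.2.trans hb⟩

theorem OnLv.cut_zero {A B : ℕ} {x : V} (h : OnLv A B x) {a b : ℕ} (hab : b < A ∨ B < a) :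
    cut a b x = 0 := by
  funext k g
  rw [cut_apply]
  split_ifs with h1
  · exact h k g (by omega)
  · rfl

theorem OnLv.cutR {A B : ℕ} {x : V} (h : OnLv A B x) (a b : ℕ) : OnLv A B (cut a b x) := by
  intro k g hk
  rw [cut_apply, h k g hk]
  simp

theorem OnLv.mono {A B A' B' : ℕ} {x : V} (h : OnLv A B x) (ha : A' ≤ A) (hb : B ≤ B') : OnLv A' B' x := by
  intro k g hk
  exact h k g (by omega)

end

end Pool.Agent.TH313.HI
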